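import Pool.Agent.Lib.MP_52aaf2_al.NW

open Polynomial IntermediateField

namespace MP52aaf2

section

variable {k F : Type} [Field k] [Field F] [Algebra k F]

open scoped IntermediateField.algebraAdjoinAdjoin in
theorem alg_iff (z a : F) : IsAlgebraic (Algebra.adjoin k {z}) a ↔ IsAlgebraic k⟮z⟯ a :=
  IsFractionRing.isAlgebraic_iff (Algebra.adjoin k {z}) k⟮z⟯ F

/-- exchange lemma -/
theorem exch {u z : F} (hu : IsAlgebraic k⟮z⟯ u) (ht : Transcendental k u) :
    IsAlgebraic k⟮u⟯ z := by
  rw [← alg_iff] at hu ⊢
  have h1 : u ∈ (AlgebraicIndependent.matroid k F).closure (insert z ∅) := by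
    rw [AlgebraicIndependent.matroid_closure_eq]
    have : IsAlgebraic (Algebra.adjoin k (insert z (∅ : Set F))) u := by
      rw [insert_empty_eq]
      exact hu
    exact this
  have h2 : u ∉ (AlgebraicIndependent.matroid k F).closure ∅ := by
    rw [AlgebraicIndependent.matroid_closure_eq]
    intro h
    apply ht
    have h3 : IsAlgebraic (Algebra.adjoin k (∅ : Set F)) u := h
    rw [Algebra.adjoin_empty] at h3
    exact Subalgebra.isAlgebraic_of_isAlgebraic_bot h3
  have h3 := Matroid.mem_closure_insert h2 h1
  rw [AlgebraicIndependent.matroid_closure_eq] at h3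
  have h4 : IsAlgebraic (Algebra.adjoin k (insert u (∅ : Set F))) z := h3
  rwa [insert_empty_eq] at h4

open scoped IntermediateField.algebraAdjoinAdjoin in
theorem exists_theta [CharZero k] {z : F} (htr : Transcendental k z)
    (halg : ∀ a : F, IsAlgebraic k⟮z⟯ a) : ∃ θ : Derivation k F F, θ z = z := by
  have : CharZero k⟮z⟯ := charZero_of_injective_algebraMap (algebraMap k k⟮z⟯).injective
  have : Algebra.IsAlgebraic k⟮z⟯ F := ⟨halg⟩
  have h1 : Algebra.FormallyEtale k⟮z⟯ F := Algebra.FormallyEtale.of_isSeparable _ _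
  have h2 : Algebra.FormallyEtale (Algebra.adjoin k {z}) k⟮z⟯ :=
    Algebra.FormallyEtale.of_isLocalization (nonZeroDivisors _)
  have h3 : Algebra.FormallyEtale (Algebra.adjoin k {z}) F :=
    Algebra.FormallyEtale.comp _ k⟮z⟯ _
  let e := Polynomial.algEquivOfTranscendental k z htr
  have he : ∀ a : Algebra.adjoin k {z}, aeval z (e.symm a) = (a : F) := by
    intro a
    conv_rhs => rw [← e.apply_symm_apply a]
    generalize e.symm a = P
    change aeval z P = ((aeval (⟨z, Algebra.self_mem_adjoin_singleton k z⟩ :
      Algebra.adjoin k {z}) P : Algebra.adjoin k {z}) : F)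
    rw [aeval_subalgebra_coe]
  let L : Algebra.adjoin k {z} →ₗ[k] F :=
    { toFun := fun a => z * aeval z (derivative (e.symm a))
      map_add' := fun a b => by simp [mul_add]
      map_smul' := fun c a => by simp }
  let d : Derivation k (Algebra.adjoin k {z}) F := Derivation.mk' L (fun a b => by
    change z * aeval z (derivative (e.symm (a * b))) =
      (a : F) * (z * aeval z (derivative (e.symm b))) +
      (b : F) * (z * aeval z (derivative (e.symm a)))
    rw [map_mul, derivative_mul, map_add, map_mul, map_mul, he, he]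
    ring)
  obtain ⟨θ, hθ⟩ := exists_derivation_extension k (Algebra.adjoin k {z}) F d
  refine ⟨θ, ?_⟩
  have := hθ ⟨z, Algebra.self_mem_adjoin_singleton k z⟩
  have e1 : e.symm ⟨z, Algebra.self_mem_adjoin_singleton k z⟩ = X := by
    rw [AlgEquiv.symm_apply_eq]
    simp [e]
  change θ z = z * aeval z (derivative (e.symm ⟨z, _⟩)) at this
  rw [this, e1]
  simp

end

end MP52aaf2
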