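import Pool.Agent.Lib.MP_52aaf2_al.Ord

open Polynomial IntermediateField

namespace MP52aaf2

section

variable {k F : Type} [Field k] [Field F] [Algebra k F]

/-- a derivation over `k` kills everything algebraic over `k` (characteristic zero). -/
theorem der_eq_zero_of_algebraic [CharZero k] (θ : Derivation k F F) {a : F}
    (ha : IsAlgebraic k a) : θ a = 0 := by
  have h1 := congrArg θ (minpoly.aeval k a)
  rw [Derivation.map_aeval, map_zero, smul_eq_mul] at h1
  rcases mul_eq_zero.1 h1 with h | h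
  · exfalso
    have hs : (minpoly k a).Separable := (minpoly.irreducible ha.isIntegral).separable
    exact hs.aeval_derivative_ne_zero (minpoly.aeval k a) h
  · exact h

theorem transcendental_of_der [CharZero k] (θ : Derivation k F F) {a : F}
    (ha : θ a ≠ 0) : Transcendental k a := fun h => ha (der_eq_zero_of_algebraic θ h)

/-- restriction of a derivation to a stable intermediate field -/
noncomputable def resDer (K : IntermediateField k F) (d : Derivation ℤ F F)
    (h : ∀ a ∈ K, d a ∈ K) : Derivation ℤ K K :=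
  Derivation.mk'
    { toFun := fun a => ⟨d a, h a a.2⟩
      map_add' := fun a b => by
        apply Subtype.ext
        simp
      map_smul' := fun n a => by
        apply Subtype.ext
        simp }
    (fun a b => by
      apply Subtype.ext
      simp [Derivation.leibniz])

theorem resDer_coe (K : IntermediateField k F) (d : Derivation ℤ F F)
    (h : ∀ a ∈ K, d a ∈ K) (a : K) : ((resDer K d h a : K) : F) = d a := rfl

theorem adjoin_stable [CharZero k] (θ : Derivation k F F) {z : F} (hz : θ z = z) :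
    ∀ a ∈ k⟮z⟯, θ a ∈ k⟮z⟯ := by
  intro a ha
  obtain ⟨r, s, rfl⟩ := (IntermediateField.mem_adjoin_simple_iff k a).1 ha
  rw [Derivation.leibniz_div, der_aeval θ hz, der_aeval θ hz]
  have hzm : z ∈ k⟮z⟯ := IntermediateField.mem_adjoin_simple_self k z
  have hP : ∀ P : k[X], aeval z P ∈ k⟮z⟯ := by
    intro P
    exact (IntermediateField.mem_adjoin_simple_iff k _).2 ⟨P, 1, by simp⟩
  simp only [smul_eq_mul]
  exact mul_mem (pow_mem (inv_mem (hP s)) 2) (sub_mem (mul_mem (hP s) (mul_mem hzm (hP _)))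
    (mul_mem (hP r) (mul_mem hzm (hP _))))

theorem nw [CharZero k] (θ : Derivation k F F) {z : F} (hz : θ z = z) (hz0 : z ≠ 0) {f y : F}
    (hf : IsAlgebraic k⟮z⟯ f) (hy : IsAlgebraic k⟮z⟯ y) (hf0 : f ≠ 0) (hy0 : y ≠ 0) (κ ρ : k)
    (h : θ f / f = algebraMap k F κ + algebraMap k F ρ * (θ y / y)) :
    ∃ n : ℕ, 1 ≤ n ∧ ∃ a b : ℤ, (n : k) * κ = a - ρ * b := by
  have htr : Transcendental k z := transcendental_of_der θ (by rwa [hz])
  have hst := adjoin_stable θ hz
  let d : Derivation ℤ F F := θ.restrictScalars ℤ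
  let : Differential F := ⟨d⟩
  let : Differential k⟮z⟯ := ⟨resDer k⟮z⟯ d hst⟩
  have : DifferentialAlgebra k⟮z⟯ F := ⟨fun a => rfl⟩
  have : CharZero k⟮z⟯ := charZero_of_injective_algebraMap (algebraMap k k⟮z⟯).injective
  obtain ⟨n, hn, A, B, hA, hB, hAB⟩ := norm_step (F₀ := k⟮z⟯) f y hf hy hf0 hy0
    (algebraMap k k⟮z⟯ κ) (algebraMap k k⟮z⟯ ρ) h
  refine ⟨n, hn, ?_⟩
  have h1 := congrArg (algebraMap k⟮z⟯ F) hAB
  rw [map_add, map_mul, map_mul, map_natCast] at h1
  obtain ⟨r₁, s₁, hA'⟩ := (IntermediateField.mem_adjoin_simple_iff k _).1 A.2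
  obtain ⟨r₂, s₂, hB'⟩ := (IntermediateField.mem_adjoin_simple_iff k _).1 B.2
  have hAF : (A : F) ≠ 0 := fun h => hA (Subtype.ext h)
  have hBF : (B : F) ≠ 0 := fun h => hB (Subtype.ext h)
  have hr₁ : r₁ ≠ 0 := by rintro rfl; rw [map_zero, zero_div] at hA'; exact hAF hA'
  have hs₁ : s₁ ≠ 0 := by rintro rfl; rw [map_zero, div_zero] at hA'; exact hAF hA'
  have hr₂ : r₂ ≠ 0 := by rintro rfl; rw [map_zero, zero_div] at hB'; exact hBF hB'
  have hs₂ : s₂ ≠ 0 := by rintro rfl; rw [map_zero, div_zero] at hB'; exact hBF hB'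
  apply ord_lemma θ hz htr (n * κ) ρ hr₁ hs₁ hr₂ hs₂
  rw [← hA', ← hB', map_mul, map_natCast]
  exact h1

end

end MP52aaf2
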