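import Pool.Agent.Lib.MP_52aaf2_al.Theta

open Polynomial IntermediateField

namespace MP52aaf2

section

variable {k F : Type} [Field k] [Field F] [Algebra k F]

/-- algebraicity is monotone in the base field -/
theorem isAlgebraic_mono {K K' F : Type} [Field K] [Field K'] [Field F] [Algebra K F]
    [Algebra K' F] (h : ∀ a : K, ∃ b : K', algebraMap K' F b = algebraMap K F a) {x : F}
    (hx : IsAlgebraic K x) : IsAlgebraic K' x := by
  choose g hg using h
  have hinj := (algebraMap K' F).injective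
  let φ : K →+* K' :=
    { toFun := g
      map_one' := hinj (by rw [hg, map_one, map_one])
      map_mul' := fun a b => hinj (by rw [hg, map_mul, map_mul, hg, hg])
      map_zero' := hinj (by rw [hg, map_zero, map_zero])
      map_add' := fun a b => hinj (by rw [hg, map_add, map_add, hg, hg]) }
  obtain ⟨p, hp, hpx⟩ := hx
  refine ⟨p.map φ, (Polynomial.map_ne_zero_iff φ.injective).2 hp, ?_⟩
  rw [aeval_def, eval₂_map]
  have : (algebraMap K' F).comp φ = algebraMap K F := by
    ext a
    exact hg a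
  rw [this]
  exact hpx

/-- a derivation vanishing on a subfield vanishes on everything algebraic over it -/
theorem der_zero_alg {K F : Type} [Field K] [Field F] [Algebra K F] [CharZero K]
    (δ : Derivation ℤ F F) (h : ∀ a : K, δ (algebraMap K F a) = 0) {x : F}
    (hx : IsAlgebraic K x) : δ x = 0 := by
  let δ' : Derivation K F F := Derivation.mk'
    { toFun := fun a => δ a
      map_add' := fun a b => map_add δ a b
      map_smul' := fun c a => by
        rw [Algebra.smul_def, Derivation.leibniz, h]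
        simp [Algebra.smul_def] }
    (fun a b => δ.leibniz a b)
  exact der_eq_zero_of_algebraic δ' hx

/-- a derivation vanishing on `k` and at `z` vanishes on `k⟮z⟯`. -/
theorem der_zero_adjoin (δ : Derivation ℤ F F) (h : ∀ a : k, δ (algebraMap k F a) = 0) {z : F}
    (hz : δ z = 0) : ∀ a : k⟮z⟯, δ (algebraMap k⟮z⟯ F a) = 0 := by
  let δ' : Derivation k F F := Derivation.mk'
    { toFun := fun a => δ a
      map_add' := fun a b => map_add δ a b
      map_smul' := fun c a => by
        rw [Algebra.smul_def, Derivation.leibniz, h]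
        simp [Algebra.smul_def] }
    (fun a b => δ.leibniz a b)
  have hP : ∀ P : k[X], δ (aeval z P) = 0 := by
    intro P
    change δ' (aeval z P) = 0
    rw [Derivation.map_aeval]
    change aeval z (derivative P) • δ z = 0
    rw [hz, smul_zero]
  intro a
  obtain ⟨r, s, ha⟩ := (IntermediateField.mem_adjoin_simple_iff k _).1 a.2
  change δ (a : F) = 0
  rw [ha, Derivation.leibniz_div, hP, hP]
  simp

theorem logder_zpow (δ : Derivation ℤ F F) {y z : F} (hy : y ≠ 0) (hz : z ≠ 0) (n : ℕ) (b : ℤ) :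
    δ (y ^ n * z ^ b) / (y ^ n * z ^ b) = n * (δ y / y) + b * (δ z / z) := by
  rw [Derivation.leibniz, Derivation.leibniz_pow, Derivation.leibniz_zpow]
  have h1 : y ^ n ≠ 0 := pow_ne_zero _ hy
  have h2 : z ^ b ≠ 0 := zpow_ne_zero _ hz
  simp only [smul_eq_mul, nsmul_eq_mul, zsmul_eq_mul]
  rcases n with _ | n
  · simp
    rw [zpow_sub_one₀ hz]
    field_simp
  · rw [Nat.add_sub_cancel, zpow_sub_one₀ hz]
    field_simp
    ring

/-- `∂ u = u`, `w` algebraic over `k(u)`, `∂ w = ρ w`: then `ρ` is rational. -/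
theorem rational_of_power [CharZero k] (d : Derivation k F F) {u w : F} (hu : d u = u)
    (hu0 : u ≠ 0) (hw0 : w ≠ 0) (hw : IsAlgebraic k⟮u⟯ w) (ρ : k)
    (h : d w / w = algebraMap k F ρ) : ∃ n : ℕ, 1 ≤ n ∧ ∃ a : ℤ, (n : k) * ρ = a := by
  obtain ⟨n, hn, a, b, hab⟩ := nw d hu hu0 (f := w) (y := 1) hw isAlgebraic_one hw0 one_ne_zero
    ρ 0 (by simp [h])
  exact ⟨n, hn, a, by simpa using hab⟩

/-- **Core lemma.** -/
theorem core {R₀ : Type} [Field R₀] [Algebra R₀ k] [Algebra R₀ F] [IsScalarTower R₀ k F]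
    [CharZero k] [CharZero R₀] {z : F} (htr : Transcendental k z)
    (halg : ∀ a : F, IsAlgebraic k⟮z⟯ a)
    (hcl : ∀ a : F, IsAlgebraic k a → ∃ b : k, algebraMap k F b = a)
    (D : Derivation R₀ F F) (hDk : ∀ a : k, ∃ b : k, D (algebraMap k F a) = algebraMap k F b)
    (hDz : ∃ η : k, D z = algebraMap k F η * z)
    (hconst : ∀ a : F, D a = 0 → ∃ c : R₀, algebraMap R₀ F c = a)
    {ρ : R₀} (hρ : ∀ m n : ℤ, n ≠ 0 → (n : R₀) * ρ ≠ m)
    {y f : F} (hy : y ≠ 0) (hf : f ≠ 0) (hyalg : IsAlgebraic R₀⟮z⟯ y)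
    (h : D f / f = algebraMap R₀ F ρ * (D y / y)) :
    ∃ N : ℕ, 1 ≤ N ∧ ∃ M : ℤ, ∃ c : R₀, c ≠ 0 ∧ y ^ N = algebraMap R₀ F c * z ^ M := by
  have hz0 : z ≠ 0 := by
    rintro rfl
    exact htr isAlgebraic_zero
  obtain ⟨θ, hθz⟩ := exists_theta htr halg
  have : CharZero k⟮z⟯ := charZero_of_injective_algebraMap (algebraMap k k⟮z⟯).injective
  -- `D` and `θ` commute
  have hcomm : ∀ a : F, D (θ a) = θ (D a) := by
    intro a
    let D' : Derivation ℤ F F := D.restrictScalars ℤ
    let θ' : Derivation ℤ F F := θ.restrictScalars ℤ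
    have hk : ∀ a : k, ⁅D', θ'⁆ (algebraMap k F a) = 0 := by
      intro a
      rw [Derivation.commutator_apply]
      change D (θ (algebraMap k F a)) - θ (D (algebraMap k F a)) = 0
      obtain ⟨b, hb⟩ := hDk a
      rw [hb, Derivation.map_algebraMap, Derivation.map_algebraMap, map_zero, sub_zero]
    have hz : ⁅D', θ'⁆ z = 0 := by
      rw [Derivation.commutator_apply]
      change D (θ z) - θ (D z) = 0
      obtain ⟨η, hη⟩ := hDz
      rw [hθz, hη, Derivation.leibniz, Derivation.map_algebraMap, hθz]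
      simp
    have h0 := der_zero_alg ⁅D', θ'⁆ (der_zero_adjoin ⁅D', θ'⁆ hk hz) (halg a)
    rw [Derivation.commutator_apply] at h0
    exact sub_eq_zero.1 h0
  -- the constant `κ`
  have hquot : ∀ a : F, a ≠ 0 → D (θ a / a) = θ (D a / a) := by
    intro a ha
    rw [Derivation.leibniz_div, Derivation.leibniz_div, hcomm]
    simp only [smul_eq_mul]
    ring
  have hφ : D (θ f / f - algebraMap R₀ F ρ * (θ y / y)) = 0 := by
    rw [map_sub, hquot f hf, Derivation.leibniz, Derivation.map_algebraMap, hquot y hy, h,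
      Derivation.leibniz, IsScalarTower.algebraMap_apply R₀ k F, Derivation.map_algebraMap]
    simp
  obtain ⟨κ, hκ⟩ := hconst _ hφ
  have hyk : IsAlgebraic k⟮z⟯ y := halg y
  obtain ⟨n, hn, a, b, hab⟩ := nw θ hθz hz0 (halg f) hyk hf hy (algebraMap R₀ k κ)
    (algebraMap R₀ k ρ) (by
      rw [← IsScalarTower.algebraMap_apply, ← IsScalarTower.algebraMap_apply, hκ]
      ring)
  have habR : (n : R₀) * κ = a - ρ * b := by
    apply (algebraMap R₀ k).injective
    simpa using hab
  have habF : (n : F) * algebraMap R₀ F κ = a - algebraMap R₀ F ρ * b := by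
    have := congrArg (algebraMap R₀ F) habR
    simpa using this
  set u : F := y ^ n * z ^ (-b) with hu
  set w : F := f ^ n * z ^ (-a) with hw
  have hu0 : u ≠ 0 := mul_ne_zero (pow_ne_zero _ hy) (zpow_ne_zero _ hz0)
  have hw0 : w ≠ 0 := mul_ne_zero (pow_ne_zero _ hf) (zpow_ne_zero _ hz0)
  have hθu : θ u / u = n * (θ y / y) - b := by
    have := logder_zpow (θ.restrictScalars ℤ) hy hz0 n (-b)
    change θ u / u = n * (θ y / y) + ((-b : ℤ) : F) * (θ z / z) at this
    rw [this, hθz, div_self hz0]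
    push_cast
    ring
  have hθw : θ w / w = algebraMap R₀ F ρ * (θ u / u) := by
    have := logder_zpow (θ.restrictScalars ℤ) hf hz0 n (-a)
    change θ w / w = n * (θ f / f) + ((-a : ℤ) : F) * (θ z / z) at this
    rw [this, hθz, div_self hz0, hθu]
    push_cast
    have h2 : θ f / f = algebraMap R₀ F κ + algebraMap R₀ F ρ * (θ y / y) := by
      rw [hκ]; ring
    rw [h2]
    linear_combination habF
  -- `u` is algebraic over `k`
  have hualg : IsAlgebraic k u := by
    by_contra hut
    have hex : IsAlgebraic k⟮u⟯ z := exch (halg u) hut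
    have : CharZero k⟮u⟯ := charZero_of_injective_algebraMap (algebraMap k k⟮u⟯).injective
    have hθu0 : θ u ≠ 0 := by
      intro h0
      have h1 := der_zero_alg (θ.restrictScalars ℤ) (der_zero_adjoin (θ.restrictScalars ℤ)
        (fun a => Derivation.map_algebraMap θ a) h0) hex
      have h2 : θ z = 0 := h1
      rw [hθz] at h2
      exact hz0 h2
    have hwalg : IsAlgebraic k⟮u⟯ w := by
      -- everything is algebraic over k(u)
      let L : IntermediateField k⟮u⟯ F := algebraicClosure k⟮u⟯ F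
      have hzL : z ∈ L := mem_algebraicClosure_iff.2 hex
      have hmono : ∀ c : k⟮z⟯, ∃ e : L, algebraMap L F e = algebraMap k⟮z⟯ F c := by
        intro c
        obtain ⟨r, s, hc⟩ := (IntermediateField.mem_adjoin_simple_iff k _).1 c.2
        have hP : ∀ P : k[X], aeval z P ∈ L := by
          intro P
          have : aeval z P = ((aeval (⟨z, hzL⟩ : L) (P.map (algebraMap k k⟮u⟯)) : L) : F) := by
            have h1 := aeval_algHom_apply L.val (⟨z, hzL⟩ : L) (P.map (algebraMap k k⟮u⟯))
            change aeval z (P.map (algebraMap k k⟮u⟯)) = _ at h1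
            rw [aeval_map_algebraMap] at h1
            exact h1
          rw [this]
          exact SetLike.coe_mem _
        refine ⟨⟨aeval z r / aeval z s, div_mem (hP r) (hP s)⟩, ?_⟩
        change aeval z r / aeval z s = (c : F)
        rw [hc]
      have hwL : IsAlgebraic L w := isAlgebraic_mono hmono (halg w)
      exact hwL.restrictScalars k⟮u⟯
    have hun : θ u / u ≠ 0 := div_ne_zero hθu0 hu0
    let d : Derivation k F F := (u / θ u) • θ
    have hd : ∀ x, d x = (u / θ u) * θ x := fun x => rfl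
    obtain ⟨n', hn', a', ha'⟩ := rational_of_power d (u := u) (w := w)
      (by rw [hd]; field_simp) hu0 hw0 hwalg (algebraMap R₀ k ρ) (by
        rw [hd, mul_div_assoc, hθw, ← IsScalarTower.algebraMap_apply]
        field_simp)
    apply hρ a' n' (by exact_mod_cast Nat.one_le_iff_ne_zero.1 hn')
    apply (algebraMap R₀ k).injective
    simpa using ha'
  -- `u` is algebraic over `R₀`
  have huR : IsAlgebraic R₀ u := by
    by_contra hut
    have hzR : IsAlgebraic R₀⟮z⟯ z := by
      have := isAlgebraic_algebraMap (A := F) (⟨z, mem_adjoin_simple_self R₀ z⟩ : R₀⟮z⟯)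
      exact this
    have hu1 : IsAlgebraic R₀⟮z⟯ u := by
      have h1 : IsAlgebraic R₀⟮z⟯ (y ^ n) := hyalg.pow n
      have h2 : IsAlgebraic R₀⟮z⟯ (z ^ (-b)) := by
        rcases Int.eq_nat_or_neg (-b) with ⟨m, hm | hm⟩
        · rw [hm, zpow_natCast]; exact hzR.pow m
        · rw [hm, zpow_neg, zpow_natCast]; exact (hzR.pow m).inv
      exact h1.mul h2
    have hex : IsAlgebraic R₀⟮u⟯ z := exch hu1 hut
    obtain ⟨u', hu'⟩ := hcl u hualg
    apply htr
    refine isAlgebraic_mono (K := R₀⟮u⟯) (K' := k) (fun c => ?_) hex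
    obtain ⟨r, s, hc⟩ := (IntermediateField.mem_adjoin_simple_iff R₀ _).1 c.2
    refine ⟨aeval u' r / aeval u' s, ?_⟩
    change algebraMap k F (aeval u' r / aeval u' s) = (c : F)
    rw [hc, map_div₀, ← aeval_algebraMap_apply, ← aeval_algebraMap_apply, hu']
  have hDu : D u = 0 := der_eq_zero_of_algebraic D huR
  obtain ⟨c, hc⟩ := hconst u hDu
  refine ⟨n, hn, b, c, ?_, ?_⟩
  · rintro rfl
    rw [map_zero] at hc
    exact hu0 hc.symm
  · rw [hc, hu, mul_assoc, ← zpow_add₀ hz0]
    simp

end

end MP52aaf2
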