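import Mathlib

open scoped TensorProduct
open Differential Polynomial

namespace MP52aaf2

/-- derivations extend along formally étale algebras. -/
theorem exists_derivation_extension (R S T : Type*) [CommRing R] [CommRing S] [CommRing T]
    [Algebra R S] [Algebra R T] [Algebra S T] [IsScalarTower R S T]
    [Algebra.FormallyEtale S T] (d : Derivation R S T) :
    ∃ d' : Derivation R T T, ∀ s, d' (algebraMap S T s) = d s := by
  let e := KaehlerDifferential.tensorKaehlerEquivOfFormallyEtale R S T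
  let l : T ⊗[S] Ω[S⁄R] →ₗ[T] T := LinearMap.liftBaseChange T d.liftKaehlerDifferential
  refine ⟨(l ∘ₗ e.symm.toLinearMap).compDer (KaehlerDifferential.D R T), fun s => ?_⟩
  change l (e.symm (KaehlerDifferential.D R T (algebraMap S T s))) = _
  rw [KaehlerDifferential.tensorKaehlerEquivOfFormallyEtale_symm_D_algebraMap]
  simp [l]

/-- **Norms.** -/
theorem norm_step {F₀ K : Type} [Field F₀] [Field K] [CharZero F₀] [Algebra F₀ K]
    [Differential F₀] [Differential K] [DifferentialAlgebra F₀ K] (f y : K)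
    (hf : IsAlgebraic F₀ f) (hy : IsAlgebraic F₀ y) (hf0 : f ≠ 0) (hy0 : y ≠ 0) (κ ρ : F₀)
    (h : logDeriv f = algebraMap F₀ K κ + algebraMap F₀ K ρ * logDeriv y) :
    ∃ n : ℕ, 1 ≤ n ∧ ∃ A B : F₀, A ≠ 0 ∧ B ≠ 0 ∧ logDeriv A = n * κ + ρ * logDeriv B := by
  classical
  let K₁ : IntermediateField F₀ K := IntermediateField.adjoin F₀ {f, y}
  have hfin : FiniteDimensional F₀ K₁ := by
    apply IntermediateField.finiteDimensional_adjoin
    rintro a (rfl | rfl)
    · exact hf.isIntegral
    · exact hy.isIntegral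
  let f₁ : K₁ := ⟨f, IntermediateField.subset_adjoin F₀ _ (by simp)⟩
  let y₁ : K₁ := ⟨y, IntermediateField.subset_adjoin F₀ _ (by simp)⟩
  have hf₁ : f₁ ≠ 0 := fun h => hf0 (congrArg Subtype.val h)
  have hy₁ : y₁ ≠ 0 := fun h => hy0 (congrArg Subtype.val h)
  have h1 : logDeriv f₁ = algebraMap F₀ K₁ κ + algebraMap F₀ K₁ ρ * logDeriv y₁ := by
    apply FaithfulSMul.algebraMap_injective K₁ K
    rw [map_add, map_mul, ← logDeriv_algebraMap, ← logDeriv_algebraMap]
    exact h
  let L := AlgebraicClosure F₀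
  have : Algebra.FormallyEtale F₀ L := Algebra.FormallyEtale.of_isSeparable F₀ L
  obtain ⟨d', hd'⟩ := exists_derivation_extension ℤ F₀ L
    ((Algebra.linearMap F₀ L).compDer (Differential.deriv (R := F₀)))
  let : Differential L := ⟨d'⟩
  have : DifferentialAlgebra F₀ L := ⟨fun a => hd' a⟩
  have : Algebra.IsSeparable F₀ K₁ := inferInstance
  have key : ∀ g : K₁, g ≠ 0 → algebraMap F₀ L (logDeriv (Algebra.norm F₀ g)) =
      ∑ σ : K₁ →ₐ[F₀] L, σ (logDeriv g) := by
    intro g hg
    rw [← logDeriv_algebraMap, Algebra.norm_eq_prod_embeddings F₀ L g, Differential.logDeriv_prod]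
    · refine Finset.sum_congr rfl fun σ _ => ?_
      rw [Differential.logDeriv, Differential.logDeriv, map_div₀, algHom_deriv' σ σ.injective]
    · intro σ _
      exact (map_ne_zero_iff σ σ.injective).2 hg
  refine ⟨Fintype.card (K₁ →ₐ[F₀] L), ?_, Algebra.norm F₀ f₁, Algebra.norm F₀ y₁,
    Algebra.norm_ne_zero_iff.2 hf₁, Algebra.norm_ne_zero_iff.2 hy₁, ?_⟩
  · have : Nonempty (K₁ →ₐ[F₀] L) := ⟨IsAlgClosed.lift⟩
    exact Fintype.card_pos
  · apply FaithfulSMul.algebraMap_injective F₀ L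
    rw [key f₁ hf₁, map_add, map_mul, map_mul, key y₁ hy₁, h1, map_natCast, Finset.mul_sum]
    simp only [map_add, map_mul, AlgHom.commutes]
    rw [Finset.sum_add_distrib, Finset.sum_const, Finset.card_univ, nsmul_eq_mul]

end MP52aaf2
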