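import Mathlib

open Filter Topology

namespace MP52aaf2

/-- ring of germs at `x₀` (in the punctured sense) of real meromorphic functions -/
def merSub (x₀ : ℝ) : Subring (Filter.Germ (𝓝[≠] x₀) ℝ) where
  carrier := {g | ∃ f : ℝ → ℝ, MeromorphicAt f x₀ ∧ (f : Filter.Germ (𝓝[≠] x₀) ℝ) = g}
  mul_mem' := by
    rintro _ _ ⟨f, hf, rfl⟩ ⟨g, hg, rfl⟩
    exact ⟨f * g, hf.mul hg, rfl⟩
  one_mem' := ⟨fun _ => 1, MeromorphicAt.const 1 x₀, rfl⟩
  add_mem' := by
    rintro _ _ ⟨f, hf, rfl⟩ ⟨g, hg, rfl⟩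
    exact ⟨f + g, hf.add hg, rfl⟩
  zero_mem' := ⟨fun _ => 0, MeromorphicAt.const 0 x₀, rfl⟩
  neg_mem' := by
    rintro _ ⟨f, hf, rfl⟩
    exact ⟨-f, hf.neg, rfl⟩

theorem germ_eq {x₀ : ℝ} {f g : ℝ → ℝ} : (f : Filter.Germ (𝓝[≠] x₀) ℝ) = g ↔ f =ᶠ[𝓝[≠] x₀] g :=
  Filter.Germ.coe_eq

theorem merSub_isField (x₀ : ℝ) : IsField (merSub x₀) where
  exists_pair_ne := by
    refine ⟨0, 1, fun h => ?_⟩
    have h1 : (0 : Filter.Germ (𝓝[≠] x₀) ℝ) = 1 := congrArg Subtype.val h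
    exact zero_ne_one h1
  mul_comm := mul_comm
  mul_inv_cancel := by
    rintro ⟨_, f, hf, rfl⟩ hne
    have hf' : ∀ᶠ z in 𝓝[≠] x₀, f z ≠ 0 := by
      rcases hf.eventually_eq_zero_or_eventually_ne_zero with h | h
      · exfalso
        apply hne
        apply Subtype.ext
        exact germ_eq.2 h
      · exact h
    refine ⟨⟨((f⁻¹ : ℝ → ℝ) : Filter.Germ (𝓝[≠] x₀) ℝ), f⁻¹, hf.inv, rfl⟩, ?_⟩
    apply Subtype.ext
    change ((f * f⁻¹ : ℝ → ℝ) : Filter.Germ (𝓝[≠] x₀) ℝ) = ((fun _ => 1 : ℝ → ℝ) : Filter.Germ _ ℝ)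
    rw [germ_eq]
    filter_upwards [hf'] with z hz
    exact mul_inv_cancel₀ hz

/-- the field of germs at `x₀` of real meromorphic functions -/
def Mer (x₀ : ℝ) : Type := merSub x₀

noncomputable instance (x₀ : ℝ) : CommRing (Mer x₀) := inferInstanceAs (CommRing (merSub x₀))

theorem mer_isField (x₀ : ℝ) : IsField (Mer x₀) := merSub_isField x₀

theorem exists_inv {x₀ : ℝ} (a : Mer x₀) : ∃ b : Mer x₀, (a ≠ 0 → a * b = 1) ∧ (a = 0 → b = 0) := by
  by_cases h : a = 0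
  · exact ⟨0, fun h' => absurd h h', fun _ => rfl⟩
  · obtain ⟨b, hb⟩ := (mer_isField x₀).mul_inv_cancel h
    exact ⟨b, fun _ => hb, fun h' => absurd h' h⟩

/-- inverse in `Mer x₀` -/
noncomputable def merInv {x₀ : ℝ} (a : Mer x₀) : Mer x₀ := (exists_inv a).choose

noncomputable instance (x₀ : ℝ) : Field (Mer x₀) where
  inv := merInv
  exists_pair_ne := (mer_isField x₀).exists_pair_ne
  mul_inv_cancel := fun a ha => (exists_inv a).choose_spec.1 ha
  inv_zero := (exists_inv (0 : Mer x₀)).choose_spec.2 rfl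
  nnqsmul := _
  nnqsmul_def := fun _ _ => rfl
  qsmul := _
  qsmul_def := fun _ _ => rfl

/-- the germ of a meromorphic function -/
def mk {x₀ : ℝ} (f : ℝ → ℝ) (hf : MeromorphicAt f x₀) : Mer x₀ := ⟨f, f, hf, rfl⟩

theorem mk_eq {x₀ : ℝ} {f g : ℝ → ℝ} {hf : MeromorphicAt f x₀} {hg : MeromorphicAt g x₀} :
    mk f hf = mk g hg ↔ f =ᶠ[𝓝[≠] x₀] g := by
  constructor
  · intro h
    exact germ_eq.1 (congrArg Subtype.val h)
  · intro h
    exact Subtype.ext (germ_eq.2 h)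

theorem exists_mk {x₀ : ℝ} (a : Mer x₀) : ∃ f, ∃ hf : MeromorphicAt f x₀, a = mk f hf := by
  obtain ⟨_, f, hf, rfl⟩ := a
  exact ⟨f, hf, rfl⟩

theorem mk_add {x₀ : ℝ} {f g : ℝ → ℝ} (hf : MeromorphicAt f x₀) (hg : MeromorphicAt g x₀) :
    mk f hf + mk g hg = mk (f + g) (hf.add hg) := rfl

theorem mk_mul {x₀ : ℝ} {f g : ℝ → ℝ} (hf : MeromorphicAt f x₀) (hg : MeromorphicAt g x₀) :
    mk f hf * mk g hg = mk (f * g) (hf.mul hg) := rfl

theorem mk_zero {x₀ : ℝ} : (0 : Mer x₀) = mk (fun _ => 0) (MeromorphicAt.const 0 x₀) := rfl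

theorem mk_one {x₀ : ℝ} : (1 : Mer x₀) = mk (fun _ => 1) (MeromorphicAt.const 1 x₀) := rfl

noncomputable def constHom (x₀ : ℝ) : ℝ →+* Mer x₀ where
  toFun c := mk (fun _ => c) (MeromorphicAt.const c x₀)
  map_one' := rfl
  map_mul' _ _ := rfl
  map_zero' := rfl
  map_add' _ _ := rfl

noncomputable instance (x₀ : ℝ) : Algebra ℝ (Mer x₀) := (constHom x₀).toAlgebra

theorem algebraMap_eq {x₀ : ℝ} (c : ℝ) :
    algebraMap ℝ (Mer x₀) c = mk (fun _ => c) (MeromorphicAt.const c x₀) := rfl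

theorem smul_mk {x₀ : ℝ} (c : ℝ) {f : ℝ → ℝ} (hf : MeromorphicAt f x₀) :
    c • mk f hf = mk (fun x => c * f x) ((MeromorphicAt.const c x₀).mul hf) := rfl

/-- the derivation on representatives -/
noncomputable def derFun (x₀ : ℝ) (a : Mer x₀) : Mer x₀ :=
  mk (deriv (exists_mk a).choose) (exists_mk a).choose_spec.choose.deriv

theorem derFun_mk {x₀ : ℝ} {f : ℝ → ℝ} (hf : MeromorphicAt f x₀) :
    derFun x₀ (mk f hf) = mk (deriv f) hf.deriv := by
  unfold derFun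
  rw [mk_eq]
  apply Filter.EventuallyEq.nhdsNE_deriv
  exact (mk_eq.1 (exists_mk (mk f hf)).choose_spec.choose_spec).symm

theorem ev_diff {x₀ : ℝ} {f : ℝ → ℝ} (hf : MeromorphicAt f x₀) :
    ∀ᶠ x in 𝓝[≠] x₀, DifferentiableAt ℝ f x := by
  filter_upwards [hf.eventually_analyticAt] with x hx
  exact hx.differentiableAt

/-- the derivation `d/dx` on the field of meromorphic germs -/
noncomputable def der (x₀ : ℝ) : Derivation ℝ (Mer x₀) (Mer x₀) :=
  Derivation.mk'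
    { toFun := derFun x₀
      map_add' := by
        intro a b
        obtain ⟨f, hf, rfl⟩ := exists_mk a
        obtain ⟨g, hg, rfl⟩ := exists_mk b
        rw [mk_add, derFun_mk, derFun_mk, derFun_mk, mk_add, mk_eq]
        filter_upwards [ev_diff hf, ev_diff hg] with x hfx hgx
        exact deriv_add hfx hgx
      map_smul' := by
        intro c a
        obtain ⟨f, hf, rfl⟩ := exists_mk a
        rw [smul_mk, derFun_mk, derFun_mk, RingHom.id_apply, smul_mk, mk_eq]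
        filter_upwards [ev_diff hf] with x hfx
        exact deriv_const_mul c hfx }
    (by
      intro a b
      obtain ⟨f, hf, rfl⟩ := exists_mk a
      obtain ⟨g, hg, rfl⟩ := exists_mk b
      change derFun x₀ (mk f hf * mk g hg) =
        mk f hf * derFun x₀ (mk g hg) + mk g hg * derFun x₀ (mk f hf)
      rw [mk_mul, derFun_mk, derFun_mk, derFun_mk, mk_mul, mk_mul, mk_add, mk_eq]
      filter_upwards [ev_diff hf, ev_diff hg] with x hfx hgx
      rw [deriv_mul hfx hgx]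
      simp only [Pi.add_apply, Pi.mul_apply]
      ring)

theorem der_mk {x₀ : ℝ} {f : ℝ → ℝ} (hf : MeromorphicAt f x₀) :
    der x₀ (mk f hf) = mk (deriv f) hf.deriv := derFun_mk hf

theorem mk_ne_zero {x₀ : ℝ} {f : ℝ → ℝ} (hf : MeromorphicAt f x₀)
    (h : ∃ᶠ x in 𝓝[≠] x₀, f x ≠ 0) : mk f hf ≠ 0 := by
  intro h0
  rw [mk_zero, mk_eq] at h0
  exact h (h0.mono fun x hx h => h hx)

theorem der_const {x₀ : ℝ} (a : Mer x₀) (ha : der x₀ a = 0) :
    ∃ c : ℝ, algebraMap ℝ (Mer x₀) c = a := by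
  obtain ⟨f, hf, rfl⟩ := exists_mk a
  rw [der_mk, mk_zero, mk_eq] at ha
  -- constant on the right side of `x₀`
  obtain ⟨ε, hε, hball⟩ : ∃ ε > 0, ∀ x, x₀ < x → x < x₀ + ε →
      DifferentiableAt ℝ f x ∧ deriv f x = 0 := by
    have h1 := (ev_diff hf).and ha
    rw [eventually_nhdsWithin_iff, Metric.eventually_nhds_iff] at h1
    obtain ⟨ε, hε, h1⟩ := h1
    refine ⟨ε, hε, fun x hx hx' => h1 (y := x) ?_ (ne_of_gt hx)⟩
    rw [Real.dist_eq, abs_lt]
    constructor <;> linarith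
  refine ⟨f (x₀ + ε / 2), ?_⟩
  rw [algebraMap_eq, mk_eq]
  have hconst : ∀ x, x₀ < x → x < x₀ + ε → f x = f (x₀ + ε / 2) := by
    intro x hx hx'
    have hs : IsOpen (Set.Ioo x₀ (x₀ + ε)) := isOpen_Ioo
    refine hs.is_const_of_deriv_eq_zero isPreconnected_Ioo (f := f) ?_ ?_ ⟨hx, hx'⟩
      ⟨by linarith, by linarith⟩
    · intro y hy
      exact (hball y hy.1 hy.2).1.differentiableWithinAt
    · intro y hy
      exact (hball y hy.1 hy.2).2
  have hm : MeromorphicAt (fun x => f x - f (x₀ + ε / 2)) x₀ :=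
    hf.sub (MeromorphicAt.const _ x₀)
  rcases hm.eventually_eq_zero_or_eventually_ne_zero with h | h
  · filter_upwards [h] with x hx
    linarith
  · exfalso
    rw [eventually_nhdsWithin_iff, Metric.eventually_nhds_iff] at h
    obtain ⟨δ, hδ, h⟩ := h
    have hmin : 0 < min ε δ := lt_min hε hδ
    refine h (y := x₀ + min ε δ / 2) ?_ ?_ ?_
    · rw [Real.dist_eq, abs_lt]
      have := min_le_right ε δ
      constructor <;> linarith
    · simp only [Set.mem_compl_iff, Set.mem_singleton_iff]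
      intro h0
      linarith
    · have := min_le_left ε δ
      have h2 := hconst (x₀ + min ε δ / 2) (by linarith) (by linarith)
      simp only [h2, sub_self]

end MP52aaf2
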