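import Pool.Agent.Lib.MP_52aaf2_al.Core

open Polynomial IntermediateField

namespace MP52aaf2

section

variable {k F : Type} [Field k] [Field F] [Algebra k F]

theorem mem_algClosure_aeval {K : Type} [Field K] [Algebra K F] {z : F}
    {L : IntermediateField K F} (hz : z ∈ L) [Algebra k K] [IsScalarTower k K F] (P : k[X]) :
    aeval z P ∈ L := by
  have h1 := aeval_algHom_apply L.val (⟨z, hz⟩ : L) (P.map (algebraMap k K))
  change aeval z (P.map (algebraMap k K)) = _ at h1
  rw [aeval_map_algebraMap] at h1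
  rw [h1]
  exact SetLike.coe_mem _

/-- transitivity for simple extensions -/
theorem alg_trans {x y f : F} (hf : IsAlgebraic k⟮x⟯ f) (hx : IsAlgebraic k⟮y⟯ x) :
    IsAlgebraic k⟮y⟯ f := by
  let L : IntermediateField k⟮y⟯ F := algebraicClosure k⟮y⟯ F
  have hzL : x ∈ L := mem_algebraicClosure_iff.2 hx
  have hmono : ∀ c : k⟮x⟯, ∃ e : L, algebraMap L F e = algebraMap k⟮x⟯ F c := by
    intro c
    obtain ⟨r, s, hc⟩ := (IntermediateField.mem_adjoin_simple_iff k _).1 c.2
    refine ⟨⟨aeval x r / aeval x s, div_mem (mem_algClosure_aeval hzL r)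
      (mem_algClosure_aeval hzL s)⟩, ?_⟩
    change aeval x r / aeval x s = (c : F)
    rw [hc]
  have hwL : IsAlgebraic L f := isAlgebraic_mono hmono hf
  exact hwL.restrictScalars k⟮y⟯

/-- the algebraic closure of a stable subfield is stable -/
theorem der_alg_stable {R : Type} [Field R] [Algebra R F] (D : Derivation R F F)
    {K : Type} [Field K] [Algebra K F] [CharZero K]
    (h : ∀ a : K, ∃ b : K, D (algebraMap K F a) = algebraMap K F b) {x : F}
    (hx : IsAlgebraic K x) : IsAlgebraic K (D x) := by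
  choose g hg using h
  have hinj := (algebraMap K F).injective
  let d : Derivation ℤ K K := Derivation.mk'
    { toFun := g
      map_add' := fun a b => hinj (by rw [map_add, ← hg, ← hg, ← hg, map_add, map_add])
      map_smul' := fun n a => hinj (by
        simp only [zsmul_eq_mul, eq_intCast, Int.cast_id, map_mul, map_intCast]
        rw [← hg, ← hg, map_mul, map_intCast, Derivation.leibniz]
        simp) }
    (fun a b => hinj (by
      change algebraMap K F (g (a * b)) = algebraMap K F (a * g b + b * g a)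
      rw [← hg, map_mul, Derivation.leibniz, map_add, map_mul, map_mul, ← hg, ← hg]
      simp))
  let : Differential K := ⟨d⟩
  let : Differential F := ⟨D.restrictScalars ℤ⟩
  have : DifferentialAlgebra K F := ⟨fun a => hg a⟩
  have h1 := Differential.deriv_aeval_eq (A := K) x (minpoly K x)
  rw [minpoly.aeval, map_zero] at h1
  have hs : (minpoly K x).Separable := (minpoly.irreducible hx.isIntegral).separable
  have h2 := hs.aeval_derivative_ne_zero (minpoly.aeval K x)
  have h3 : D x = - (aeval x (Differential.mapCoeffs (minpoly K x)) /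
      aeval x (derivative (minpoly K x))) := by
    change 0 = _ + _ * D x at h1
    field_simp
    linear_combination -h1
  rw [h3]
  have hP : ∀ P : K[X], IsAlgebraic K (aeval x P) := by
    intro P
    have : aeval x P ∈ algebraicClosure K F :=
      mem_algClosure_aeval (K := K) (mem_algebraicClosure_iff.2 hx) P
    exact mem_algebraicClosure_iff.1 this
  rw [div_eq_mul_inv]
  exact ((hP _).mul (hP _).inv).neg

end

section Tower

variable {F : Type} [Field F] [Algebra ℝ F]

/-- The data carried along a tower. -/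
structure Good (D : Derivation ℝ F F) (k : IntermediateField ℝ F) (y : F) : Prop where
  stab : ∀ a ∈ k, D a ∈ k
  closed : ∀ a : F, IsAlgebraic k a → a ∈ k
  mem : y ∈ k
  ne : y ≠ 0
  dne : D y ≠ 0
  pow : ∀ (ρ : ℝ) (f : F), f ∈ k → f ≠ 0 → D f / f = algebraMap ℝ F ρ * (D y / y) →
    ∃ q : ℚ, (q : ℝ) = ρ

/-- relative algebraic closure of `k(z)`, as an intermediate field over `ℝ`. -/
noncomputable def clo (k : IntermediateField ℝ F) (z : F) : IntermediateField ℝ F where
  carrier := {a | IsAlgebraic k⟮z⟯ a}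
  mul_mem' := fun ha hb => ha.mul hb
  add_mem' := fun ha hb => ha.add hb
  algebraMap_mem' := fun r => isAlgebraic_algebraMap (A := F)
    (algebraMap k k⟮z⟯ (algebraMap ℝ k r))
  inv_mem' := fun _ ha => ha.inv

noncomputable def clo0 (z : F) : IntermediateField ℝ F where
  carrier := {a | IsAlgebraic ℝ⟮z⟯ a}
  mul_mem' := fun ha hb => ha.mul hb
  add_mem' := fun ha hb => ha.add hb
  algebraMap_mem' := fun r => isAlgebraic_algebraMap (A := F) (algebraMap ℝ ℝ⟮z⟯ r)
  inv_mem' := fun _ ha => ha.inv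

theorem mem_clo {k : IntermediateField ℝ F} {z a : F} : a ∈ clo k z ↔ IsAlgebraic k⟮z⟯ a :=
  Iff.rfl

theorem mem_clo0 {z a : F} : a ∈ clo0 z ↔ IsAlgebraic ℝ⟮z⟯ a := Iff.rfl

theorem clo_closed {k : IntermediateField ℝ F} {z a : F} (h : IsAlgebraic (clo k z) a) :
    a ∈ clo k z := by
  have h' : IsAlgebraic (algebraicClosure k⟮z⟯ F) a :=
    isAlgebraic_mono (K := clo k z) (fun c => ⟨⟨c, mem_algebraicClosure_iff.2 c.2⟩, rfl⟩) h
  exact h'.restrictScalars k⟮z⟯

theorem clo0_closed {z a : F} (h : IsAlgebraic (clo0 z) a) : a ∈ clo0 z := by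
  have h' : IsAlgebraic (algebraicClosure ℝ⟮z⟯ F) a :=
    isAlgebraic_mono (K := clo0 z) (fun c => ⟨⟨c, mem_algebraicClosure_iff.2 c.2⟩, rfl⟩) h
  exact h'.restrictScalars ℝ⟮z⟯

theorem le_clo {k : IntermediateField ℝ F} {z : F} : k ≤ clo k z := fun a ha =>
  isAlgebraic_algebraMap (A := F) (algebraMap k k⟮z⟯ ⟨a, ha⟩)

theorem self_mem_clo {k : IntermediateField ℝ F} {z : F} : z ∈ clo k z :=
  isAlgebraic_algebraMap (A := F) (⟨z, mem_adjoin_simple_self k z⟩ : k⟮z⟯)

theorem self_mem_clo0 {z : F} : z ∈ clo0 z :=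
  isAlgebraic_algebraMap (A := F) (⟨z, mem_adjoin_simple_self ℝ z⟩ : ℝ⟮z⟯)

theorem adjoin_stab {k : Type} [Field k] [Algebra k F] {R : Type} [Field R] [Algebra R F]
    [CharZero k] (D : Derivation R F F) (hk : ∀ a : k, D (algebraMap k F a) ∈
      Set.range (algebraMap k F)) {z : F} (hz : D z ∈ k⟮z⟯) (a : F) (ha : a ∈ k⟮z⟯) :
    D a ∈ k⟮z⟯ := by
  have hzm : z ∈ k⟮z⟯ := IntermediateField.mem_adjoin_simple_self k z
  have hP : ∀ P : k[X], D (aeval z P) ∈ k⟮z⟯ := by
    intro P
    induction P using Polynomial.induction_on' with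
    | add p q hp hq => rw [map_add, map_add]; exact add_mem hp hq
    | monomial n c =>
      rw [aeval_monomial, Derivation.leibniz, Derivation.leibniz_pow]
      obtain ⟨b, hb⟩ := hk c
      rw [← hb]
      simp only [smul_eq_mul, nsmul_eq_mul]
      refine add_mem (mul_mem (_root_.algebraMap_mem _ c) (mul_mem (_root_.natCast_mem _ n)
        (mul_mem (pow_mem hzm _) hz))) (mul_mem (pow_mem hzm _) (_root_.algebraMap_mem _ b))
  have hQ : ∀ P : k[X], aeval z P ∈ k⟮z⟯ := fun P =>
    (IntermediateField.mem_adjoin_simple_iff k _).2 ⟨P, 1, by simp⟩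
  obtain ⟨r, s, rfl⟩ := (IntermediateField.mem_adjoin_simple_iff k a).1 ha
  rw [Derivation.leibniz_div]
  simp only [smul_eq_mul]
  exact mul_mem (pow_mem (inv_mem (hQ s)) 2) (sub_mem (mul_mem (hQ s) (hP r))
    (mul_mem (hQ r) (hP s)))

theorem charZero_F : CharZero F := charZero_of_injective_algebraMap (algebraMap ℝ F).injective

theorem charZero_k {k : Type} [Field k] [Algebra ℝ k] : CharZero k :=
  charZero_of_injective_algebraMap (algebraMap ℝ k).injective

theorem good_base (D : Derivation ℝ F F) {x y : F} (hx : D x = 1) (hy : y ∈ clo0 x) (hy0 : y ≠ 0)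
    (hDy : D y ≠ 0) : Good D (clo0 x) y where
  stab := by
    intro a ha
    have : CharZero ℝ⟮x⟯ := charZero_k
    refine der_alg_stable (K := ℝ⟮x⟯) D (fun c => ?_) ha
    have h1 := adjoin_stab (k := ℝ) D (fun a => ⟨0, by simp⟩)
      (z := x) (by rw [hx]; exact one_mem _) c c.2
    exact ⟨⟨_, h1⟩, rfl⟩
  closed := fun a ha => clo0_closed ha
  mem := hy
  ne := hy0
  dne := hDy
  pow := by
    intro ρ f hf hf0 h
    have htr : Transcendental ℝ y := transcendental_of_der D hDy
    have hxy : IsAlgebraic ℝ⟮y⟯ x := exch hy htr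
    have hfy : IsAlgebraic ℝ⟮y⟯ f := alg_trans hf hxy
    let d : Derivation ℝ F F := (y / D y) • D
    have hd : ∀ x, d x = (y / D y) * D x := fun x => rfl
    obtain ⟨n, hn, a, ha⟩ := rational_of_power d (u := y) (w := f)
      (by rw [hd]; field_simp) hy0 hf0 hfy ρ (by
        rw [hd, mul_div_assoc, h]
        field_simp)
    have hn0 : (n : ℝ) ≠ 0 := by
      exact_mod_cast Nat.one_le_iff_ne_zero.1 hn
    refine ⟨(a : ℚ) / n, ?_⟩
    push_cast
    rw [← ha]
    field_simp

theorem good_trans {D : Derivation ℝ F F} {k : IntermediateField ℝ F} {y z : F} {ρ : ℝ}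
    (hG : Good D k y) (hρ : Irrational ρ) (hz : z ≠ 0)
    (h : D z / z = algebraMap ℝ F ρ * (D y / y)) : Transcendental k z := by
  intro halg
  obtain ⟨q, hq⟩ := hG.pow ρ z (hG.closed z halg) hz h
  exact hρ ⟨q, hq⟩

theorem good_step {D : Derivation ℝ F F} (hconst : ∀ a : F, D a = 0 → ∃ c : ℝ, algebraMap ℝ F c = a)
    {k : IntermediateField ℝ F} {y z : F} {ρ : ℝ}
    (hG : Good D k y) (hρ : Irrational ρ) (hz : z ≠ 0)
    (h : D z / z = algebraMap ℝ F ρ * (D y / y)) {y' : F} (hy' : IsAlgebraic ℝ⟮z⟯ y')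
    (hy0 : y' ≠ 0) (hDy' : D y' ≠ 0)
    (hmon : ∀ N : ℕ, 1 ≤ N → ∀ M : ℤ, ∀ c : ℝ, c ≠ 0 → y' ^ N ≠ algebraMap ℝ F c * z ^ M) :
    Good D (clo k z) y' := by
  have htr := good_trans hG hρ hz h
  have : CharZero k := charZero_k
  have : CharZero k⟮z⟯ := charZero_of_injective_algebraMap (algebraMap k k⟮z⟯).injective
  have hDz : D z = (algebraMap ℝ F ρ * (D y / y)) * z := by
    rw [← h]; field_simp
  have hη : algebraMap ℝ F ρ * (D y / y) ∈ k :=
    mul_mem (_root_.algebraMap_mem _ _) (div_mem (hG.stab _ hG.mem) hG.mem)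
  have hstab1 : ∀ a ∈ k⟮z⟯, D a ∈ k⟮z⟯ := by
    intro a ha
    refine adjoin_stab (k := k) D (fun c => ⟨⟨D c, hG.stab _ c.2⟩, rfl⟩) (z := z) ?_ a ha
    rw [hDz]
    exact mul_mem (_root_.algebraMap_mem k⟮z⟯ (⟨_, hη⟩ : k)) (IntermediateField.mem_adjoin_simple_self k z)
  have hstab2 : ∀ a ∈ clo k z, D a ∈ clo k z := by
    intro a ha
    refine der_alg_stable (K := k⟮z⟯) D (fun c => ?_) ha
    exact ⟨⟨_, hstab1 c c.2⟩, rfl⟩
  have hmono : ∀ c : ℝ⟮z⟯, ∃ e : k⟮z⟯, algebraMap k⟮z⟯ F e = algebraMap ℝ⟮z⟯ F c := by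
    intro c
    obtain ⟨r, s, hc⟩ := (IntermediateField.mem_adjoin_simple_iff ℝ _).1 c.2
    have hzm : z ∈ k⟮z⟯ := IntermediateField.mem_adjoin_simple_self k z
    refine ⟨⟨aeval z r / aeval z s, div_mem (mem_algClosure_aeval hzm r)
      (mem_algClosure_aeval hzm s)⟩, ?_⟩
    change aeval z r / aeval z s = (c : F)
    rw [hc]
  have hyclo : y' ∈ clo k z := isAlgebraic_mono hmono hy'
  refine ⟨hstab2, fun a ha => clo_closed ha, hyclo, hy0, hDy', ?_⟩
  intro γ f hf hf0 hγ
  by_contra hirr
  let E : IntermediateField ℝ F := clo k z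
  have hkE : k ≤ E := le_clo
  let zE : E := ⟨z, self_mem_clo⟩
  let yE : E := ⟨y', hyclo⟩
  let fE : E := ⟨f, hf⟩
  let : Algebra k E := (IntermediateField.inclusion hkE).toAlgebra
  have : IsScalarTower ℝ k E := IsScalarTower.of_algebraMap_eq fun r => rfl
  have : IsScalarTower k E F := IsScalarTower.of_algebraMap_eq fun r => rfl
  let DE : Derivation ℝ E E := Derivation.mk'
    { toFun := fun a => ⟨D a, hstab2 a a.2⟩
      map_add' := fun a b => by
        apply Subtype.ext
        change D ((a : F) + b) = D a + D b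
        rw [map_add]
      map_smul' := fun n a => by
        apply Subtype.ext
        change D ((n • a : E) : F) = n • D (a : F)
        exact D.map_smul n (a : F) }
    (fun a b => by
      apply Subtype.ext
      change D ((a : F) * b) = (a : F) * D b + (b : F) * D a
      rw [Derivation.leibniz]
      rfl)
  have hDE : ∀ a : E, ((DE a : E) : F) = D a := fun a => rfl
  have htrE : Transcendental k zE := by
    intro halg
    apply htr
    exact (isAlgebraic_algebraMap_iff (A := F) (algebraMap E F).injective).2 halg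
  have e1 : ∀ P : k[X], ((aeval zE P : E) : F) = aeval z P := by
    intro P
    exact (aeval_algebraMap_apply F zE P).symm
  have e2 : ∀ P : ℝ[X], ((aeval zE P : E) : F) = aeval z P := by
    intro P
    exact (aeval_algebraMap_apply F zE P).symm
  have halgE : ∀ a : E, IsAlgebraic k⟮zE⟯ a := by
    intro a
    have h1 : IsAlgebraic k⟮zE⟯ (algebraMap E F a) := by
      refine isAlgebraic_mono (K := k⟮z⟯) (fun c => ?_) a.2
      obtain ⟨r, s, hc⟩ := (IntermediateField.mem_adjoin_simple_iff k _).1 c.2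
      have hzm : zE ∈ k⟮zE⟯ := IntermediateField.mem_adjoin_simple_self k zE
      refine ⟨⟨aeval zE r / aeval zE s, div_mem (mem_algClosure_aeval hzm r)
        (mem_algClosure_aeval hzm s)⟩, ?_⟩
      change ((aeval zE r / aeval zE s : E) : F) = (c : F)
      rw [hc, IntermediateField.coe_div, e1, e1]
    exact (isAlgebraic_algebraMap_iff (A := F) (algebraMap E F).injective).1 h1
  obtain ⟨N, hN, M, c, hc, hfin⟩ := core (R₀ := ℝ) (k := k) (F := E) (z := zE) htrE halgE
    (by
      intro a ha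
      have h1 : IsAlgebraic k (algebraMap E F a) :=
        (isAlgebraic_algebraMap_iff (A := F) (algebraMap E F).injective).2 ha
      exact ⟨⟨a, hG.closed _ h1⟩, rfl⟩)
    DE (fun a => ⟨⟨D a, hG.stab _ a.2⟩, rfl⟩)
    ⟨⟨_, hη⟩, by
      apply Subtype.ext
      rw [hDE]
      exact hDz⟩
    (by
      intro a ha
      have h1 : D (a : F) = 0 := by
        rw [← hDE, ha]; rfl
      obtain ⟨c, hc⟩ := hconst _ h1
      exact ⟨c, Subtype.ext hc⟩)
    (ρ := γ) (by
      intro m n hn hmn
      apply hirr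
      refine ⟨(m : ℚ) / n, ?_⟩
      have : (n : ℝ) ≠ 0 := by exact_mod_cast hn
      push_cast
      rw [← hmn]
      field_simp)
    (y := yE) (f := fE) (fun h => hy0 (congrArg Subtype.val h))
    (fun h => hf0 (congrArg Subtype.val h))
    (by
      have h1 : IsAlgebraic ℝ⟮zE⟯ (algebraMap E F yE) := by
        refine isAlgebraic_mono (K := ℝ⟮z⟯) (fun c => ?_) hy'
        obtain ⟨r, s, hc⟩ := (IntermediateField.mem_adjoin_simple_iff ℝ _).1 c.2
        have hzm : zE ∈ ℝ⟮zE⟯ := IntermediateField.mem_adjoin_simple_self ℝ zE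
        refine ⟨⟨aeval zE r / aeval zE s, div_mem (mem_algClosure_aeval hzm r)
          (mem_algClosure_aeval hzm s)⟩, ?_⟩
        change ((aeval zE r / aeval zE s : E) : F) = (c : F)
        rw [hc, IntermediateField.coe_div, e2, e2]
      exact (isAlgebraic_algebraMap_iff (A := F) (algebraMap E F).injective).1 h1)
    (by
      apply Subtype.ext
      exact hγ)
  refine hmon N hN M c hc ?_
  have hfin' := congrArg (algebraMap E F) hfin
  rw [map_pow, map_mul, map_zpow₀] at hfin'
  exact hfin'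

end Tower

end MP52aaf2
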