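import Pool.Agent.Lib.MP_52aaf2_al.Defs
import Pool.Agent.Lib.MP_52aaf2_al.Mer
import Pool.Agent.Lib.MP_52aaf2_al.Tower

open Filter Topology Polynomial IntermediateField

namespace MP52aaf2

theorem evalEval_monomial (n : ℕ) (p : ℝ[X]) (a b : ℝ) :
    (monomial n p).evalEval a b = p.eval a * b ^ n := by
  simp [evalEval, eval_monomial]

theorem analyticAt_eval {z : ℝ → ℝ} {x₀ : ℝ} (hz : AnalyticAt ℝ z x₀) (p : ℝ[X]) :
    AnalyticAt ℝ (fun x => p.eval (z x)) x₀ := by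
  induction p using Polynomial.induction_on' with
  | add p q hp hq =>
    simp only [eval_add]
    exact hp.add hq
  | monomial n c =>
    simp only [eval_monomial]
    exact analyticAt_const.mul (hz.pow n)

theorem analyticAt_evalEval {z y : ℝ → ℝ} {x₀ : ℝ} (hz : AnalyticAt ℝ z x₀)
    (hy : AnalyticAt ℝ y x₀) (Q : ℝ[X][X]) :
    AnalyticAt ℝ (fun x => Q.evalEval (z x) (y x)) x₀ := by
  induction Q using Polynomial.induction_on' with
  | add p q hp hq =>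
    simp only [evalEval_add]
    exact hp.add hq
  | monomial n c =>
    simp only [evalEval_monomial]
    exact (analyticAt_eval hz c).mul (hy.pow n)

/-- germ of an analytic function -/
noncomputable def mka {x₀ : ℝ} (f : ℝ → ℝ) (hf : AnalyticAt ℝ f x₀) : Mer x₀ :=
  mk f hf.meromorphicAt

theorem mka_add {x₀ : ℝ} {f g : ℝ → ℝ} (hf : AnalyticAt ℝ f x₀) (hg : AnalyticAt ℝ g x₀) :
    mka f hf + mka g hg = mka (fun x => f x + g x) (hf.add hg) := rfl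

theorem mka_mul {x₀ : ℝ} {f g : ℝ → ℝ} (hf : AnalyticAt ℝ f x₀) (hg : AnalyticAt ℝ g x₀) :
    mka f hf * mka g hg = mka (fun x => f x * g x) (hf.mul hg) := rfl

theorem mka_pow {x₀ : ℝ} {f : ℝ → ℝ} (hf : AnalyticAt ℝ f x₀) (n : ℕ) :
    mka f hf ^ n = mka (fun x => f x ^ n) (hf.pow n) := by
  induction n with
  | zero =>
    rw [pow_zero, mk_one, mka, mk_eq]
    simp only [pow_zero]
    rfl
  | succ n ih =>
    rw [pow_succ, ih, mka_mul]
    simp only [pow_succ]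

theorem mka_const {x₀ : ℝ} (c : ℝ) :
    algebraMap ℝ (Mer x₀) c = mka (fun _ => c) analyticAt_const := rfl

theorem mka_eq {x₀ : ℝ} {f g : ℝ → ℝ} {hf : AnalyticAt ℝ f x₀} {hg : AnalyticAt ℝ g x₀} :
    mka f hf = mka g hg ↔ f =ᶠ[𝓝[≠] x₀] g := mk_eq

theorem mka_congr {x₀ : ℝ} {f g : ℝ → ℝ} {hf : AnalyticAt ℝ f x₀} {hg : AnalyticAt ℝ g x₀}
    (h : ∀ x, f x = g x) : mka f hf = mka g hg := by
  rw [mka_eq]
  exact Eventually.of_forall h

theorem mka_eq_zero {x₀ : ℝ} {f : ℝ → ℝ} {hf : AnalyticAt ℝ f x₀} :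
    mka f hf = 0 ↔ ∀ᶠ x in 𝓝[≠] x₀, f x = 0 := by
  rw [mk_zero, mka, mk_eq]
  rfl

theorem der_mka {x₀ : ℝ} {f : ℝ → ℝ} (hf : AnalyticAt ℝ f x₀) :
    der x₀ (mka f hf) = mka (deriv f) hf.deriv := der_mk _

theorem aeval_mka {x₀ : ℝ} {z : ℝ → ℝ} (hz : AnalyticAt ℝ z x₀) (p : ℝ[X]) :
    aeval (mka z hz) p = mka (fun x => p.eval (z x)) (analyticAt_eval hz p) := by
  induction p using Polynomial.induction_on' with
  | add p q hp hq =>
    rw [map_add, hp, hq, mka_add]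
    exact mka_congr fun x => (eval_add).symm
  | monomial n c =>
    rw [aeval_monomial, mka_pow, mka_const, mka_mul]
    exact mka_congr fun x => (eval_monomial).symm

theorem eval₂_mka {x₀ : ℝ} {z y : ℝ → ℝ} (hz : AnalyticAt ℝ z x₀) (hy : AnalyticAt ℝ y x₀)
    (Q : ℝ[X][X]) : Q.eval₂ (aeval (mka z hz) : ℝ[X] →ₐ[ℝ] Mer x₀).toRingHom (mka y hy) =
      mka (fun x => Q.evalEval (z x) (y x)) (analyticAt_evalEval hz hy Q) := by
  induction Q using Polynomial.induction_on' with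
  | add p q hp hq =>
    rw [eval₂_add, hp, hq, mka_add]
    exact mka_congr fun x => (evalEval_add _ _ _ _).symm
  | monomial n c =>
    rw [eval₂_monomial, mka_pow]
    change aeval (mka z hz) c * _ = _
    rw [aeval_mka, mka_mul]
    exact mka_congr fun x => (evalEval_monomial _ _ _ _).symm

section Dep

variable {F : Type} [Field F] [Algebra ℝ F]

theorem alg_of_dep {Z Y : F} (hZ : Transcendental ℝ Z) {Q : ℝ[X][X]} (hQ : Q ≠ 0)
    (h : Q.eval₂ (aeval Z : ℝ[X] →ₐ[ℝ] F).toRingHom Y = 0) : IsAlgebraic ℝ⟮Z⟯ Y := by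
  have hZm : Z ∈ ℝ⟮Z⟯ := mem_adjoin_simple_self ℝ Z
  let φ : ℝ[X] →+* ℝ⟮Z⟯ := (aeval (⟨Z, hZm⟩ : ℝ⟮Z⟯) : ℝ[X] →ₐ[ℝ] ℝ⟮Z⟯).toRingHom
  have hφ : (algebraMap ℝ⟮Z⟯ F).comp φ = (aeval Z : ℝ[X] →ₐ[ℝ] F).toRingHom := by
    ext p
    · simp [φ]
    · change algebraMap ℝ⟮Z⟯ F (aeval _ X) = aeval Z X
      rw [aeval_X, aeval_X]
      rfl
  have hinj : Function.Injective φ := by
    have h1 : Function.Injective ((algebraMap ℝ⟮Z⟯ F).comp φ) := by
      rw [hφ]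
      exact transcendental_iff_injective.1 hZ
    exact Function.Injective.of_comp (f := algebraMap ℝ⟮Z⟯ F) (g := φ) h1
  refine ⟨Q.map φ, (Polynomial.map_ne_zero_iff hinj).2 hQ, ?_⟩
  rw [aeval_def, eval₂_map, hφ]
  exact h

theorem dep_of_alg {Z Y : F} (h : IsAlgebraic ℝ⟮Z⟯ Y) :
    ∃ Q : ℝ[X][X], Q ≠ 0 ∧ Q.eval₂ (aeval Z : ℝ[X] →ₐ[ℝ] F).toRingHom Y = 0 := by
  rw [← alg_iff] at h
  obtain ⟨P, hP, hPY⟩ := h
  let φ : ℝ[X] →+* Algebra.adjoin ℝ {Z} :=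
    (aeval (⟨Z, Algebra.self_mem_adjoin_singleton ℝ Z⟩ : Algebra.adjoin ℝ {Z})).toRingHom
  have hφ : (algebraMap (Algebra.adjoin ℝ {Z}) F).comp φ =
      (aeval Z : ℝ[X] →ₐ[ℝ] F).toRingHom := by
    ext p
    · simp [φ]
    · change algebraMap (Algebra.adjoin ℝ {Z}) F (aeval _ X) = aeval Z X
      rw [aeval_X, aeval_X]
      rfl
  have hsurj : Function.Surjective φ := by
    intro a
    obtain ⟨p, hp⟩ := Algebra.adjoin_mem_exists_aeval ℝ Z a.2
    refine ⟨p, Subtype.ext ?_⟩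
    change ((aeval (⟨Z, Algebra.self_mem_adjoin_singleton ℝ Z⟩ : Algebra.adjoin ℝ {Z}) p :
      Algebra.adjoin ℝ {Z}) : F) = a
    rw [aeval_subalgebra_coe, hp]
  obtain ⟨Q, hQ⟩ := Polynomial.map_surjective φ hsurj P
  refine ⟨Q, ?_, ?_⟩
  · rintro rfl
    rw [Polynomial.map_zero] at hQ
    exact hP hQ.symm
  · rw [← hφ, ← eval₂_map, hQ]
    exact hPY

end Dep

end MP52aaf2
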