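import Pool.Agent.Lib.MP_52aaf2_al.AlgFun

open Filter Topology Polynomial IntermediateField

namespace MP52aaf2

/-- the germ of the identity function -/
noncomputable def XX (x₀ : ℝ) : Mer x₀ := mka (fun x => x) analyticAt_id

theorem der_XX (x₀ : ℝ) : der x₀ (XX x₀) = 1 := by
  unfold XX
  rw [der_mka, mk_one, mka, mk_eq]
  exact Eventually.of_forall fun x => by simp

theorem trans_XX (x₀ : ℝ) : Transcendental ℝ (XX x₀) := by
  apply transcendental_of_der (der x₀)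
  rw [der_XX]
  exact one_ne_zero

theorem exists_right {x₀ : ℝ} {p : ℝ → Prop} (h : ∀ᶠ x in 𝓝[≠] x₀, p x) :
    ∃ ε > 0, ∀ x, x₀ < x → x < x₀ + ε → p x := by
  rw [eventually_nhdsWithin_iff, Metric.eventually_nhds_iff] at h
  obtain ⟨ε, hε, h⟩ := h
  refine ⟨ε, hε, fun x h1 h2 => h (y := x) ?_ (ne_of_gt h1)⟩
  rw [Real.dist_eq, abs_lt]
  constructor <;> linarith

theorem der_oi_ne_zero {x₀ : ℝ} (g : ℝ ≃o ℝ) (hg : AnalyticAt ℝ g x₀) :
    der x₀ (mka g hg) ≠ 0 := by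
  intro h
  obtain ⟨c, hc⟩ := der_const _ h
  rw [mka_const, mka_eq] at hc
  obtain ⟨ε, hε, h1⟩ := exists_right hc
  have e1 := h1 (x₀ + ε / 2) (by linarith) (by linarith)
  have e2 := h1 (x₀ + ε / 3) (by linarith) (by linarith)
  have e3 : g (x₀ + ε / 2) = g (x₀ + ε / 3) := by rw [← e1, ← e2]
  have := g.injective e3
  linarith

theorem trans_oi {x₀ : ℝ} (g : ℝ ≃o ℝ) (hg : AnalyticAt ℝ g x₀) :
    Transcendental ℝ (mka g hg) :=
  transcendental_of_der (der x₀) (der_oi_ne_zero g hg)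

theorem eventually_nhds_of_atTop {p : ℝ → Prop} (h : ∀ᶠ x in atTop, p x) :
    ∀ᶠ x₀ : ℝ in atTop, ∀ᶠ x in 𝓝 x₀, p x := by
  rw [eventually_atTop] at h
  obtain ⟨M, hM⟩ := h
  filter_upwards [eventually_gt_atTop M] with x₀ hx₀
  filter_upwards [lt_mem_nhds hx₀] with x hx
  exact hM x hx.le

theorem IsAlgFun.local {f : ℝ → ℝ} (hf : IsAlgFun f) :
    ∀ᶠ x₀ in atTop, ∀ h : AnalyticAt ℝ f x₀, IsAlgebraic ℝ⟮XX x₀⟯ (mka f h) := by
  obtain ⟨-, Q, hQ, hQ0⟩ := hf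
  filter_upwards [eventually_nhds_of_atTop hQ0] with x₀ h0 h
  refine alg_of_dep (trans_XX x₀) hQ ?_
  unfold XX
  rw [eval₂_mka, mka_eq_zero]
  exact h0.filter_mono nhdsWithin_le_nhds

/-- identity theorem on half-lines -/
theorem eq_zero_of_local {h : ℝ → ℝ} {M x₀ : ℝ} (han : ∀ x, M < x → AnalyticAt ℝ h x)
    (hx₀ : M < x₀) (h0 : ∃ᶠ x in 𝓝[≠] x₀, h x = 0) : ∀ x, M < x → h x = 0 := by
  have h1 : AnalyticOnNhd ℝ h (Set.Ioi M) := fun x hx => han x hx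
  intro x hx
  exact h1.eqOn_zero_of_preconnected_of_frequently_eq_zero isPreconnected_Ioi hx₀ h0 hx

theorem isAlgFun_of_local {f : ℝ → ℝ} (han : ∀ᶠ x in atTop, AnalyticAt ℝ f x)
    (hloc : ∃ᶠ x₀ in atTop, ∃ h : AnalyticAt ℝ f x₀, IsAlgebraic ℝ⟮XX x₀⟯ (mka f h)) :
    IsAlgFun f := by
  refine ⟨han, ?_⟩
  rw [eventually_atTop] at han
  obtain ⟨M, hM⟩ := han
  obtain ⟨x₀, ⟨h, hx₀⟩, hMx⟩ := (hloc.and_eventually (eventually_gt_atTop M)).exists
  obtain ⟨Q, hQ, hQ0⟩ := dep_of_alg hx₀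
  refine ⟨Q, hQ, ?_⟩
  unfold XX at hQ0
  rw [eval₂_mka, mka_eq_zero] at hQ0
  have := eq_zero_of_local (M := M) (fun x hx =>
    analyticAt_evalEval (z := fun x => x) analyticAt_id (hM x hx.le) Q) hMx hQ0.frequently
  filter_upwards [eventually_gt_atTop M] with x hx
  exact this x hx

theorem analytic_comp {f : ℝ → ℝ} {g : ℝ ≃o ℝ} (hf : ∀ᶠ x in atTop, AnalyticAt ℝ f x)
    (hg : ∀ᶠ x in atTop, AnalyticAt ℝ g x) : ∀ᶠ x in atTop, AnalyticAt ℝ (fun x => f (g x)) x := by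
  filter_upwards [hg, (tendsto_oi g).eventually hf] with x h1 h2
  exact AnalyticAt.fun_comp h2 h1

theorem IsAlgFun.comp {f : ℝ → ℝ} {g : ℝ ≃o ℝ} (hf : IsAlgFun f) (hg : IsAlgFun g) :
    IsAlgFun (fun x => f (g x)) := by
  have han := analytic_comp hf.1 hg.1
  refine isAlgFun_of_local han (Eventually.frequently ?_)
  obtain ⟨hfa, Q, hQ, hQ0⟩ := hf
  filter_upwards [han, hg.1, hg.local, eventually_nhds_of_atTop ((tendsto_oi g).eventually hQ0)]
    with x₀ h1 h2 h3 h4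
  refine ⟨h1, ?_⟩
  have h5 : IsAlgebraic ℝ⟮mka g h2⟯ (mka (fun x => f (g x)) h1) := by
    refine alg_of_dep (trans_oi g h2) hQ ?_
    rw [eval₂_mka, mka_eq_zero]
    exact h4.filter_mono nhdsWithin_le_nhds
  exact alg_trans h5 (h3 h2)

/-- **zeros**: an algebraic analytic function with arbitrarily large zeros vanishes near `+∞`. -/
theorem IsAlgFun.eq_zero {f : ℝ → ℝ} (hf : IsAlgFun f) (h0 : ∃ᶠ x in atTop, f x = 0) :
    ∀ᶠ x in atTop, f x = 0 := by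
  obtain ⟨han, Q, hQ, hQ0⟩ := hf
  obtain ⟨R, hR, hd⟩ := Polynomial.exists_eq_pow_rootMultiplicity_mul_and_not_dvd Q hQ 0
  rw [map_zero, sub_zero] at hR hd
  set j := rootMultiplicity 0 Q
  have hR0 : R.coeff 0 ≠ 0 := fun h => hd (X_dvd_iff.2 h)
  rw [eventually_atTop] at han
  obtain ⟨M, hM⟩ := han
  by_contra hcon
  have hcon' : ∃ᶠ x in atTop, f x ≠ 0 := not_eventually.1 hcon
  obtain ⟨M', hM'⟩ := eventually_atTop.1 hQ0
  obtain ⟨x₁, hx₁, hx₁M⟩ := (hcon'.and_eventually (eventually_gt_atTop (max M M'))).exists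
  have hM₁ : M < x₁ := lt_of_le_of_lt (le_max_left _ _) hx₁M
  have hM₂ : M' < x₁ := lt_of_le_of_lt (le_max_right _ _) hx₁M
  have hcont : ∀ᶠ x in 𝓝 x₁, f x ≠ 0 := (hM x₁ hM₁.le).continuousAt.eventually_ne hx₁
  have hRz : ∀ᶠ x in 𝓝 x₁, R.evalEval x (f x) = 0 := by
    filter_upwards [hcont, lt_mem_nhds hM₂] with x hx1 hx2
    have h1 := hM' x hx2.le
    rw [hR, evalEval_mul, evalEval_pow, evalEval_X] at h1
    rcases mul_eq_zero.1 h1 with h | h
    · exact absurd (eq_zero_of_pow_eq_zero h) hx1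
    · exact h
  have hall := eq_zero_of_local (M := M) (h := fun x => R.evalEval x (f x)) (fun x hx =>
    analyticAt_evalEval (z := fun x => x) analyticAt_id (hM x hx.le) R) hM₁
    (hRz.filter_mono nhdsWithin_le_nhds).frequently
  -- infinitely many roots
  apply hR0
  apply Polynomial.eq_zero_of_infinite_isRoot
  have hinf : {x | f x = 0 ∧ M < x}.Infinite := by
    intro hfin
    obtain ⟨B, hB⟩ := hfin.bddAbove
    obtain ⟨x, hx, hxM⟩ := (h0.and_eventually (eventually_gt_atTop (max M B))).exists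
    have := hB ⟨hx, lt_of_le_of_lt (le_max_left _ _) hxM⟩
    exact absurd (lt_of_le_of_lt (le_max_right M B) hxM) (not_lt.2 this)
  refine hinf.mono ?_
  rintro x ⟨hx, hxM⟩
  have h1 := hall x hxM
  simp only [hx] at h1
  change (R.coeff 0).IsRoot x
  rw [IsRoot.def, coeff_zero_eq_eval_zero]
  simpa [evalEval] using h1

end MP52aaf2
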