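import Mathlib

namespace MP52aaf2

open scoped Pointwise

/-- `Red H i j n g`: `g` is an alternating product of `n ≥ 1` elements of
`H false ∖ H true` and `H true ∖ H false`, the first factor in `H i` and the last one in `H j`. -/
inductive Red {G : Type*} [Group G] (H : Bool → Subgroup G) : Bool → Bool → ℕ → G → Prop
  | one (i : Bool) (g : G) (hg : g ∈ H i) (hc : g ∉ H (!i)) : Red H i i 1 g
  | cons (i j : Bool) (n : ℕ) (x g : G) (hx : x ∈ H i) (hc : x ∉ H (!i))
      (hg : Red H (!i) j n g) : Red H i j (n + 1) (x * g)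

namespace Red

variable {G : Type*} [Group G] {H : Bool → Subgroup G}

theorem mul_right {i j : Bool} {n : ℕ} {g : G} (h : Red H i j n g) {c : G}
    (hc : ∀ k, c ∈ H k) : Red H i j n (g * c) := by
  induction h with
  | one i g hg hgc =>
    exact Red.one i _ ((H i).mul_mem hg (hc i))
      (fun h => hgc (by simpa using (H (!i)).mul_mem h ((H (!i)).inv_mem (hc _))))
  | cons i j n x g hx hxc hg ih =>
    rw [mul_assoc]
    exact Red.cons i j n x _ hx hxc ih

theorem mul_left {i j : Bool} {n : ℕ} {g : G} (h : Red H i j n g) {c : G}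
    (hc : ∀ k, c ∈ H k) : Red H i j n (c * g) := by
  cases h with
  | one i g hg hgc =>
    exact Red.one i _ ((H i).mul_mem (hc i) hg)
      (fun h => hgc (by simpa using (H (!i)).mul_mem ((H (!i)).inv_mem (hc _)) h))
  | cons i j n x g hx hxc hg =>
    rw [← mul_assoc]
    exact Red.cons i j n _ _ ((H i).mul_mem (hc i) hx)
      (fun h => hxc (by simpa using (H (!i)).mul_mem ((H (!i)).inv_mem (hc _)) h)) hg

theorem append {i j k : Bool} {n m : ℕ} {g h : G} (hg : Red H i j n g)
    (hh : Red H (!j) k m h) : Red H i k (n + m) (g * h) := by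
  induction hg with
  | one i g hg hgc =>
    rw [add_comm]
    exact Red.cons i k m g h hg hgc hh
  | cons i j n x g hx hxc hg ih =>
    rw [mul_assoc, show n + 1 + m = (n + m) + 1 by ring]
    exact Red.cons i k _ x _ hx hxc (ih hh)

theorem snoc {i j : Bool} {n : ℕ} {g x : G} (hg : Red H i j n g)
    (hx : x ∈ H (!j)) (hc : x ∉ H j) : Red H i (!j) (n + 1) (g * x) :=
  hg.append (Red.one (!j) x hx (by simpa using hc))

theorem inv {i j : Bool} {n : ℕ} {g : G} (hg : Red H i j n g) : Red H j i n g⁻¹ := by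
  induction hg with
  | one i g hg hgc =>
    exact Red.one i _ ((H i).inv_mem hg) (fun h => hgc (by simpa using (H (!i)).inv_mem h))
  | cons i j n x g hx hxc hg ih =>
    rw [mul_inv_rev]
    have := ih.snoc (x := x⁻¹) (by simpa using hx)
      (fun h => hxc (by simpa using (H (!i)).inv_mem h))
    simpa using this

end Red

section NF

variable {G : Type*} [Group G] {H : Bool → Subgroup G}

/-- normal form hypothesis: no nonempty alternating product is trivial. -/
def NF (H : Bool → Subgroup G) : Prop := ∀ i j n, ¬ Red H i j n 1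

theorem NF.not_mem (hNF : NF H) {i j : Bool} {n : ℕ} {g : G} (hg : Red H i j n g) :
    ¬ ∀ k, g ∈ H k := by
  intro h
  have := hg.mul_right (c := g⁻¹) (fun k => (H k).inv_mem (h k))
  rw [mul_inv_cancel] at this
  exact hNF _ _ _ this

theorem NF.left_eq (hNF : NF H) {i j n i' j' n'} {g : G} (h : Red H i j n g)
    (h' : Red H i' j' n' g) : i = i' := by
  by_contra hne
  have hi : i = !i' := by cases i <;> cases i' <;> simp_all
  subst hi
  have := h'.inv.append h
  rw [inv_mul_cancel] at this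
  exact hNF _ _ _ this

theorem NF.right_eq (hNF : NF H) {i j n i' j' n'} {g : G} (h : Red H i j n g)
    (h' : Red H i' j' n' g) : j = j' :=
  hNF.left_eq h.inv h'.inv

theorem mem_all {i : Bool} {g : G} (h : g ∈ H i) (h' : g ∈ H (!i)) : ∀ k, g ∈ H k := by
  intro k
  cases i <;> cases k <;> simp_all

theorem red_mul_cases {i k j : Bool} {n : ℕ} {x g : G} (hx : x ∈ H i) (hg : Red H k j n g) :
    (∀ l, x * g ∈ H l) ∨ ∃ i' j' n', Red H i' j' n' (x * g) := by
  by_cases hki : k = i
  · subst hki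
    cases hg with
    | one _ _ hg hgc =>
      by_cases h : x * g ∈ H (!k)
      · exact Or.inl (mem_all ((H k).mul_mem hx hg) h)
      · exact Or.inr ⟨k, k, 1, Red.one k _ ((H k).mul_mem hx hg) h⟩
    | cons _ _ n y g' hy hyc hg' =>
      rw [← mul_assoc]
      by_cases h : x * y ∈ H (!k)
      · exact Or.inr ⟨_, _, _, hg'.mul_left (mem_all ((H k).mul_mem hx hy) h)⟩
      · exact Or.inr ⟨_, _, _, Red.cons k _ _ _ _ ((H k).mul_mem hx hy) h hg'⟩
  · have hk : k = !i := by cases k <;> cases i <;> simp_all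
    subst hk
    by_cases h : x ∈ H (!i)
    · exact Or.inr ⟨_, _, _, hg.mul_left (mem_all hx h)⟩
    · exact Or.inr ⟨_, _, _, Red.cons i _ _ _ _ hx h hg⟩

theorem mem_sup_cases {g : G} (hg : g ∈ H false ⊔ H true) :
    (∀ l, g ∈ H l) ∨ ∃ i j n, Red H i j n g := by
  have key : ∀ (i : Bool) (x : G), x ∈ H i → ∀ g : G,
      ((∀ l, g ∈ H l) ∨ ∃ i j n, Red H i j n g) →
      ((∀ l, x * g ∈ H l) ∨ ∃ i j n, Red H i j n (x * g)) := by
    intro i x hx g hg
    rcases hg with hg | ⟨i', j', n', hg⟩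
    · by_cases h : x ∈ H (!i)
      · exact Or.inl (fun l => (H l).mul_mem (mem_all hx h l) (hg l))
      · exact Or.inr ⟨i, i, 1, (Red.one i x hx h).mul_right hg⟩
    · exact red_mul_cases hx hg
  rw [Subgroup.sup_eq_closure] at hg
  induction hg using Subgroup.closure_induction_left with
  | one => exact Or.inl (fun l => (H l).one_mem)
  | mul_left x hx y hy ih =>
    rcases hx with hx | hx
    · exact key false x hx y ih
    · exact key true x hx y ih
  | inv_mul_cancel x hx y hy ih =>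
    rcases hx with hx | hx
    · exact key false _ ((H false).inv_mem hx) y ih
    · exact key true _ ((H true).inv_mem hx) y ih

theorem strip_left {i k l : Bool} {n : ℕ} {g : G} (hg : Red H k l n g) :
    g ∈ H i ∨ ∃ a ∈ H i, ∃ m, Red H (!i) l m (a⁻¹ * g) := by
  by_cases hki : k = i
  · subst hki
    cases hg with
    | one _ _ hg hgc => exact Or.inl hg
    | cons _ _ n y g' hy hyc hg' =>
      exact Or.inr ⟨y, hy, n, by simpa using hg'⟩
  · have hk : k = !i := by cases k <;> cases i <;> simp_all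
    subst hk
    exact Or.inr ⟨1, (H i).one_mem, n, by simpa using hg⟩

/-- `T H i a b g`: seen from the vertex `H i`, `g` goes away in direction `a` and
`g⁻¹` in direction `b`. -/
def T (H : Bool → Subgroup G) (i : Bool) (a b g : G) : Prop :=
  ∃ n, Red H (!i) (!i) n (a⁻¹ * g * b)

theorem T_cases (i : Bool) {g : G} (hg : g ∈ H false ⊔ H true) :
    g ∈ H i ∨ ∃ a ∈ H i, ∃ b ∈ H i, T H i a b g := by
  rcases mem_sup_cases hg with h | ⟨k, l, n, h⟩
  · exact Or.inl (h i)
  · rcases strip_left (i := i) h with h | ⟨a, ha, m, h⟩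
    · exact Or.inl h
    · rcases strip_left (i := i) h.inv with h | ⟨b, hb, m', h⟩
      · left
        have : g = a * ((a⁻¹ * g)⁻¹)⁻¹ := by group
        rw [this]
        exact (H i).mul_mem ha ((H i).inv_mem h)
      · right
        refine ⟨a, ha, b, hb, m', ?_⟩
        have := h.inv
        have e : (b⁻¹ * (a⁻¹ * g)⁻¹)⁻¹ = a⁻¹ * g * b := by group
        rwa [e] at this

theorem T.not_mem (hNF : NF H) {i : Bool} {a b g : G} (ha : a ∈ H i) (hb : b ∈ H i)
    (h : T H i a b g) : g ∉ H i := by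
  intro hg
  obtain ⟨n, h⟩ := h
  have hm : a⁻¹ * g * b ∈ H i := (H i).mul_mem ((H i).mul_mem ((H i).inv_mem ha) hg) hb
  by_cases hm' : a⁻¹ * g * b ∈ H (!i)
  · exact hNF.not_mem h (mem_all hm hm')
  · have := hNF.left_eq h (Red.one i _ hm hm')
    cases i <;> simp_all

theorem T.inv {i : Bool} {a b g : G} (h : T H i a b g) : T H i b a g⁻¹ := by
  obtain ⟨n, h⟩ := h
  refine ⟨n, ?_⟩
  have := h.inv
  have e : (a⁻¹ * g * b)⁻¹ = b⁻¹ * g⁻¹ * a := by group
  rwa [e] at this

theorem T.mul_left {i : Bool} {a b g : G} (h : T H i a b g) (x : G) :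
    T H i (x * a) b (x * g) := by
  obtain ⟨n, h⟩ := h
  refine ⟨n, ?_⟩
  have e : (x * a)⁻¹ * (x * g) * b = a⁻¹ * g * b := by group
  rwa [e]

theorem T.mul_right {i : Bool} {a b g : G} (h : T H i a b g) (x : G) :
    T H i a (x⁻¹ * b) (g * x) := by
  obtain ⟨n, h⟩ := h
  refine ⟨n, ?_⟩
  have e : a⁻¹ * (g * x) * (x⁻¹ * b) = a⁻¹ * g * b := by group
  rwa [e]

theorem T.congr_left {i : Bool} {a a' b g : G} (h : T H i a b g) (hc : ∀ k, a⁻¹ * a' ∈ H k) :
    T H i a' b g := by
  obtain ⟨n, h⟩ := h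
  refine ⟨n, ?_⟩
  have e : a'⁻¹ * g * b = (a⁻¹ * a')⁻¹ * (a⁻¹ * g * b) := by group
  rw [e]
  exact h.mul_left (fun k => (H k).inv_mem (hc k))

theorem T.dir_unique (hNF : NF H) {i : Bool} {a b a' b' g : G}
    (hb : b ∈ H i) (ha : a ∈ H i) (ha' : a' ∈ H i) (hb' : b' ∈ H i)
    (h : T H i a b g) (h' : T H i a' b' g) : a⁻¹ * a' ∈ H (!i) := by
  by_contra hc
  obtain ⟨n, h⟩ := h
  obtain ⟨n', h'⟩ := h'
  have h1 : Red H i (!i) (n' + 1) ((a⁻¹ * a') * (a'⁻¹ * g * b')) :=
    Red.cons i _ _ _ _ ((H i).mul_mem ((H i).inv_mem ha) ha') hc h'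
  have hd : b'⁻¹ * b ∈ H i := (H i).mul_mem ((H i).inv_mem hb') hb
  have e : a⁻¹ * g * b = ((a⁻¹ * a') * (a'⁻¹ * g * b')) * (b'⁻¹ * b) := by group
  by_cases hd' : b'⁻¹ * b ∈ H (!i)
  · have h2 := h1.mul_right (mem_all hd hd')
    rw [← e] at h2
    have := hNF.left_eq h h2
    cases i <;> simp_all
  · have h2 := h1.snoc (x := b'⁻¹ * b) (by simpa using hd) hd'
    rw [← e] at h2
    have := hNF.left_eq h h2
    cases i <;> simp_all

theorem T.mul {i : Bool} {a b a' b' g h : G} (hg : T H i a b g) (hh : T H i a' b' h)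
    (hb : b ∈ H i) (ha' : a' ∈ H i) (hc : b⁻¹ * a' ∉ H (!i)) : T H i a b' (g * h) := by
  obtain ⟨n, hg⟩ := hg
  obtain ⟨m, hh⟩ := hh
  refine ⟨n + (m + 1), ?_⟩
  have e : a⁻¹ * (g * h) * b' = (a⁻¹ * g * b) * ((b⁻¹ * a') * (a'⁻¹ * h * b')) := by group
  rw [e]
  refine hg.append ?_
  rw [Bool.not_not]
  exact Red.cons i _ _ _ _ ((H i).mul_mem ((H i).inv_mem hb) ha') hc hh

/-- `g` is conjugate (in the group generated by the two factors) to an element of one factor,
outside the intersection, whose `k`-th power is in the intersection. -/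
def Bad (H : Bool → Subgroup G) (k : ℕ) (g : G) : Prop :=
  ∃ l, ∃ x ∈ H l, x ∉ H (!l) ∧ x ^ k ∈ H (!l) ∧ ∃ y ∈ H false ⊔ H true, g = y * x * y⁻¹

theorem Bad.conj {k : ℕ} {g y : G} (h : Bad H k g) (hy : y ∈ H false ⊔ H true) :
    Bad H k (y * g * y⁻¹) := by
  obtain ⟨l, x, hx, hxc, hxk, z, hz, rfl⟩ := h
  exact ⟨l, x, hx, hxc, hxk, y * z, Subgroup.mul_mem _ hy hz, by group⟩

theorem le_sup_all (j : Bool) : H j ≤ H false ⊔ H true := by
  cases j
  · exact le_sup_left
  · exact le_sup_right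

/-- powers of an element whose two directions coincide. -/
theorem Red.pow_same {n : ℕ} : ∀ {j : Bool} {g : G}, Red H j j n g → ∀ k : ℕ, 1 ≤ k →
    ((∀ l, g ^ k ∈ H l) ∧ Bad H k g) ∨ ∃ m, Red H j j m (g ^ k) := by
  induction n using Nat.strong_induction_on with
  | _ n IH =>
  intro j γ h k hk
  have hmem : Bad H k γ → γ ^ k ∈ H j →
      ((∀ l, γ ^ k ∈ H l) ∧ Bad H k γ) ∨ ∃ m, Red H j j m (γ ^ k) := by
    intro hbad hu
    by_cases h' : γ ^ k ∈ H (!j)
    · exact Or.inl ⟨mem_all hu h', hbad⟩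
    · exact Or.inr ⟨1, Red.one j _ hu h'⟩
  rcases h with ⟨_, _, hg, hgc⟩ | ⟨_, _, n', x, g, hx, hxc, hg⟩
  · by_cases h' : γ ^ k ∈ H (!j)
    · exact Or.inl ⟨mem_all ((H j).pow_mem hg k) h', j, γ, hg, hgc, h', 1,
        Subgroup.one_mem _, by group⟩
    · exact Or.inr ⟨1, Red.one j _ ((H j).pow_mem hg k) h'⟩
  · -- strip the last letter
    have hginv := hg.inv
    generalize hw : g⁻¹ = w at hginv
    have key : ∃ y ∈ H j, y ∉ H (!j) ∧ ∃ g₁, ∃ n₁, n₁ < n' + 1 ∧ Red H (!j) (!j) n₁ g₁ ∧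
        g = g₁ * y := by
      revert hginv
      generalize hj : (!j) = j'
      intro hginv
      cases hginv with
      | one _ _ hg hgc => cases j <;> simp_all
      | cons _ _ n'' y h hy hyc hh =>
        subst hj
        refine ⟨y⁻¹, (H j).inv_mem hy, fun h' => hyc (by simpa using (H (!j)).inv_mem h'),
          h⁻¹, n'', by omega, hh.inv, ?_⟩
        rw [← inv_inv g, hw]
        group
    obtain ⟨y, hy, hyc, g₁, n₁, hn₁, hg₁, rfl⟩ := key
    by_cases hc : y * x ∈ H (!j)
    · have hcm : ∀ k, y * x ∈ H k := mem_all ((H j).mul_mem hy hx) hc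
      have h1 := IH n₁ (by omega) (hg₁.mul_right hcm) k hk
      have e : (x * (g₁ * y)) ^ k = x * (g₁ * (y * x)) ^ k * x⁻¹ := by
        rw [← conj_pow]
        congr 1
        group
      rcases h1 with ⟨h1, hbad⟩ | ⟨m, h1⟩
      · apply hmem
        · have e2 : x * (g₁ * y) = x * (g₁ * (y * x)) * x⁻¹ := by group
          rw [e2]
          exact hbad.conj (le_sup_all j hx)
        · rw [e]
          exact (H j).mul_mem ((H j).mul_mem hx (h1 j)) ((H j).inv_mem hx)
      · rw [e]
        right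
        have h2 : Red H j (!j) (m + 1) (x * (g₁ * (y * x)) ^ k) :=
          Red.cons j _ _ _ _ hx hxc h1
        have h3 := h2.snoc (x := x⁻¹) (by simpa using (H j).inv_mem hx)
          (fun h' => hxc (by simpa using (H (!j)).inv_mem h'))
        rw [Bool.not_not] at h3
        exact ⟨_, h3⟩
    · have hyx : y * x ∈ H j := (H j).mul_mem hy hx
      have claim : ∀ k : ℕ, ∃ m, Red H (!j) (!j) m (x⁻¹ * (x * (g₁ * y)) ^ (k + 1) * y⁻¹) := by
        intro k
        induction k with
        | zero =>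
          refine ⟨n₁, ?_⟩
          have e : x⁻¹ * (x * (g₁ * y)) ^ (0 + 1) * y⁻¹ = g₁ := by
            rw [zero_add, pow_one]; group
          rwa [e]
        | succ k ih =>
          obtain ⟨m, ih⟩ := ih
          refine ⟨m + (n₁ + 1), ?_⟩
          have e : x⁻¹ * (x * (g₁ * y)) ^ (k + 1 + 1) * y⁻¹ =
              (x⁻¹ * (x * (g₁ * y)) ^ (k + 1) * y⁻¹) * ((y * x) * g₁) := by
            rw [pow_succ _ (k + 1)]; group
          rw [e]
          refine ih.append ?_
          rw [Bool.not_not]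
          exact Red.cons j _ _ _ _ hyx hc hg₁
      obtain ⟨k, rfl⟩ : ∃ k', k = k' + 1 := ⟨k - 1, by omega⟩
      obtain ⟨m, hm⟩ := claim k
      right
      have h2 : Red H j (!j) (m + 1) (x * (x⁻¹ * (x * (g₁ * y)) ^ (k + 1) * y⁻¹)) :=
        Red.cons j _ _ _ _ hx hxc hm
      have h3 := h2.snoc (x := y) (by simpa using hy) hyc
      rw [Bool.not_not] at h3
      have e : x * (x⁻¹ * (x * (g₁ * y)) ^ (k + 1) * y⁻¹) * y = (x * (g₁ * y)) ^ (k + 1) := by
        group
      rw [e] at h3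
      exact ⟨_, h3⟩

end NF

end MP52aaf2
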