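import Mathlib

open Filter Topology Polynomial

namespace MP52aaf2

/-- The orientation-preserving homeomorphisms of `ℝ` (the order isomorphisms `ℝ ≃o ℝ`) that agree
with the identity near `+∞`. -/
def trivialGerm : Subgroup (ℝ ≃o ℝ) where
  carrier := {f | ∀ᶠ x in atTop, f x = x}
  mul_mem' := by
    intro f g hf hg
    have hf' : ∀ᶠ x in atTop, f x = x := hf
    filter_upwards [hf', hg] with x h1 h2
    change f (g x) = x
    rw [h2, h1]
  one_mem' := Eventually.of_forall fun x => rfl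
  inv_mem' := by
    intro f hf
    have hf' : ∀ᶠ x in atTop, f x = x := hf
    filter_upwards [hf'] with x hx
    change f.symm x = x
    rw [OrderIso.symm_apply_eq, hx]

instance : trivialGerm.Normal where
  conj_mem := by
    intro f hf g
    have hf' : ∀ᶠ x in atTop, f x = x := hf
    have h1 : Tendsto g.symm atTop atTop := g.symm.tendsto_atTop
    have h2 := h1.eventually hf'
    filter_upwards [h2] with x hx
    change g (f (g.symm x)) = x
    rw [hx, OrderIso.apply_symm_apply]

/-- The group of germs at `+∞` of orientation-preserving homeomorphisms of `ℝ`. -/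
abbrev GermGroup : Type := (ℝ ≃o ℝ) ⧸ trivialGerm

/-- The germ at `+∞` of an orientation-preserving homeomorphism of `ℝ`. -/
def germ (f : ℝ ≃o ℝ) : GermGroup := QuotientGroup.mk f

/-- `α`: the germ of `x ↦ x + 1`. -/
noncomputable def alpha : GermGroup := germ (OrderIso.addRight (1 : ℝ))

/-- `f` is, near `+∞`, real-analytic and algebraic (over the field of rational functions): it
satisfies `Q (x, f x) = 0` for some nonzero two-variable polynomial `Q`. -/
def IsAlgFun (f : ℝ → ℝ) : Prop :=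
  (∀ᶠ x in atTop, AnalyticAt ℝ f x) ∧
    ∃ Q : ℝ[X][X], Q ≠ 0 ∧ ∀ᶠ x in atTop, Q.evalEval x (f x) = 0

/-- algebraic germs: the germs of the homeomorphisms `f` such that both `f` and `f⁻¹` are
analytic and algebraic near `+∞`. -/
def IsAlgGerm (g : GermGroup) : Prop :=
  ∃ f : ℝ ≃o ℝ, germ f = g ∧ IsAlgFun f ∧ IsAlgFun f.symm

/-- power germs: the germs of `x ↦ c * x ^ r`, `c > 0`, `r > 0`. -/
def IsMonGerm (c r : ℝ) (g : GermGroup) : Prop :=
  ∃ f : ℝ ≃o ℝ, germ f = g ∧ ∀ᶠ x in atTop, f x = c * x ^ r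

theorem germ_eq_iff {f g : ℝ ≃o ℝ} : germ f = germ g ↔ ∀ᶠ x in atTop, f x = g x := by
  rw [germ, germ, QuotientGroup.eq]
  change (∀ᶠ x in atTop, f.symm (g x) = x) ↔ _
  constructor
  · intro h
    filter_upwards [h] with x hx
    rw [OrderIso.symm_apply_eq] at hx
    exact hx.symm
  · intro h
    filter_upwards [h] with x hx
    rw [OrderIso.symm_apply_eq, hx]

theorem germ_mul (f g : ℝ ≃o ℝ) : germ f * germ g = germ (f * g) := rfl

theorem germ_one : germ 1 = 1 := rfl

theorem germ_inv (f : ℝ ≃o ℝ) : (germ f)⁻¹ = germ f⁻¹ := rfl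

theorem germ_pow (f : ℝ ≃o ℝ) (n : ℕ) : (germ f) ^ n = germ (f ^ n) := rfl

theorem germ_zpow (f : ℝ ≃o ℝ) (n : ℤ) : (germ f) ^ n = germ (f ^ n) := rfl

theorem germ_surjective (g : GermGroup) : ∃ f, germ f = g := QuotientGroup.mk_surjective g

theorem tendsto_oi (f : ℝ ≃o ℝ) : Tendsto f atTop atTop := f.tendsto_atTop

theorem oi_mul_apply (f g : ℝ ≃o ℝ) (x : ℝ) : (f * g) x = f (g x) := rfl

theorem oi_inv_apply (f : ℝ ≃o ℝ) (x : ℝ) : (f⁻¹) x = f.symm x := rfl

theorem oi_one_apply (x : ℝ) : (1 : ℝ ≃o ℝ) x = x := rfl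

end MP52aaf2
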