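import Pool.Agent.Lib.MP_52aaf2_al.FreeNF

namespace MP52aaf2

section Reduce

variable {G : Type} [Group G]

theorem T.conj_pow {H : Bool → Subgroup G} {i : Bool} {b g : G} (hb : b ∈ H i)
    (h : T H i b b g) (k : ℕ)
    (hk : 1 ≤ k) : ((∀ l, b⁻¹ * g ^ k * b ∈ H l) ∧ Bad H k g) ∨ T H i b b (g ^ k) := by
  obtain ⟨n, h⟩ := h
  have e : (b⁻¹ * g * b) ^ k = b⁻¹ * g ^ k * b := by
    have := _root_.conj_pow (i := k) (a := b⁻¹) (b := g)
    simpa using this
  rcases h.pow_same k hk with ⟨h1, h2⟩ | ⟨m, h1⟩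
  · rw [e] at h1
    refine Or.inl ⟨h1, ?_⟩
    have h3 := h2.conj (le_sup_all i hb)
    have e3 : b * (b⁻¹ * g * b) * b⁻¹ = g := by group
    rwa [e3] at h3
  · rw [e] at h1
    exact Or.inr ⟨m, h1⟩

theorem T.pow_diff {H : Bool → Subgroup G} {i : Bool} {a b g : G} (h : T H i a b g)
    (ha : a ∈ H i) (hb : b ∈ H i) (hc : b⁻¹ * a ∉ H (!i)) (n : ℕ) :
    T H i a b (g ^ (n + 1)) := by
  induction n with
  | zero => simpa using h
  | succ n ih =>
    rw [pow_succ]
    exact ih.mul h hb ha hc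

/-- root-closedness of the edge group passes to the vertex group inside the amalgam -/
theorem root_closed {H : Bool → Subgroup G} (hNF : NF H) (i : Bool) {n : ℕ} (hn : 1 ≤ n)
    {g : G} (hbad : ¬ Bad H n g) (hg : g ∈ H false ⊔ H true) (h : g ^ n ∈ H i) : g ∈ H i := by
  rcases T_cases i hg with h' | ⟨a, ha, b, hb, hT⟩
  · exact h'
  exfalso
  by_cases hc : b⁻¹ * a ∈ H (!i)
  · have hT' : T H i b b g := by
      refine hT.congr_left (mem_all (i := i) ((H i).mul_mem ((H i).inv_mem ha) hb) ?_)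
      have e : a⁻¹ * b = (b⁻¹ * a)⁻¹ := by group
      rw [e]
      exact (H (!i)).inv_mem hc
    rcases T.conj_pow hb hT' n hn with ⟨-, h2⟩ | h2
    · exact hbad h2
    · exact h2.not_mem hNF hb hb h
  · obtain ⟨m, rfl⟩ : ∃ m, n = m + 1 := ⟨n - 1, by omega⟩
    exact (hT.pow_diff ha hb hc m).not_mem hNF ha hb h

variable {H : Bool → Subgroup G}

/-- syntactic normal forms `c^m w'` in the free group -/
inductive SS (n : ℕ) (F' : Subgroup (FreeGroup Bool)) : FreeGroup Bool → Prop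
  | base (m : ℤ) (hm : ¬ (n : ℤ) ∣ m) (w : FreeGroup Bool) (hw : w ∈ F') :
      SS n F' (FreeGroup.of true ^ m * w)
  | step (m : ℤ) (hm : ¬ (n : ℤ) ∣ m) (k : FreeGroup Bool) (hk : k ∈ F')
      (hkc : k ∉ Subgroup.zpowers ((FreeGroup.of true : FreeGroup Bool) ^ n))
      (u : FreeGroup Bool) (hu : SS n F' u) : SS n F' (FreeGroup.of true ^ m * (k * u))

theorem SS_exhaust {n : ℕ} (hn : 2 ≤ n) (F' : Subgroup (FreeGroup Bool))
    (ha : FreeGroup.of false ∈ F') (hc : (FreeGroup.of true : FreeGroup Bool) ^ n ∈ F')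
    (w : FreeGroup Bool) : w ∈ F' ∨ ∃ k ∈ F', ∃ u, SS n F' u ∧ w = k * u := by
  have hcz : ∀ j : ℤ, (FreeGroup.of true : FreeGroup Bool) ^ ((n : ℤ) * j) ∈ F' := by
    intro j
    rw [zpow_mul, zpow_natCast]
    exact F'.zpow_mem hc j
  -- left multiplication by `c ^ ε`
  have hstep : ∀ ε : ℤ, ¬ (n : ℤ) ∣ ε → ∀ w, (w ∈ F' ∨ ∃ k ∈ F', ∃ u, SS n F' u ∧ w = k * u) →
      ((FreeGroup.of true ^ ε * w) ∈ F' ∨ ∃ k ∈ F', ∃ u, SS n F' u ∧
        FreeGroup.of true ^ ε * w = k * u) := by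
    rintro ε hε w (hw | ⟨k, hk, u, hu, rfl⟩)
    · exact Or.inr ⟨1, F'.one_mem, _, SS.base ε hε w hw, by rw [one_mul]⟩
    · by_cases hkc : k ∈ Subgroup.zpowers ((FreeGroup.of true : FreeGroup Bool) ^ n)
      · obtain ⟨j, hj⟩ := hkc
        have hk' : k = (FreeGroup.of true : FreeGroup Bool) ^ ((n : ℤ) * j) := by
          rw [← hj, zpow_mul, zpow_natCast]
        subst hk'
        cases hu with
        | base m hm w' hw' =>
          have e : (FreeGroup.of true : FreeGroup Bool) ^ ε *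
              (FreeGroup.of true ^ ((n : ℤ) * j) * (FreeGroup.of true ^ m * w')) =
              FreeGroup.of true ^ (ε + n * j + m) * w' := by
            rw [zpow_add, zpow_add]; group
          rw [e]
          by_cases hd : (n : ℤ) ∣ ε + n * j + m
          · obtain ⟨l, hl⟩ := hd
            left
            rw [hl]
            exact F'.mul_mem (hcz l) hw'
          · exact Or.inr ⟨1, F'.one_mem, _, SS.base _ hd w' hw', by rw [one_mul]⟩
        | step m hm k' hk' hkc' u' hu' =>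
          have e : (FreeGroup.of true : FreeGroup Bool) ^ ε *
              (FreeGroup.of true ^ ((n : ℤ) * j) * (FreeGroup.of true ^ m * (k' * u'))) =
              FreeGroup.of true ^ (ε + n * j + m) * (k' * u') := by
            rw [zpow_add, zpow_add]; group
          rw [e]
          by_cases hd : (n : ℤ) ∣ ε + n * j + m
          · obtain ⟨l, hl⟩ := hd
            right
            rw [hl]
            exact ⟨FreeGroup.of true ^ ((n : ℤ) * l) * k', F'.mul_mem (hcz l) hk', u', hu',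
              by rw [mul_assoc]⟩
          · exact Or.inr ⟨1, F'.one_mem, _, SS.step _ hd k' hk' hkc' u' hu', by rw [one_mul]⟩
      · exact Or.inr ⟨1, F'.one_mem, _, SS.step ε hε k hk hkc u hu, by rw [one_mul]⟩
  have hleft : ∀ x ∈ F', ∀ w, (w ∈ F' ∨ ∃ k ∈ F', ∃ u, SS n F' u ∧ w = k * u) →
      ((x * w) ∈ F' ∨ ∃ k ∈ F', ∃ u, SS n F' u ∧ x * w = k * u) := by
    rintro x hx w (hw | ⟨k, hk, u, hu, rfl⟩)
    · exact Or.inl (F'.mul_mem hx hw)
    · exact Or.inr ⟨x * k, F'.mul_mem hx hk, u, hu, by rw [mul_assoc]⟩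
  have hn1 : ¬ (n : ℤ) ∣ 1 := by
    intro h
    have := Int.le_of_dvd one_pos h
    omega
  have hn1' : ¬ (n : ℤ) ∣ -1 := by
    rw [dvd_neg]; exact hn1
  have hw : w ∈ Subgroup.closure (Set.range (FreeGroup.of : Bool → FreeGroup Bool)) := by
    rw [FreeGroup.closure_range_of]; exact Subgroup.mem_top w
  induction hw using Subgroup.closure_induction_left with
  | one => exact Or.inl F'.one_mem
  | mul_left x hx y hy ih =>
    obtain ⟨j, rfl⟩ := hx
    cases j
    · exact hleft _ ha y ih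
    · have := hstep 1 hn1 y ih
      rwa [zpow_one] at this
  | inv_mul_cancel x hx y hy ih =>
    obtain ⟨j, rfl⟩ := hx
    cases j
    · exact hleft _ (F'.inv_mem ha) y ih
    · have := hstep (-1) hn1' y ih
      rwa [zpow_neg, zpow_one] at this

open scoped commutatorElement in
/-- the metabelian word is nontrivial -/
theorem word_ne_one {v : FreeGroup Bool} {m : ℕ}
    (hv : Red (ZZ (FreeGroup.of : Bool → FreeGroup Bool)) false false m v) :
    ⁅⁅v, FreeGroup.of true⁆, ⁅v, (FreeGroup.of true : FreeGroup Bool) ^ 2⁆⁆ ≠ 1 := by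
  intro h
  set d : FreeGroup Bool := FreeGroup.of true with hd
  have hdz : ∀ z : ℤ, z ≠ 0 → Red (ZZ (FreeGroup.of : Bool → FreeGroup Bool)) true true 1 (d ^ z) :=
    fun z hz => Red.one true _ ⟨z, rfl⟩ (zpow_of_not_mem hz)
  have h0 := hv.inv
  have hw := ((((((((((((hv.append (hdz 1 (by norm_num))).append h0).append
    (hdz (-1) (by norm_num))).append hv).append (hdz 2 (by norm_num))).append h0).append
    (hdz (-1) (by norm_num))).append hv).append (hdz (-1) (by norm_num))).append h0).append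
    (hdz 2 (by norm_num))).append hv).append (hdz (-2) (by norm_num)) |>.append h0
  have e : ⁅⁅v, d⁆, ⁅v, d ^ 2⁆⁆ =
      v * d ^ (1 : ℤ) * v⁻¹ * d ^ (-1 : ℤ) * v * d ^ (2 : ℤ) * v⁻¹ * d ^ (-1 : ℤ) * v *
        d ^ (-1 : ℤ) * v⁻¹ * d ^ (2 : ℤ) * v * d ^ (-2 : ℤ) * v⁻¹ := by
    simp only [commutatorElement_def]
    group
  rw [← e, h] at hw
  exact nf_freeGroup _ _ _ hw

open scoped commutatorElement in
/-- elements of the free group generated by `α, δ` lying in a metabelian subgroup containing `δ`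
are powers of `δ`. -/
theorem centre_claim {α δ b : G} (hfree : Function.Injective (FreeGroup.lift (pair α δ)))
    {C : Subgroup G} (hmeta : ∀ x ∈ C, ∀ y ∈ C, ⁅⁅x, y⁆, ⁅x, y ^ 2⁆⁆ = 1)
    (hδ : b⁻¹ * δ * b ∈ C) {v : FreeGroup Bool}
    (hv : b⁻¹ * FreeGroup.lift (pair α δ) v * b ∈ C) :
    v ∈ Subgroup.zpowers (FreeGroup.of true : FreeGroup Bool) := by
  have hmem : v ∈ ZZ (FreeGroup.of : Bool → FreeGroup Bool) false ⊔ ZZ FreeGroup.of true := by
    have h1 : v ∈ Subgroup.closure (Set.range (FreeGroup.of : Bool → FreeGroup Bool)) := by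
      rw [FreeGroup.closure_range_of]; exact Subgroup.mem_top v
    refine (Subgroup.closure_le _).2 ?_ h1
    rintro _ ⟨j, rfl⟩
    cases j
    · exact Subgroup.mem_sup_left (Subgroup.mem_zpowers _)
    · exact Subgroup.mem_sup_right (Subgroup.mem_zpowers _)
  rcases T_cases true hmem with h | ⟨p, hp, q, hq, m, hT⟩
  · exact h
  exfalso
  set φ := FreeGroup.lift (pair α δ) with hφ
  have hconj : ∀ x ∈ ZZ (FreeGroup.of : Bool → FreeGroup Bool) true, b⁻¹ * φ x * b ∈ C := by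
    rintro _ ⟨z, rfl⟩
    have e : b⁻¹ * φ (FreeGroup.of true ^ z) * b = (b⁻¹ * δ * b) ^ z := by
      rw [map_zpow]
      have e1 : φ (FreeGroup.of true) = δ := by simp [hφ, pair]
      rw [e1]
      have := conj_zpow (i := z) (a := b⁻¹) (b := δ)
      simpa using this.symm
    change b⁻¹ * φ (FreeGroup.of true ^ z) * b ∈ C
    rw [e]
    exact C.zpow_mem hδ z
  have hT' : Red (ZZ (FreeGroup.of : Bool → FreeGroup Bool)) false false m (p⁻¹ * v * q) := hT
  have hv1 : b⁻¹ * φ (p⁻¹ * v * q) * b ∈ C := by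
    have e : b⁻¹ * φ (p⁻¹ * v * q) * b =
        (b⁻¹ * φ p * b)⁻¹ * (b⁻¹ * φ v * b) * (b⁻¹ * φ q * b) := by
      rw [map_mul, map_mul, map_inv]
      group
    rw [e]
    exact C.mul_mem (C.mul_mem (C.inv_mem (hconj p hp)) hv) (hconj q hq)
  apply word_ne_one hT'
  apply hfree
  rw [map_one]
  have h1 := hmeta _ hv1 _ hδ
  have e1 : φ (FreeGroup.of true) = δ := by simp [hφ, pair]
  set v₁ := p⁻¹ * v * q
  have e2 : ⁅⁅b⁻¹ * φ v₁ * b, b⁻¹ * δ * b⁆, ⁅b⁻¹ * φ v₁ * b, (b⁻¹ * δ * b) ^ 2⁆⁆ =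
      b⁻¹ * ⁅⁅φ v₁, δ⁆, ⁅φ v₁, δ ^ 2⁆⁆ * b := by
    simp only [commutatorElement_def, pow_two]
    group
  rw [e2] at h1
  have h3 : ⁅⁅φ v₁, δ⁆, ⁅φ v₁, δ ^ 2⁆⁆ = 1 := by
    have e3 : ⁅⁅φ v₁, δ⁆, ⁅φ v₁, δ ^ 2⁆⁆ =
        b * (b⁻¹ * ⁅⁅φ v₁, δ⁆, ⁅φ v₁, δ ^ 2⁆⁆ * b) * b⁻¹ := by group
    rw [e3, h1]
    group
  simp only [commutatorElement_def, map_mul, map_inv, map_pow, e1] at h3 ⊢
  exact h3

open scoped commutatorElement in
/-- the finite-order-modulo-`A` case -/
theorem free_of_root (hNF : NF H) (i : Bool) {α γ b : G} (hα : α ∈ H i) (hb : b ∈ H i)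
    (hT : T H i b b γ) {n : ℕ} (hn : 2 ≤ n) (hγn : γ ^ n ∈ H i)
    (hmin : ∀ m : ℕ, 1 ≤ m → m < n → γ ^ m ∉ H i)
    (hmeta : ∀ x ∈ H false ⊓ H true, ∀ y ∈ H false ⊓ H true, ⁅⁅x, y⁆, ⁅x, y ^ 2⁆⁆ = 1)
    (hfree : Function.Injective (FreeGroup.lift (pair α (γ ^ n)))) :
    Function.Injective (FreeGroup.lift (pair α γ)) := by
  set φ := FreeGroup.lift (pair α γ) with hφ
  set φ' := FreeGroup.lift (pair α (γ ^ n)) with hφ'
  let ψ : FreeGroup Bool →* FreeGroup Bool :=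
    FreeGroup.lift (pair (FreeGroup.of false) (FreeGroup.of true ^ n))
  have hφψ : ∀ v, φ (ψ v) = φ' v := by
    intro v
    have : φ.comp ψ = φ' := by
      ext j
      cases j <;> simp [φ, ψ, φ', pair]
    exact DFunLike.congr_fun this v
  set F' := ψ.range with hF'
  have hCmem : ∀ x, x ∈ H false ⊓ H true ↔ ∀ l, x ∈ H l := by
    intro x
    constructor
    · rintro ⟨h1, h2⟩ l
      cases l
      · exact h1
      · exact h2
    · intro h
      exact ⟨h false, h true⟩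
  -- `b⁻¹ γ^n b` is in the edge group
  have hδC : b⁻¹ * γ ^ n * b ∈ H false ⊓ H true := by
    rw [hCmem]
    rcases T.conj_pow hb hT n (by omega) with ⟨h1, -⟩ | h1
    · exact h1
    · exact absurd hγn (h1.not_mem hNF hb hb)
  -- values of `φ` on `F'` lie in `H i`
  have hF'i : ∀ w ∈ F', φ w ∈ H i := by
    rintro _ ⟨v, rfl⟩
    rw [hφψ]
    have h1 : φ' v ∈ Subgroup.closure (Set.range (pair α (γ ^ n))) := by
      rw [← FreeGroup.range_lift_eq_closure]
      exact ⟨v, rfl⟩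
    refine (Subgroup.closure_le _).2 ?_ h1
    rintro _ ⟨j, rfl⟩
    cases j
    · exact hα
    · exact hγn
  -- powers of `γ` not divisible by `n`
  have hpow_nat : ∀ m : ℕ, ¬ n ∣ m → γ ^ m ∉ H i := by
    intro m hm hmem
    have h1 : γ ^ (m % n) ∈ H i := by
      have e : γ ^ (m % n) = γ ^ m * ((γ ^ n) ^ (m / n))⁻¹ := by
        rw [eq_mul_inv_iff_mul_eq, ← pow_mul, ← pow_add, Nat.mod_add_div]
      rw [e]
      exact (H i).mul_mem hmem ((H i).inv_mem ((H i).pow_mem hγn _))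
    have h2 : 1 ≤ m % n := by
      rcases Nat.eq_zero_or_pos (m % n) with h | h
      · exact absurd (Nat.dvd_of_mod_eq_zero h) hm
      · exact h
    exact hmin _ h2 (Nat.mod_lt _ (by omega)) h1
  have hTnat : ∀ m : ℕ, ¬ n ∣ m → T H i b b (γ ^ m) := by
    intro m hm
    have hm1 : 1 ≤ m := by
      rcases Nat.eq_zero_or_pos m with h | h
      · subst h; exact absurd (dvd_zero n) hm
      · exact h
    rcases T.conj_pow hb hT m hm1 with ⟨h1, -⟩ | h1
    · exfalso
      apply hpow_nat m hm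
      have e : γ ^ m = b * (b⁻¹ * γ ^ m * b) * b⁻¹ := by group
      rw [e]
      exact (H i).mul_mem ((H i).mul_mem hb (h1 i)) ((H i).inv_mem hb)
    · exact h1
  have hTz : ∀ m : ℤ, ¬ (n : ℤ) ∣ m → T H i b b (γ ^ m) := by
    intro m hm
    have hm' : ¬ n ∣ m.natAbs := by
      intro h
      exact hm (Int.natCast_dvd.2 h)
    rcases le_or_gt 0 m with h | h
    · have := hTnat m.natAbs hm'
      have e : γ ^ m = γ ^ m.natAbs := by
        rw [← zpow_natCast]; congr 1; omega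
      rwa [e]
    · have := (hTnat m.natAbs hm').inv
      have e : γ ^ m = (γ ^ m.natAbs)⁻¹ := by
        rw [← zpow_natCast, ← zpow_neg]; congr 1; omega
      rwa [e]
  -- the key non-membership
  have hkey : ∀ k ∈ F', k ∉ Subgroup.zpowers ((FreeGroup.of true : FreeGroup Bool) ^ n) →
      b⁻¹ * (φ k * b) ∉ H (!i) := by
    rintro _ ⟨v, rfl⟩ hk hmem
    apply hk
    have h1 : b⁻¹ * φ' v * b ∈ H false ⊓ H true := by
      rw [hCmem]
      rw [← hφψ, mul_assoc]
      refine mem_all (i := i) ?_ hmem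
      exact (H i).mul_mem ((H i).inv_mem hb) ((H i).mul_mem (hF'i _ ⟨v, rfl⟩) hb)
    obtain ⟨z, hz⟩ := centre_claim hfree hmeta hδC h1
    refine ⟨z, ?_⟩
    change (FreeGroup.of true : FreeGroup Bool) ^ z = v at hz
    change ((FreeGroup.of true : FreeGroup Bool) ^ n) ^ z = ψ v
    rw [← hz, map_zpow]
    congr 1
    simp [ψ, pair]
  -- semantic content of `SS`
  have hφc : ∀ m : ℤ, φ (FreeGroup.of true ^ m) = γ ^ m := by
    intro m
    rw [map_zpow]
    congr 1
    simp [φ, pair]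
  have hSS : ∀ u, SS n F' u → ∃ b' ∈ H i, T H i b b' (φ u) := by
    intro u hu
    induction hu with
    | base m hm w hw =>
      refine ⟨(φ w)⁻¹ * b, (H i).mul_mem ((H i).inv_mem (hF'i w hw)) hb, ?_⟩
      rw [map_mul, hφc]
      exact (hTz m hm).mul_right (φ w)
    | step m hm k hk hkc u hu ih =>
      obtain ⟨b', hb', ih⟩ := ih
      refine ⟨b', hb', ?_⟩
      rw [map_mul, map_mul, hφc]
      exact (hTz m hm).mul (ih.mul_left (φ k)) hb ((H i).mul_mem (hF'i k hk) hb) (hkey k hk hkc)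
  have haF : FreeGroup.of false ∈ F' := ⟨FreeGroup.of false, by simp [ψ, pair]⟩
  have hcF : (FreeGroup.of true : FreeGroup Bool) ^ n ∈ F' :=
    ⟨FreeGroup.of true, by simp [ψ, pair]⟩
  rw [injective_iff_map_eq_one]
  intro w hw
  rcases SS_exhaust hn F' haF hcF w with ⟨v, rfl⟩ | ⟨k, hk, u, hu, rfl⟩
  · rw [hφψ] at hw
    have : v = 1 := hfree (by rw [hw, map_one])
    rw [this, map_one]
  · exfalso
    obtain ⟨b', hb', h1⟩ := hSS u hu
    have h2 := h1.mul_left (φ k)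
    rw [← map_mul, hw] at h2
    exact h2.not_mem hNF ((H i).mul_mem (hF'i k hk) hb) hb' (H i).one_mem

open scoped commutatorElement in
/-- **Reduction theorem** (abstract form). -/
theorem free_dichotomy (hNF : NF H) (i : Bool) {α β : G} (hα : α ∈ H i)
    (hβ : β ∈ H false ⊔ H true) (hβi : β ∉ H i)
    (hαc : ∀ n : ℤ, n ≠ 0 → ∀ a ∈ H i, a⁻¹ * α ^ n * a ∉ H (!i))
    (hmeta : ∀ x ∈ H false ⊓ H true, ∀ y ∈ H false ⊓ H true, ⁅⁅x, y⁆, ⁅x, y ^ 2⁆⁆ = 1) :
    Function.Injective (FreeGroup.lift (pair α β)) ∨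
      ∃ k : ℤ, ∃ n : ℕ, 2 ≤ n ∧ Bad H n (α ^ k * β) ∧ (α ^ k * β) ^ n ∈ H i ∧
        (Function.Injective (FreeGroup.lift (pair α β)) ↔
          Function.Injective (FreeGroup.lift (pair α ((α ^ k * β) ^ n)))) := by
  by_cases h0 : ∀ k : ℤ, ∀ n : ℕ, 1 ≤ n → (α ^ k * β) ^ n ∉ H i
  · exact Or.inl (free_main hNF i hα hβ hαc h0)
  right
  push Not at h0
  obtain ⟨k, n₀, hn₀, hmem⟩ := h0
  set γ := α ^ k * β with hγ
  have hK : H i ≤ H false ⊔ H true := le_sup_all i
  have hγK : γ ∈ H false ⊔ H true := Subgroup.mul_mem _ (hK ((H i).zpow_mem hα k)) hβ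
  have hγi : γ ∉ H i := by
    intro hcon
    apply hβi
    have e : β = (α ^ k)⁻¹ * γ := by rw [hγ]; group
    rw [e]
    exact (H i).mul_mem ((H i).inv_mem ((H i).zpow_mem hα k)) hcon
  classical
  -- minimal exponent
  have hex : ∃ n : ℕ, 1 ≤ n ∧ γ ^ n ∈ H i := ⟨n₀, hn₀, hmem⟩
  obtain ⟨h1, h2⟩ := Nat.find_spec hex
  set n := Nat.find hex with hn
  have hmin : ∀ m : ℕ, 1 ≤ m → m < n → γ ^ m ∉ H i := by
    intro m hm1 hm2 hcon
    exact Nat.find_min hex hm2 ⟨hm1, hcon⟩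
  have hn2 : 2 ≤ n := by
    by_contra hlt
    have : n = 1 := by omega
    rw [this, pow_one] at h2
    exact hγi h2
  rcases T_cases i hγK with h3 | ⟨a, ha, b, hb, hT⟩
  · exact absurd h3 hγi
  have hc : b⁻¹ * a ∈ H (!i) := by
    by_contra hc
    have h4 := hT.pow_diff ha hb hc (n - 1)
    rw [Nat.sub_add_cancel h1] at h4
    exact h4.not_mem hNF ha hb h2
  have hT' : T H i b b γ := by
    refine hT.congr_left (mem_all (i := i) ((H i).mul_mem ((H i).inv_mem ha) hb) ?_)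
    have e : a⁻¹ * b = (b⁻¹ * a)⁻¹ := by group
    rw [e]
    exact (H (!i)).inv_mem hc
  have hbad : Bad H n γ := by
    rcases T.conj_pow hb hT' n h1 with ⟨-, h5⟩ | h5
    · exact h5
    · exact absurd h2 (h5.not_mem hNF hb hb)
  refine ⟨k, n, hn2, hbad, h2, ?_, ?_⟩
  · intro h
    apply free_pow ?_ h1
    apply free_of_shift (-k)
    have e : α ^ (-k) * γ = β := by rw [hγ]; group
    rwa [e]
  · intro h
    apply free_of_shift k
    exact free_of_root hNF i hα hb hT' hn2 h2 hmin hmeta h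

end Reduce

end MP52aaf2
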