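import Pool.Agent.Lib.MP_52aaf2_al.Roots
import Pool.Agent.Lib.MP_52aaf2_al.Reduce

open Filter Topology Polynomial

namespace MP52aaf2

/-- The subgroup generated by all algebraic germs and the power germs `x ^ r`, `r ∈ S`. -/
def algPow (S : Set ℝ) : Subgroup GermGroup :=
  Subgroup.closure ({g | IsAlgGerm g} ∪ {g | ∃ r ∈ S, IsMonGerm 1 r g})

/-- `a` and `b` freely generate the subgroup `⟨a, b⟩`. -/
def FreePair (a b : GermGroup) : Prop := Function.Injective (FreeGroup.lift ![a, b])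

theorem freePair_iff {a b : GermGroup} :
    FreePair a b ↔ Function.Injective (FreeGroup.lift (pair a b)) := by
  let e : FreeGroup Bool ≃* FreeGroup (Fin 2) := FreeGroup.freeGroupCongr finTwoEquiv.symm
  have h1 : (FreeGroup.lift ![a, b]).comp e.toMonoidHom = FreeGroup.lift (pair a b) := by
    ext i
    cases i
    · simp [e, pair]
      rfl
    · simp [e, pair]
      rfl
  unfold FreePair
  rw [← h1, MonoidHom.coe_comp]
  constructor
  · intro h
    exact h.comp e.injective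
  · intro h x y hxy
    have h2 : e.symm x = e.symm y := h (by simpa using hxy)
    exact e.symm.injective h2

theorem FreePair.equiv {a b : GermGroup} (h : FreePair a b) :
    Nonempty (FreeGroup (Fin 2) ≃* Subgroup.closure {a, b}) := by
  have e1 : (FreeGroup.lift ![a, b]).range = Subgroup.closure {a, b} := by
    rw [FreeGroup.range_lift_eq_closure]
    congr 1
    ext x
    simp [eq_comm, or_comm]
  have e2 : FreeGroup (Fin 2) ≃* (FreeGroup.lift ![a, b]).range :=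
    MonoidHom.ofInjective h
  rw [e1] at e2
  exact ⟨e2⟩

/-- a power germ is determined by its data -/
theorem monGerm_unique {c r : ℝ} {g g' : GermGroup} (h : IsMonGerm c r g)
    (h' : IsMonGerm c r g') : g = g' := by
  obtain ⟨f, rfl, hf⟩ := h
  obtain ⟨f', rfl, hf'⟩ := h'
  rw [germ_eq_iff]
  filter_upwards [hf, hf'] with x h1 h2
  rw [h1, h2]

theorem monGerm_mul {c r c' r' : ℝ} (hc' : 0 < c') {g g' : GermGroup}
    (h : IsMonGerm c r g) (h' : IsMonGerm c' r' g') :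
    IsMonGerm (c * c' ^ r) (r' * r) (g * g') := by
  obtain ⟨f, rfl, hf⟩ := h
  obtain ⟨f', rfl, hf'⟩ := h'
  refine ⟨f * f', rfl, ?_⟩
  filter_upwards [(tendsto_oi f').eventually hf, hf', eventually_gt_atTop (0 : ℝ)] with x h1 h2 h3
  rw [oi_mul_apply, h1, h2, Real.mul_rpow hc'.le (Real.rpow_nonneg h3.le _),
    ← Real.rpow_mul h3.le]
  ring

theorem monGerm_inv {c r : ℝ} (hc : 0 < c) (hr : 0 < r) {g : GermGroup} (h : IsMonGerm c r g) :
    IsMonGerm (c⁻¹ ^ (r⁻¹)) (r⁻¹) g⁻¹ := by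
  obtain ⟨f, rfl, hf⟩ := h
  exact ⟨f⁻¹, rfl, symm_power hc hr hf⟩

theorem monGerm_pow {c r : ℝ} (hc : 0 < c) {g : GermGroup} (h : IsMonGerm c r g)
    (n : ℕ) : ∃ c' > 0, IsMonGerm c' (r ^ n) (g ^ n) := by
  induction n with
  | zero =>
    refine ⟨1, one_pos, 1, by rw [pow_zero]; rfl, Eventually.of_forall fun x => ?_⟩
    simp [oi_one_apply]
  | succ n ih =>
    obtain ⟨c', hc', h'⟩ := ih
    refine ⟨c' * c ^ (r ^ n), mul_pos hc' (Real.rpow_pos_of_pos hc _), ?_⟩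
    have := monGerm_mul hc h' h
    rw [pow_succ, pow_succ, mul_comm (r ^ n) r]
    exact this

open scoped commutatorElement in
/-- commutators of power germs are scalings -/
theorem commutator_scaling {c r c' r' : ℝ} (hc : 0 < c) (hr : 0 < r) (hc' : 0 < c') (hr' : 0 < r')
    {g g' : GermGroup} (h : IsMonGerm c r g) (h' : IsMonGerm c' r' g') :
    ∃ s > 0, IsMonGerm s 1 ⁅g, g'⁆ := by
  have h1 := monGerm_mul hc' h h'
  have h2 := monGerm_mul (Real.rpow_pos_of_pos (inv_pos.2 hc) _) h1 (monGerm_inv hc hr h)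
  have h3 := monGerm_mul (Real.rpow_pos_of_pos (inv_pos.2 hc') _) h2 (monGerm_inv hc' hr' h')
  have e : r'⁻¹ * (r⁻¹ * (r' * r)) = 1 := by field_simp
  rw [e] at h3
  refine ⟨_, ?_, h3⟩
  positivity

open scoped commutatorElement in
theorem mon_meta {Θ : Subgroup ℝˣ} : ∀ x ∈ MonG Θ, ∀ y ∈ MonG Θ, ⁅⁅x, y⁆, ⁅x, y ^ 2⁆⁆ = 1 := by
  rintro x ⟨c, r, hc, hr, -, hx⟩ y hy
  obtain ⟨c₂, r₂, hc₂, hr₂, -, hy2⟩ := (MonG Θ).pow_mem hy 2
  obtain ⟨c', r', hc', hr', -, hy⟩ := hy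
  obtain ⟨s, hs, h1⟩ := commutator_scaling hc hr hc' hr' hx hy
  obtain ⟨t, ht, h2⟩ := commutator_scaling hc hr hc₂ hr₂ hx hy2
  rw [commutatorElement_eq_one_iff_mul_comm]
  have h3 := monGerm_mul ht h1 h2
  have h4 := monGerm_mul hs h2 h1
  rw [Real.rpow_one] at h3 h4
  rw [mul_comm t s] at h4
  exact monGerm_unique h3 h4

theorem alpha_alg : alpha ∈ AlgG := by
  refine ⟨OrderIso.addRight (1 : ℝ), rfl, ?_, ?_⟩
  · refine ⟨Eventually.of_forall fun x => ?_, X - C (X + 1), X_sub_C_ne_zero _,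
      Eventually.of_forall fun x => by simp [evalEval]⟩
    exact analyticAt_id.add analyticAt_const
  · refine ⟨Eventually.of_forall fun x => ?_, X - C (X - 1), X_sub_C_ne_zero _,
      Eventually.of_forall fun x => ?_⟩
    · exact analyticAt_id.add analyticAt_const
    · simp [evalEval]

/-- The multiplicative group generated by `S` and the positive rational numbers. -/
def expGroup (S : Set ℝ) : Subgroup ℝˣ :=
  Subgroup.closure {u | (u : ℝ) ∈ S ∨ ∃ q : ℚ, 0 < q ∧ (q : ℝ) = u}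

theorem exists_rat_expGroup (S : Set ℝ) : ∀ q : ℚ, 0 < q → ∃ u ∈ expGroup S, (u : ℝ) = q := by
  intro q hq
  exact ⟨Units.mk0 (q : ℝ) (by exact_mod_cast hq.ne'),
    Subgroup.subset_closure (Or.inr ⟨q, hq, rfl⟩), rfl⟩

theorem algPow_le {S : Set ℝ} (hS : ∀ r ∈ S, 0 < r) :
    algPow S ≤ AlgG ⊔ MonG (expGroup S) := by
  rw [algPow, Subgroup.closure_le]
  rintro g (hg | ⟨r, hr, hg⟩)
  · exact Subgroup.mem_sup_left hg
  · exact Subgroup.mem_sup_right ⟨1, r, one_pos, hS r hr, ⟨Units.mk0 r (hS r hr).ne',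
      Subgroup.subset_closure (Or.inl hr), rfl⟩, hg⟩

theorem expGroup_mem {S : Set ℝ} (hS : ∀ r ∈ S, 0 < r) {u : ℝˣ} (hu : u ∈ expGroup S) :
    0 < (u : ℝ) ∧ ∀ m, IsMonGerm 1 u m → m ∈ algPow S := by
  induction hu using Subgroup.closure_induction with
  | mem u hu =>
    rcases hu with hu | ⟨q, hq, hqu⟩
    · exact ⟨hS _ hu, fun m hm => Subgroup.subset_closure (Or.inr ⟨_, hu, hm⟩)⟩
    · have hu0 : (0 : ℝ) < u := by rw [← hqu]; exact_mod_cast hq
      refine ⟨hu0, ?_⟩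
      rintro _ ⟨f, rfl, hf⟩
      exact Subgroup.subset_closure (Or.inl (alg_of_rational one_pos hu0 hf hqu))
  | one =>
    refine ⟨by simp, ?_⟩
    intro m hm
    have h1 : IsMonGerm 1 ((1 : ℝˣ) : ℝ) 1 := ⟨1, rfl, Eventually.of_forall fun x => by
      simp [oi_one_apply]⟩
    rw [monGerm_unique hm h1]
    exact Subgroup.one_mem _
  | mul u v _ _ hu hv =>
    refine ⟨by rw [Units.val_mul]; exact mul_pos hu.1 hv.1, ?_⟩
    intro m hm
    have h1 := monGerm_mul one_pos (isMonGerm_powIso one_pos hv.1) (isMonGerm_powIso one_pos hu.1)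
    rw [Real.one_rpow, mul_one] at h1
    rw [Units.val_mul] at hm
    rw [monGerm_unique hm h1]
    exact Subgroup.mul_mem _ (hv.2 _ (isMonGerm_powIso one_pos hv.1))
      (hu.2 _ (isMonGerm_powIso one_pos hu.1))
  | inv u _ hu =>
    have hu' : (0 : ℝ) < ((u⁻¹ : ℝˣ) : ℝ) := by
      rw [Units.val_inv_eq_inv_val]; exact inv_pos.2 hu.1
    refine ⟨hu', ?_⟩
    intro m hm
    have h1 := monGerm_inv one_pos hu.1 (isMonGerm_powIso one_pos hu.1)
    rw [inv_one, Real.one_rpow] at h1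
    rw [Units.val_inv_eq_inv_val] at hm
    rw [monGerm_unique hm h1]
    exact Subgroup.inv_mem _ (hu.2 _ (isMonGerm_powIso one_pos hu.1))

theorem le_algPow {S : Set ℝ} (hS : ∀ r ∈ S, 0 < r) :
    AlgG ⊔ MonG (expGroup S) ≤ algPow S := by
  refine sup_le (fun g hg => Subgroup.subset_closure (Or.inl hg)) ?_
  rintro g ⟨c, r, hc, hr, ⟨u, hu, rfl⟩, hg⟩
  -- `c x ^ u = (c x) ∘ x ^ u`
  have h1 := isMonGerm_powIso one_pos hr
  have h2 := isMonGerm_powIso hc one_pos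
  have h3 := monGerm_mul one_pos h2 h1
  rw [Real.one_rpow, mul_one, mul_one] at h3
  rw [monGerm_unique hg h3]
  refine Subgroup.mul_mem _ ?_ ((expGroup_mem hS hu).2 _ h1)
  obtain ⟨f, hf, hf'⟩ := h2
  rw [← hf]
  exact Subgroup.subset_closure (Or.inl (alg_of_rational hc one_pos hf' (q := 1) (by simp)))

/-- **Main theorem.** -/
theorem main_dichotomy {S : Set ℝ} (hS : ∀ s ∈ S, 0 < s) {β : GermGroup} (hβ : β ∈ algPow S)
    (hna : ¬ IsAlgGerm β) :
    FreePair alpha β ∨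
      ∃ (k : ℤ) (n : ℕ) (c r : ℝ) (g m : GermGroup), 2 ≤ n ∧ 0 < c ∧ 0 < r ∧
        (∃ u ∈ expGroup S, (u : ℝ) = r) ∧ Irrational r ∧ (∃ q : ℚ, (q : ℝ) = r ^ n) ∧
        g ∈ algPow S ∧ IsMonGerm c r m ∧ alpha ^ k * β = g * m * g⁻¹ ∧
        IsAlgGerm ((alpha ^ k * β) ^ n) ∧
        (FreePair alpha β ↔ FreePair alpha ((alpha ^ k * β) ^ n)) := by
  have hQ := exists_rat_expGroup S
  have hmem : β ∈ HH (expGroup S) false ⊔ HH (expGroup S) true := algPow_le hS hβ
  rcases free_dichotomy (nf_HH hQ) false (α := alpha) (β := β) alpha_alg hmem hna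
    (fun n hn a ha => no_conj hn ha)
    (fun x hx y hy => mon_meta (Θ := expGroup S) x hx.2 y hy.2) with h | ⟨k, n, hn, hbad, hA, hiff⟩
  · exact Or.inl (freePair_iff.2 h)
  right
  obtain ⟨l, x, hx, hxc, hxn, y, hy, hconj⟩ := hbad
  have hn1 : 1 ≤ n := by omega
  cases l
  · -- an algebraic root of a power germ is a power germ
    exfalso
    have hx' : x ∈ AlgG := hx
    apply hxc
    change x ∈ MonG (expGroup S)
    have hxn' : x ^ n ∈ MonG ⊤ := by
      obtain ⟨c, r, hc, hr, ⟨u, -, hu⟩, h⟩ := hxn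
      exact ⟨c, r, hc, hr, ⟨u, Subgroup.mem_top _, hu⟩, h⟩
    obtain ⟨c, r, hc, hr, -, f, rfl, hf⟩ := root_alg hx' hn1 hxn'
    obtain ⟨q, hq⟩ := rational_of_alg hc hf hx'
    have hq0 : 0 < q := by
      have : (0 : ℝ) < q := by rw [hq]; exact hr
      exact_mod_cast this
    exact ⟨c, r, hc, hr, by rw [← hq]; exact hQ q hq0, f, rfl, hf⟩
  · have hx' : x ∈ MonG (expGroup S) := hx
    have hxn' : x ^ n ∈ AlgG := hxn
    obtain ⟨c, r, hc, hr, hu, hm⟩ := hx'
    refine ⟨k, n, c, r, y, x, hn, hc, hr, hu, ?_, ?_, le_algPow hS hy, hm, hconj, hA, ?_⟩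
    · rintro ⟨q, hq⟩
      apply hxc
      obtain ⟨g, rfl, hg⟩ := hm
      exact alg_of_rational hc hr hg hq
    · obtain ⟨c', hc', f, hf, hfn⟩ := monGerm_pow hc hm n
      rw [← hf] at hxn'
      exact rational_of_alg hc' hfn hxn'
    · rw [freePair_iff, freePair_iff]
      exact hiff

/-- **Corollary.** -/
theorem main_free {S : Set ℝ} (hS : ∀ s ∈ S, 0 < s)
    (hroot : ∀ u ∈ expGroup S, ∀ n : ℕ, 2 ≤ n → (∃ q : ℚ, (q : ℝ) = (u : ℝ) ^ n) →
      ∃ q : ℚ, (q : ℝ) = u)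
    {β : GermGroup} (hβ : β ∈ algPow S) (hna : ¬ IsAlgGerm β) : FreePair alpha β := by
  rcases main_dichotomy hS hβ hna with h | ⟨k, n, c, r, g, m, hn, hc, hr, ⟨u, hu, rfl⟩, hirr, hq, -⟩
  · exact h
  · exact absurd (hroot u hu n hn hq) hirr

end MP52aaf2
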