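import Pool.Agent.Lib.MP_52aaf2_al.PingPong

namespace MP52aaf2

open Monoid

section FreeNF

/-- the two cyclic subgroups generated by a pair -/
def ZZ {G : Type} [Group G] (a : Bool → G) : Bool → Subgroup G := fun i => Subgroup.zpowers (a i)

theorem neWord_prod_ne_one {ι : Type} {M : ι → Type} [∀ i, Group (M i)] {i j : ι}
    (w : CoprodI.NeWord M i j) : w.prod ≠ 1 := by
  classical
  intro h
  have h1 : w.toWord.prod = (CoprodI.Word.empty : CoprodI.Word M).prod := by
    rw [CoprodI.Word.prod_empty]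
    exact h
  have h2 : w.toWord = CoprodI.Word.empty := CoprodI.Word.equiv.symm.injective h1
  exact w.toList_ne_nil (congrArg CoprodI.Word.toList h2)

theorem red_neWord {i j : Bool} {n : ℕ} {w : FreeGroup Bool}
    (h : Red (ZZ (FreeGroup.of : Bool → FreeGroup Bool)) i j n w) :
    ∃ N : CoprodI.NeWord (fun _ : Bool => FreeGroup Unit) i j,
      N.prod = freeGroupEquivCoprodI w := by
  have hsing : ∀ (i : Bool) (g : FreeGroup Bool), g ∈ ZZ FreeGroup.of i → g ∉ ZZ FreeGroup.of (!i) →
      ∃ x : FreeGroup Unit, x ≠ 1 ∧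
        @CoprodI.of Bool (fun _ => FreeGroup Unit) _ i x = freeGroupEquivCoprodI g := by
    intro i g hg hgc
    obtain ⟨k, rfl⟩ := hg
    have hk : k ≠ 0 := by
      rintro rfl
      apply hgc
      simp [ZZ]
    refine ⟨FreeGroup.of () ^ k, ?_, ?_⟩
    · intro h
      have h1 := congrArg FreeGroup.freeGroupUnitEquivInt h
      have h2 : FreeGroup.freeGroupUnitEquivInt (FreeGroup.of () ^ k) = k := by
        have := FreeGroup.freeGroupUnitEquivInt.apply_symm_apply k
        exact this
      rw [h2] at h1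
      apply hk
      rw [h1]
      rfl
    · simp
  induction h with
  | one i g hg hgc =>
    obtain ⟨x, hx, hxe⟩ := hsing i g hg hgc
    exact ⟨CoprodI.NeWord.singleton x hx, by rw [CoprodI.NeWord.prod_singleton, hxe]⟩
  | cons i j n x g hx hxc hg ih =>
    obtain ⟨y, hy, hye⟩ := hsing i x hx hxc
    obtain ⟨N, hN⟩ := ih
    refine ⟨CoprodI.NeWord.append (CoprodI.NeWord.singleton y hy) (by cases i <;> simp) N, ?_⟩
    rw [CoprodI.NeWord.append_prod, CoprodI.NeWord.prod_singleton, hye, hN, map_mul]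

theorem nf_freeGroup : NF (ZZ (FreeGroup.of : Bool → FreeGroup Bool)) := by
  intro i j n h
  obtain ⟨N, hN⟩ := red_neWord h
  rw [map_one] at hN
  exact neWord_prod_ne_one N hN

variable {G : Type} [Group G]

theorem nf_of_free {a : Bool → G} (h : Function.Injective (FreeGroup.lift a)) : NF (ZZ a) := by
  have hmem : ∀ i w, FreeGroup.lift a w ∈ ZZ a i ↔ w ∈ ZZ FreeGroup.of i := by
    intro i w
    constructor
    · rintro ⟨k, hk⟩
      refine ⟨k, h ?_⟩
      rw [← hk]
      simp
    · rintro ⟨k, rfl⟩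
      exact ⟨k, by simp⟩
  have key : ∀ i j n g, Red (ZZ a) i j n g →
      ∃ w, FreeGroup.lift a w = g ∧ Red (ZZ FreeGroup.of) i j n w := by
    intro i j n g hg
    induction hg with
    | one i g hg hgc =>
      obtain ⟨k, rfl⟩ := hg
      have e : FreeGroup.lift a (FreeGroup.of i ^ k) = (fun x => a i ^ x) k := by simp
      refine ⟨FreeGroup.of i ^ k, e, Red.one i _ ⟨k, rfl⟩ ?_⟩
      intro hcon
      apply hgc
      rw [← e]
      exact (hmem _ _).2 hcon
    | cons i j n x g hx hxc hg ih =>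
      obtain ⟨k, rfl⟩ := hx
      obtain ⟨w, rfl, hw⟩ := ih
      have e : FreeGroup.lift a (FreeGroup.of i ^ k) = (fun x => a i ^ x) k := by simp
      refine ⟨FreeGroup.of i ^ k * w, by rw [map_mul, e], Red.cons i _ _ _ _ ⟨k, rfl⟩ ?_ hw⟩
      intro hcon
      apply hxc
      rw [← e]
      exact (hmem _ _).2 hcon
  intro i j n hg
  obtain ⟨w, hw, hr⟩ := key _ _ _ _ hg
  have : w = 1 := h (by rw [hw, map_one])
  subst this
  exact nf_freeGroup _ _ _ hr

/-- two elements of infinite order in the two factors generate a free group -/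
theorem free_of_nf {H : Bool → Subgroup G} (hNF : NF H) {a : Bool → G} (ha : ∀ i, a i ∈ H i)
    (hpow : ∀ i, ∀ n : ℤ, n ≠ 0 → a i ^ n ∉ H (!i)) : Function.Injective (FreeGroup.lift a) := by
  apply free_of_pingpong a (fun i => {g | ∃ j n, Red H i j n g})
  · intro i
    exact ⟨a i, i, 1, Red.one i _ (ha i) (by simpa using hpow i 1 one_ne_zero)⟩
  · rw [Set.disjoint_left]
    rintro g ⟨j, n, h⟩ ⟨j', n', h'⟩
    exact absurd (hNF.left_eq h h') (by simp)
  · rintro n hn g ⟨j, m, h⟩
    exact ⟨j, m + 1, Red.cons false j m _ _ ((H false).zpow_mem (ha false) n)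
      (hpow false n hn) h⟩
  · rintro n hn g ⟨j, m, h⟩
    exact ⟨j, m + 1, Red.cons true j m _ _ ((H true).zpow_mem (ha true) n)
      (hpow true n hn) h⟩

theorem zpow_of_not_mem {i : Bool} {n : ℤ} (hn : n ≠ 0) :
    (FreeGroup.of i : FreeGroup Bool) ^ n ∉ ZZ (FreeGroup.of : Bool → FreeGroup Bool) (!i) := by
  rintro ⟨k, hk⟩
  -- abelianise
  let φ : FreeGroup Bool →* Multiplicative ℤ :=
    FreeGroup.lift (fun j => if j = i then Multiplicative.ofAdd 1 else 1)
  have h1 := congrArg φ hk
  simp only [map_zpow, φ, FreeGroup.lift_apply_of] at h1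
  have h2 : (!i) ≠ i := by cases i <;> simp
  rw [if_neg h2, if_pos trivial, one_zpow] at h1
  have h3 := congrArg Multiplicative.toAdd h1
  simp at h3
  exact hn h3.symm

/-- subpairs of a free pair -/
theorem free_pow {α γ : G} (h : Function.Injective (FreeGroup.lift (pair α γ))) {n : ℕ}
    (hn : 1 ≤ n) : Function.Injective (FreeGroup.lift (pair α (γ ^ n))) := by
  have hNF := nf_of_free h
  have hz : ∀ i, ∀ m : ℤ, m ≠ 0 → (pair α γ i) ^ m ∉ ZZ (pair α γ) (!i) := by
    rintro i m hm ⟨k, hk⟩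
    apply zpow_of_not_mem (i := i) hm
    refine ⟨k, h ?_⟩
    simpa using hk
  apply free_of_nf hNF
  · intro i
    cases i
    · exact ⟨1, by simp [pair]⟩
    · exact ⟨n, by simp [pair]⟩
  · intro i m hm
    cases i
    · exact hz false m hm
    · have h1 := hz true (n * m) (mul_ne_zero (by exact_mod_cast (by omega : n ≠ 0)) hm)
      have e : (pair α (γ ^ n) true) ^ m = (pair α γ true) ^ ((n : ℤ) * m) := by
        simp only [pair, cond_true]
        rw [zpow_mul, zpow_natCast]
      rw [e]
      exact h1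

end FreeNF

end MP52aaf2
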