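import Pool.Agent.Lib.MP_52aaf2_al.Amalgam

namespace MP52aaf2

open scoped Pointwise
open Monoid

section PP

variable {G : Type} [Group G]

/-- ping-pong for two cyclic subgroups (possibly with common attracting sets of both signs). -/
theorem free_of_pingpong (a : Bool → G) (X : Bool → Set G) (hne : ∀ i, (X i).Nonempty)
    (hdisj : Disjoint (X false) (X true))
    (h1 : ∀ n : ℤ, n ≠ 0 → ∀ g ∈ X true, a false ^ n * g ∈ X false)
    (h2 : ∀ n : ℤ, n ≠ 0 → ∀ g ∈ X false, a true ^ n * g ∈ X true) :
    Function.Injective (FreeGroup.lift a) := by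
  have : FreeGroup.lift a =
      (CoprodI.lift fun i => FreeGroup.lift fun _ => a i).comp
        (@freeGroupEquivCoprodI Bool).toMonoidHom := by
    ext i
    simp
  rw [this, MonoidHom.coe_comp]
  clear this
  refine Function.Injective.comp ?_ (MulEquiv.injective freeGroupEquivCoprodI)
  change Function.Injective (CoprodI.lift fun i : Bool => FreeGroup.lift fun _ => a i)
  let Hh : Bool → Type := fun _i => FreeGroup Unit
  let f : ∀ i, Hh i →* G := fun i => FreeGroup.lift fun _ => a i
  apply CoprodI.lift_injective_of_ping_pong f _ X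
  · exact hne
  · intro i j hij
    change Disjoint (X i) (X j)
    cases i <;> cases j
    · exact absurd rfl hij
    · exact hdisj
    · exact hdisj.symm
    · exact absurd rfl hij
  · change Pairwise fun i j => ∀ h : Hh i, h ≠ 1 → f i h • X j ⊆ X i
    rintro i j hij
    refine FreeGroup.freeGroupUnitEquivInt.forall_congr_left.mpr ?_
    intro n hne1
    change FreeGroup.lift (fun _ => a i) (FreeGroup.of () ^ n) • X j ⊆ X i
    simp only [map_zpow, FreeGroup.lift_apply_of]
    change a i ^ n • X j ⊆ X i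
    have hnne0 : n ≠ 0 := by
      rintro rfl
      apply hne1
      simp [Hh, FreeGroup.freeGroupUnitEquivInt]
    rintro _ ⟨g, hg, rfl⟩
    change a i ^ n * g ∈ X i
    cases i <;> cases j
    · exact absurd rfl hij
    · exact h1 n hnne0 g hg
    · exact h2 n hnne0 g hg
    · exact absurd rfl hij
  show _ ∨ ∃ i, 3 ≤ Cardinal.mk (Hh i)
  right
  refine ⟨true, ?_⟩
  simp only [Hh]
  rw [FreeGroup.freeGroupUnitEquivInt.cardinal_eq, Cardinal.mk_denumerable]
  exact Cardinal.natCast_le_aleph0

/-- the two generators as a family indexed by `Bool` -/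
def pair (α β : G) : Bool → G := fun i => bif i then β else α

theorem free_of_directions {H : Bool → Subgroup G} (hNF : NF H) (i : Bool) {α β : G}
    (hα : α ∈ H i) (E : Set G) (hE : ∀ e ∈ E, e ∈ H i)
    (h1 : ∀ e ∈ E, ∀ e' ∈ E, ∀ n : ℤ, n ≠ 0 → e⁻¹ * α ^ n * e' ∉ H (!i))
    (h2 : ∀ n : ℤ, n ≠ 0 → ∃ e ∈ E, ∃ e' ∈ E, T H i e e' (β ^ n)) :
    Function.Injective (FreeGroup.lift (pair α β)) := by
  have hK : ∀ j, H j ≤ H false ⊔ H true := by
    intro j; cases j
    · exact le_sup_left
    · exact le_sup_right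
  let X : Bool → Set G := fun j => bif j
    then {g | ∃ e ∈ E, ∃ b ∈ H i, T H i e b g}
    else {g | g ∈ H false ⊔ H true ∧ ¬ ∃ e ∈ E, ∃ b ∈ H i, T H i e b g}
  have hXt : ∀ g, g ∈ X true ↔ ∃ e ∈ E, ∃ b ∈ H i, T H i e b g := fun g => Iff.rfl
  have hXf : ∀ g, g ∈ X false ↔ (g ∈ H false ⊔ H true ∧ ¬ ∃ e ∈ E, ∃ b ∈ H i, T H i e b g) :=
    fun g => Iff.rfl
  -- elements with a direction lie in the group generated
  have hmemK : ∀ j k n g, Red H j k n g → g ∈ H false ⊔ H true := by
    intro j k n g h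
    induction h with
    | one i g hg hc => exact hK i hg
    | cons i j n x g hx hc hg ih => exact Subgroup.mul_mem _ (hK i hx) ih
  have hTK : ∀ a ∈ H i, ∀ b ∈ H i, ∀ g, T H i a b g → g ∈ H false ⊔ H true := by
    intro a ha b hb g ⟨n, h⟩
    have h1 := hmemK _ _ _ _ h
    have e : g = a * (a⁻¹ * g * b) * b⁻¹ := by group
    rw [e]
    exact Subgroup.mul_mem _ (Subgroup.mul_mem _ (hK i ha) h1) (Subgroup.inv_mem _ (hK i hb))
  apply free_of_pingpong (pair α β) X
  · intro j
    cases j
    · refine ⟨1, ?_⟩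
      rw [hXf]
      refine ⟨Subgroup.one_mem _, ?_⟩
      rintro ⟨e, he, b, hb, hT⟩
      exact hT.not_mem hNF (hE e he) hb (H i).one_mem
    · obtain ⟨e, he, e', he', hT⟩ := h2 1 one_ne_zero
      exact ⟨_, (hXt _).2 ⟨e, he, e', hE e' he', hT⟩⟩
  · rw [Set.disjoint_left]
    intro g hg hg'
    exact ((hXf g).1 hg).2 ((hXt g).1 hg')
  · intro n hn g hg
    obtain ⟨e, he, b, hb, hT⟩ := (hXt g).1 hg
    rw [hXf]
    change α ^ n * g ∈ H false ⊔ H true ∧ _
    have hαn : α ^ n ∈ H i := (H i).zpow_mem hα n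
    refine ⟨Subgroup.mul_mem _ (hK i hαn) (hTK e (hE e he) b hb g hT), ?_⟩
    rintro ⟨e', he', b', hb', hT'⟩
    change T H i e' b' (α ^ n * g) at hT'
    have h3 := hT.mul_left (α ^ n)
    have h4 := h3.dir_unique hNF hb ((H i).mul_mem hαn (hE e he)) (hE e' he') hb' hT'
    refine h1 e he e' he' (-n) (by simpa using hn) ?_
    have e2 : e⁻¹ * α ^ (-n) * e' = (α ^ n * e)⁻¹ * e' := by group
    rwa [e2]
  · intro n hn g hg
    obtain ⟨hgK, hg'⟩ := (hXf g).1 hg
    rw [hXt]
    change ∃ e ∈ E, ∃ b ∈ H i, T H i e b (β ^ n * g)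
    obtain ⟨e, he, e', he', hT⟩ := h2 n hn
    rcases T_cases i hgK with h | ⟨a, ha, b, hb, h⟩
    · exact ⟨e, he, g⁻¹ * e', (H i).mul_mem ((H i).inv_mem h) (hE e' he'), hT.mul_right g⟩
    · refine ⟨e, he, b, hb, hT.mul h (hE e' he') ha ?_⟩
      intro hc
      apply hg'
      have hm : ∀ k, e'⁻¹ * a ∈ H k :=
        mem_all ((H i).mul_mem ((H i).inv_mem (hE e' he')) ha) hc
      refine ⟨e', he', b, hb, h.congr_left (fun k => ?_)⟩
      have := (H k).inv_mem (hm k)
      simpa using this

/-- changing `β` into `α ^ k * β` does not change freeness. -/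
theorem free_of_shift {α β : G} (k : ℤ)
    (h : Function.Injective (FreeGroup.lift (pair α (α ^ k * β)))) :
    Function.Injective (FreeGroup.lift (pair α β)) := by
  let a : FreeGroup Bool := FreeGroup.of false
  let b : FreeGroup Bool := FreeGroup.of true
  let s : FreeGroup Bool →* FreeGroup Bool := FreeGroup.lift (pair a (a ^ (-k) * b))
  let t : FreeGroup Bool →* FreeGroup Bool := FreeGroup.lift (pair a (a ^ k * b))
  have hst : s.comp t = MonoidHom.id _ := by
    ext i
    cases i <;> simp [s, t, pair, a, b]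
  have hts : t.comp s = MonoidHom.id _ := by
    ext i
    cases i <;> simp [s, t, pair, a, b]
  have e : FreeGroup.lift (pair α β) = (FreeGroup.lift (pair α (α ^ k * β))).comp s := by
    ext i
    cases i <;> simp [s, pair, a, b]
  rw [e, MonoidHom.coe_comp]
  refine h.comp ?_
  intro x y hxy
  have := congrArg t hxy
  have e1 : ∀ x, t (s x) = x := fun x => DFunLike.congr_fun hts x
  rwa [e1, e1] at this

/-- **Free subgroups of amalgamated products.** -/
theorem free_main {H : Bool → Subgroup G} (hNF : NF H) (i : Bool) {α β : G}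
    (hα : α ∈ H i) (hβ : β ∈ H false ⊔ H true)
    (hαc : ∀ n : ℤ, n ≠ 0 → ∀ a ∈ H i, a⁻¹ * α ^ n * a ∉ H (!i))
    (hβp : ∀ k : ℤ, ∀ n : ℕ, 1 ≤ n → (α ^ k * β) ^ n ∉ H i) :
    Function.Injective (FreeGroup.lift (pair α β)) := by
  have hK : H i ≤ H false ⊔ H true := by
    cases i
    · exact le_sup_left
    · exact le_sup_right
  rcases T_cases i hβ with h | ⟨a, ha, b, hb, hT⟩
  · exact absurd (by simpa using h) (hβp 0 1 le_rfl)
  by_cases hk : ∃ k : ℤ, b⁻¹ * α ^ k * a ∈ H (!i)
  · obtain ⟨k, hk⟩ := hk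
    apply free_of_shift k
    have hαk : α ^ k ∈ H i := (H i).zpow_mem hα k
    have hT1 : T H i b b (α ^ k * β) := by
      refine (hT.mul_left (α ^ k)).congr_left (mem_all (i := i) ?_ ?_)
      · exact (H i).mul_mem ((H i).inv_mem ((H i).mul_mem hαk ha)) hb
      · have e : (α ^ k * a)⁻¹ * b = (b⁻¹ * α ^ k * a)⁻¹ := by group
        rw [e]
        exact (H (!i)).inv_mem hk
    have hTn : ∀ n : ℕ, 1 ≤ n → T H i b b ((α ^ k * β) ^ n) := by
      intro n hn
      obtain ⟨m, hm⟩ := hT1
      have e : (b⁻¹ * (α ^ k * β) * b) ^ n = b⁻¹ * (α ^ k * β) ^ n * b := by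
        have := conj_pow (i := n) (a := b⁻¹) (b := α ^ k * β)
        simpa using this
      rcases hm.pow_same n hn with ⟨h, -⟩ | ⟨m', h⟩
      · rw [e] at h
        exfalso
        apply hβp k n hn
        have e2 : (α ^ k * β) ^ n = b * (b⁻¹ * (α ^ k * β) ^ n * b) * b⁻¹ := by group
        rw [e2]
        exact (H i).mul_mem ((H i).mul_mem hb (h i)) ((H i).inv_mem hb)
      · rw [e] at h
        exact ⟨m', h⟩
    refine free_of_directions hNF i hα {b} ?_ ?_ ?_
    · rintro e rfl; exact hb
    · rintro e rfl e' rfl n hn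
      exact hαc n hn _ hb
    · intro n hn
      refine ⟨b, rfl, b, rfl, ?_⟩
      rcases lt_or_gt_of_ne hn with h | h
      · have h3 := (hTn n.natAbs (by omega)).inv
        have e : (α ^ k * β) ^ n = ((α ^ k * β) ^ n.natAbs)⁻¹ := by
          rw [← zpow_natCast, ← zpow_neg]
          congr 1
          omega
        rw [e]
        exact h3
      · have h3 := hTn n.natAbs (by omega)
        have e : (α ^ k * β) ^ n = (α ^ k * β) ^ n.natAbs := by
          rw [← zpow_natCast]
          congr 1
          omega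
        rw [e]
        exact h3
  · push Not at hk
    have hTn : ∀ n : ℕ, T H i a b (β ^ (n + 1)) := by
      intro n
      induction n with
      | zero => simpa using hT
      | succ n ih =>
        rw [pow_succ]
        exact ih.mul hT hb ha (by simpa using hk 0)
    refine free_of_directions hNF i hα {a, b} ?_ ?_ ?_
    · rintro e (rfl | rfl)
      · exact ha
      · exact hb
    · rintro e (rfl | rfl) e' (rfl | rfl) n hn
      · exact hαc n hn _ ha
      · intro h
        apply hk (-n)
        have e2 : e'⁻¹ * α ^ (-n) * e = (e⁻¹ * α ^ n * e')⁻¹ := by group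
        rw [e2]
        exact (H (!i)).inv_mem h
      · exact hk n
      · exact hαc n hn _ hb
    · intro n hn
      rcases lt_or_gt_of_ne hn with h | h
      · refine ⟨b, by simp, a, by simp, ?_⟩
        have h3 := (hTn (n.natAbs - 1)).inv
        have e : β ^ n = (β ^ (n.natAbs - 1 + 1))⁻¹ := by
          rw [← zpow_natCast, ← zpow_neg]
          congr 1
          omega
        rw [e]
        exact h3
      · refine ⟨a, by simp, b, by simp, ?_⟩
        have h3 := hTn (n.natAbs - 1)
        have e : β ^ n = β ^ (n.natAbs - 1 + 1) := by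
          rw [← zpow_natCast]
          congr 1
          omega
        rw [e]
        exact h3

end PP

end MP52aaf2
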