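import Pool.Agent.Lib.MP_52aaf2_al.Steps
import Pool.Agent.Lib.MP_52aaf2_al.PingPong

open Filter Topology Polynomial IntermediateField

namespace MP52aaf2

theorem isAlgFun_id : IsAlgFun (fun x => x) := by
  refine ⟨Eventually.of_forall fun x => analyticAt_id, X - C X, X_sub_C_ne_zero _, ?_⟩
  exact Eventually.of_forall fun x => by simp [evalEval]

/-- the group of algebraic germs -/
def AlgG : Subgroup GermGroup where
  carrier := {g | IsAlgGerm g}
  mul_mem' := by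
    rintro _ _ ⟨f, rfl, hf, hf'⟩ ⟨g, rfl, hg, hg'⟩
    exact ⟨f * g, rfl, hf.comp hg, hg'.comp (g := f.symm) hf'⟩
  one_mem' := ⟨1, rfl, isAlgFun_id, isAlgFun_id⟩
  inv_mem' := by
    rintro _ ⟨f, rfl, hf, hf'⟩
    exact ⟨f⁻¹, rfl, hf', hf⟩

theorem mem_AlgG {g : GermGroup} : g ∈ AlgG ↔ IsAlgGerm g := Iff.rfl

theorem IsAlgFun.congr {f g : ℝ → ℝ} (hf : IsAlgFun f) (h : ∀ᶠ x in atTop, g x = f x) :
    IsAlgFun g := by
  obtain ⟨h1, Q, hQ, hQ0⟩ := hf
  refine ⟨?_, Q, hQ, ?_⟩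
  · filter_upwards [h1, eventually_nhds_of_atTop h] with x hx hx'
    exact hx.congr (hx'.mono fun t ht => ht.symm)
  · filter_upwards [hQ0, h] with x hx hx'
    rw [hx']; exact hx

theorem isAlgFun_of_germ {f : ℝ ≃o ℝ} (h : germ f ∈ AlgG) : IsAlgFun f := by
  obtain ⟨g, hg, hg1, -⟩ := h
  exact hg1.congr ((germ_eq_iff.1 hg).mono fun x hx => hx.symm)

/-- rational power functions are algebraic -/
theorem isAlgFun_rpow {c r : ℝ} {q : ℚ} (hq : (q : ℝ) = r) (hr : 0 < r)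
    {f : ℝ → ℝ} (hf : ∀ᶠ x in atTop, f x = c * x ^ r) : IsAlgFun f := by
  have h1 : IsAlgFun (fun x => c * x ^ r) := by
    have hq0 : 0 < q := by
      have : (0 : ℝ) < q := by rw [hq]; exact hr
      exact_mod_cast this
    set n := q.den
    set m := q.num.toNat
    have hn : n ≠ 0 := q.den_ne_zero
    have hm : (m : ℝ) = r * n := by
      have h2 : (q.num : ℝ) = q * q.den := by
        have := q.mul_den_eq_num
        exact_mod_cast this.symm
      have h3 : ((q.num.toNat : ℤ) : ℝ) = q.num := by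
        rw [Int.toNat_of_nonneg (Rat.num_nonneg.2 hq0.le)]
      rw [← hq, ← h2, ← h3]
      rfl
    refine ⟨?_, X ^ n - C (C (c ^ n) * X ^ m), ?_, ?_⟩
    · filter_upwards [eventually_gt_atTop (0 : ℝ)] with x hx
      exact analyticAt_rpow (y := fun x => x) analyticAt_id hx c r
    · exact (monic_X_pow_sub_C _ hn).ne_zero
    · filter_upwards [eventually_gt_atTop (0 : ℝ)] with x hx
      simp only [evalEval, eval_sub, eval_pow, eval_X, eval_C, eval_mul]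
      rw [mul_pow, ← Real.rpow_natCast (x ^ r) n, ← Real.rpow_mul hx.le, ← hm,
        Real.rpow_natCast, sub_self]
  exact h1.congr hf

theorem symm_power {f : ℝ ≃o ℝ} {c r : ℝ} (hc : 0 < c) (hr : 0 < r)
    (hf : ∀ᶠ x in atTop, f x = c * x ^ r) :
    ∀ᶠ x in atTop, f.symm x = c⁻¹ ^ (r⁻¹) * x ^ (r⁻¹) := by
  have h1 := (tendsto_oi f.symm).eventually hf
  have h2 := (tendsto_oi f.symm).eventually (eventually_gt_atTop 0)
  filter_upwards [h1, h2, eventually_gt_atTop (0 : ℝ)] with x hx hx' hx0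
  rw [OrderIso.apply_symm_apply] at hx
  have e : (f.symm x) ^ r = c⁻¹ * x := by
    rw [hx]; field_simp
    rw [← hx]
  rw [← Real.mul_rpow (inv_pos.2 hc).le hx0.le, ← e, ← Real.rpow_mul hx'.le,
    mul_inv_cancel₀ hr.ne', Real.rpow_one]

/-- the group of power germs `c * x ^ r` with exponents in `Θ`. -/
def MonG (Θ : Subgroup ℝˣ) : Subgroup GermGroup where
  carrier := {g | ∃ c r : ℝ, 0 < c ∧ 0 < r ∧ (∃ u ∈ Θ, (u : ℝ) = r) ∧ IsMonGerm c r g}
  mul_mem' := by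
    rintro _ _ ⟨c, r, hc, hr, ⟨u, hu, rfl⟩, f, rfl, hf⟩ ⟨c', r', hc', hr', ⟨u', hu', rfl⟩, g, rfl, hg⟩
    refine ⟨c * c' ^ (u : ℝ), u' * u, mul_pos hc (Real.rpow_pos_of_pos hc' _), mul_pos hr' hr,
      ⟨u' * u, Θ.mul_mem hu' hu, rfl⟩, f * g, rfl, ?_⟩
    filter_upwards [(tendsto_oi g).eventually hf, hg, eventually_gt_atTop (0 : ℝ)] with x h1 h2 h3
    rw [oi_mul_apply, h1, h2, Real.mul_rpow hc'.le (Real.rpow_nonneg h3.le _),
      ← Real.rpow_mul h3.le]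
    ring
  one_mem' := ⟨1, 1, one_pos, one_pos, ⟨1, Θ.one_mem, rfl⟩, 1, rfl,
    Eventually.of_forall fun x => by rw [oi_one_apply, Real.rpow_one, one_mul]⟩
  inv_mem' := by
    rintro _ ⟨c, r, hc, hr, ⟨u, hu, rfl⟩, f, rfl, hf⟩
    refine ⟨c⁻¹ ^ ((u : ℝ)⁻¹), (u : ℝ)⁻¹, Real.rpow_pos_of_pos (inv_pos.2 hc) _, inv_pos.2 hr,
      ⟨u⁻¹, Θ.inv_mem hu, by simp⟩, f⁻¹, rfl, ?_⟩
    exact symm_power hc hr hf

theorem mem_MonG {Θ : Subgroup ℝˣ} {g : GermGroup} :
    g ∈ MonG Θ ↔ ∃ c r : ℝ, 0 < c ∧ 0 < r ∧ (∃ u ∈ Θ, (u : ℝ) = r) ∧ IsMonGerm c r g := Iff.rfl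

theorem ZP_of_irrational {f : ℝ ≃o ℝ} {c r : ℝ} (hc : 0 < c) (hr : Irrational r)
    (hf : ∀ᶠ x in atTop, f x = c * x ^ r) : ZP f := by
  have := step1 YP_one hc.ne' hr hf
  rwa [mul_one] at this

/-- an algebraic power germ has a rational exponent -/
theorem rational_of_alg {f : ℝ ≃o ℝ} {c r : ℝ} (hc : 0 < c)
    (hf : ∀ᶠ x in atTop, f x = c * x ^ r) (ha : germ f ∈ AlgG) : ∃ q : ℚ, (q : ℝ) = r := by
  by_contra hcon
  exact (ZP_of_irrational hc (fun ⟨q, hq⟩ => hcon ⟨q, hq⟩) hf).not_alg (isAlgFun_of_germ ha)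

/-- a rational power germ is algebraic -/
theorem alg_of_rational {f : ℝ ≃o ℝ} {c r : ℝ} (hc : 0 < c) (hr : 0 < r)
    (hf : ∀ᶠ x in atTop, f x = c * x ^ r) {q : ℚ} (hq : (q : ℝ) = r) : germ f ∈ AlgG :=
  ⟨f, rfl, isAlgFun_rpow hq hr hf, isAlgFun_rpow (q := q⁻¹)
    (by push_cast; rw [hq]) (inv_pos.2 hr)
    (symm_power hc hr hf)⟩

/-- the two vertex groups -/
def HH (Θ : Subgroup ℝˣ) : Bool → Subgroup GermGroup := fun i => bif i then MonG Θ else AlgG

theorem red_inv {Θ : Subgroup ℝˣ} (hΘ : ∀ q : ℚ, 0 < q → ∃ u ∈ Θ, (u : ℝ) = q) {i j : Bool}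
    {n : ℕ} {g : GermGroup} (h : Red (HH Θ) i j n g) (hj : j = true) :
    ∃ f : ℝ ≃o ℝ, germ f = g ∧ (i = true → ZP f) ∧ (i = false → YP f) := by
  have hirr : ∀ x : GermGroup, x ∈ MonG Θ → x ∉ AlgG → ∃ f : ℝ ≃o ℝ, germ f = x ∧
      ∃ c r : ℝ, 0 < c ∧ Irrational r ∧ ∀ᶠ x in atTop, f x = c * x ^ r := by
    rintro x ⟨c, r, hc, hr, -, f, rfl, hf⟩ hx
    exact ⟨f, rfl, c, r, hc, fun ⟨q, hq⟩ => hx (alg_of_rational hc hr hf hq), hf⟩
  induction h with
  | one i g hg hgc =>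
    subst hj
    obtain ⟨f, rfl, c, r, hc, hr, hf⟩ := hirr g hg hgc
    exact ⟨f, rfl, fun _ => ZP_of_irrational hc hr hf, fun h => absurd h (by simp)⟩
  | cons i j n x g hx hxc hg ih =>
    obtain ⟨f, rfl, hZ, hY⟩ := ih hj
    cases i
    · obtain ⟨a, rfl, ha, ha'⟩ := hx
      refine ⟨a * f, rfl, fun h => absurd h (by simp), fun _ => ?_⟩
      refine step2 (hZ rfl) ha ?_
      rintro ⟨c, r, hc, hr, hcr⟩
      apply hxc
      obtain ⟨q, hq⟩ := rational_of_alg hc hcr ⟨a, rfl, ha, ha'⟩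
      have hq0 : 0 < q := by
        have : (0 : ℝ) < q := by rw [hq]; exact hr
        exact_mod_cast this
      exact ⟨c, r, hc, hr, by rw [← hq]; exact hΘ q hq0, a, rfl, hcr⟩
    · obtain ⟨m, rfl, c, r, hc, hr, hm⟩ := hirr x hx hxc
      refine ⟨m * f, rfl, fun _ => step1 (hY rfl) hc.ne' hr hm, fun h => absurd h (by simp)⟩

theorem nf_of_middle {G : Type} [Group G] {H : Bool → Subgroup G}
    (hP : ∀ n g, Red H true true n g → g ∉ H false) : NF H := by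
  have hA : ∀ j n g, Red H true j n g → g ∉ H false := by
    intro j n g h hg
    cases j
    · have h1 := h.inv
      generalize hw : g⁻¹ = w at h1
      cases h1 with
      | cons _ _ m x g' hx hxc hh =>
        apply hP _ _ hh
        have e : g' = x⁻¹ * g⁻¹ := by rw [hw]; group
        rw [e]
        exact (H false).mul_mem ((H false).inv_mem hx) ((H false).inv_mem hg)
    · exact hP _ _ h hg
  intro i j n h
  cases i
  · generalize hw : (1 : G) = w at h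
    cases h with
    | one _ _ hg hgc =>
      apply hgc
      rw [← hw]
      exact (H _).one_mem
    | cons _ _ m x g hx hxc hg =>
      apply hA _ _ _ hg
      have e : g = x⁻¹ * 1 := by rw [hw]; group
      rw [e]
      exact (H false).mul_mem ((H false).inv_mem hx) (H false).one_mem
  · exact hA _ _ _ h (H false).one_mem

/-- **Normal form theorem.** -/
theorem nf_HH {Θ : Subgroup ℝˣ} (hΘ : ∀ q : ℚ, 0 < q → ∃ u ∈ Θ, (u : ℝ) = q) : NF (HH Θ) := by
  apply nf_of_middle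
  intro n g h hg
  obtain ⟨f, rfl, hZ, -⟩ := red_inv hΘ h rfl
  exact (hZ rfl).not_alg (isAlgFun_of_germ hg)

end MP52aaf2
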