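import Pool.Agent.Lib.MP_52aaf2_al.Groups

open Filter Topology Polynomial

namespace MP52aaf2

theorem poly_upper (p : ℝ[X]) : ∃ m : ℕ, ∀ᶠ x : ℝ in atTop, |p.eval x| ≤ x ^ m := by
  induction p using Polynomial.induction_on' with
  | add p q hp hq =>
    obtain ⟨m, hm⟩ := hp
    obtain ⟨m', hm'⟩ := hq
    refine ⟨max m m' + 1, ?_⟩
    filter_upwards [hm, hm', eventually_ge_atTop (2 : ℝ)] with x h1 h2 h3
    have h4 : (1 : ℝ) ≤ x := by linarith
    have e1 : x ^ m ≤ x ^ max m m' := pow_le_pow_right₀ h4 (le_max_left _ _)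
    have e2 : x ^ m' ≤ x ^ max m m' := pow_le_pow_right₀ h4 (le_max_right _ _)
    have e3 : 0 < x ^ max m m' := by positivity
    rw [eval_add, pow_succ]
    calc |eval x p + eval x q| ≤ |eval x p| + |eval x q| := abs_add_le _ _
      _ ≤ x ^ max m m' + x ^ max m m' := by linarith
      _ ≤ x ^ max m m' * x := by nlinarith
  | monomial n c =>
    refine ⟨n + 1, ?_⟩
    filter_upwards [eventually_ge_atTop (1 : ℝ), eventually_ge_atTop |c|] with x h1 h2
    rw [eval_monomial, abs_mul, abs_pow, abs_of_nonneg (by linarith : (0 : ℝ) ≤ x), pow_succ,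
      mul_comm]
    exact mul_le_mul_of_nonneg_left h2 (by positivity)

theorem poly_lower {p : ℝ[X]} (hp : p ≠ 0) : ∃ δ > 0, ∀ᶠ x : ℝ in atTop, δ ≤ |p.eval x| := by
  by_cases hd : 0 < p.degree
  · have h := Polynomial.abs_tendsto_atTop p hd
    exact ⟨1, one_pos, h.eventually_ge_atTop 1⟩
  · rw [eq_C_of_degree_le_zero (not_lt.1 hd)]
    have hc : p.coeff 0 ≠ 0 := by
      intro h
      apply hp
      rw [eq_C_of_degree_le_zero (not_lt.1 hd), h, C_0]
    refine ⟨|p.coeff 0|, abs_pos.2 hc, Eventually.of_forall fun x => ?_⟩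
    rw [eval_C]

theorem sum_upper (q : ℕ → ℝ[X]) (e : ℕ) : ∃ m : ℕ, ∀ᶠ x : ℝ in atTop, ∀ y : ℝ, 1 ≤ |y| →
    |∑ i ∈ Finset.range (e + 1), (q i).eval x * y ^ i| ≤ x ^ m * |y| ^ e := by
  induction e with
  | zero =>
    obtain ⟨m, hm⟩ := poly_upper (q 0)
    refine ⟨m, ?_⟩
    filter_upwards [hm] with x hx y hy
    simpa using hx
  | succ e ih =>
    obtain ⟨m, hm⟩ := ih
    obtain ⟨m', hm'⟩ := poly_upper (q (e + 1))
    refine ⟨max m m' + 1, ?_⟩
    filter_upwards [hm, hm', eventually_ge_atTop (2 : ℝ)] with x h1 h2 h3 y hy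
    have h4 : (1 : ℝ) ≤ x := by linarith
    have e1 : x ^ m ≤ x ^ max m m' := pow_le_pow_right₀ h4 (le_max_left _ _)
    have e2 : x ^ m' ≤ x ^ max m m' := pow_le_pow_right₀ h4 (le_max_right _ _)
    have e3 : 0 < x ^ max m m' := by positivity
    have e4 : |y| ^ e ≤ |y| ^ (e + 1) := pow_le_pow_right₀ hy (Nat.le_succ _)
    have e5 : 0 < |y| ^ (e + 1) := by positivity
    have e6 : 0 ≤ |y| ^ e := by positivity
    rw [Finset.sum_range_succ]
    calc |∑ i ∈ Finset.range (e + 1), (q i).eval x * y ^ i + (q (e + 1)).eval x * y ^ (e + 1)|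
        ≤ |∑ i ∈ Finset.range (e + 1), (q i).eval x * y ^ i| +
          |(q (e + 1)).eval x * y ^ (e + 1)| := abs_add_le _ _
      _ ≤ x ^ m * |y| ^ e + x ^ m' * |y| ^ (e + 1) := by
          rw [abs_mul, abs_pow]
          exact add_le_add (h1 y hy) (mul_le_mul_of_nonneg_right h2 (by positivity))
      _ ≤ x ^ max m m' * |y| ^ (e + 1) + x ^ max m m' * |y| ^ (e + 1) := by
          refine add_le_add (mul_le_mul e1 e4 e6 e3.le) (mul_le_mul_of_nonneg_right e2 e5.le)
      _ ≤ x ^ (max m m' + 1) * |y| ^ (e + 1) := by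
          have e7 : x ^ (max m m' + 1) = x ^ max m m' * x := pow_succ _ _
          rw [e7]
          nlinarith [mul_pos e3 e5]

theorem evalEval_eq_sum (Q : ℝ[X][X]) (x y : ℝ) :
    Q.evalEval x y = ∑ i ∈ Finset.range (Q.natDegree + 1), (Q.coeff i).eval x * y ^ i := by
  rw [evalEval, eval_eq_sum_range (p := Q), eval_finsetSum]
  simp

/-- algebraic functions grow at most polynomially -/
theorem IsAlgFun.growth {f : ℝ → ℝ} (hf : IsAlgFun f) :
    ∃ N : ℕ, ∀ᶠ x in atTop, |f x| ≤ x ^ N := by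
  obtain ⟨-, Q, hQ, hQ0⟩ := hf
  obtain ⟨δ, hδ, hlow⟩ := poly_lower (leadingCoeff_ne_zero.2 hQ)
  rcases hd : Q.natDegree with _ | e
  · exfalso
    obtain ⟨x, h1, h2⟩ := (hQ0.and hlow).exists
    rw [evalEval_eq_sum, hd] at h1
    rw [leadingCoeff, hd] at h2
    simp only [zero_add, Finset.range_one, Finset.sum_singleton, pow_zero, mul_one] at h1
    rw [h1, abs_zero] at h2
    linarith
  · obtain ⟨m, hm⟩ := sum_upper Q.coeff e
    refine ⟨m + 1, ?_⟩
    filter_upwards [hQ0, hlow, hm, eventually_ge_atTop (1 : ℝ), eventually_ge_atTop (1 / δ)]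
      with x h1 h2 h3 h4 h5
    by_cases hy : 1 ≤ |f x|
    · have h6 := h3 (f x) hy
      rw [evalEval_eq_sum, hd, Finset.sum_range_succ] at h1
      rw [leadingCoeff, hd] at h2
      have h7 : |(Q.coeff (e + 1)).eval x| * |f x| ^ (e + 1) ≤ x ^ m * |f x| ^ e := by
        rw [← abs_pow, ← abs_mul]
        have : (Q.coeff (e + 1)).eval x * f x ^ (e + 1) =
            - ∑ i ∈ Finset.range (e + 1), (Q.coeff i).eval x * f x ^ i := by linarith
        rw [this, abs_neg]
        exact h6
      have h8 : 0 < |f x| ^ e := by positivity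
      have h9 : δ * |f x| ≤ x ^ m := by
        have e1 : δ * |f x| * |f x| ^ e ≤ x ^ m * |f x| ^ e := by
          refine le_trans ?_ h7
          rw [pow_succ, mul_assoc, mul_comm |f x| (|f x| ^ e)]
          exact mul_le_mul_of_nonneg_right h2 (by positivity)
        exact le_of_mul_le_mul_right e1 h8
      have h10 : 0 < x ^ m := by positivity
      have h11 : 1 ≤ x * δ := by
        rw [div_le_iff₀ hδ] at h5
        exact h5
      calc |f x| ≤ |f x| * (x * δ) := le_mul_of_one_le_right (abs_nonneg _) h11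
        _ = (δ * |f x|) * x := by ring
        _ ≤ x ^ m * x := mul_le_mul_of_nonneg_right h9 (by linarith)
        _ = x ^ (m + 1) := (pow_succ _ _).symm
    · push Not at hy
      exact le_trans hy.le (one_le_pow₀ h4)

theorem addRight_pow (n : ℕ) (x : ℝ) : ((OrderIso.addRight (1 : ℝ)) ^ n) x = x + n := by
  induction n generalizing x with
  | zero => simp
  | succ n ih =>
    rw [pow_succ, oi_mul_apply, ih]
    simp only [OrderIso.addRight_apply]
    push_cast
    ring

/-- near `+∞`, a power function lying above the diagonal grows by a factor `> 1`. -/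
theorem power_expands {c r : ℝ} (hc : 0 < c) (h : ∀ᶠ u : ℝ in atTop, u < c * u ^ r) :
    ∃ lam > 1, ∀ᶠ u : ℝ in atTop, lam * u ≤ c * u ^ r := by
  have key : ∀ u : ℝ, 0 < u → c * u ^ r = c * u ^ (r - 1) * u := by
    intro u hu
    rw [Real.rpow_sub_one hu.ne']
    field_simp
  rcases lt_trichotomy r 1 with hr | rfl | hr
  · exfalso
    have h1 : Tendsto (fun u : ℝ => c * u ^ (-(1 - r))) atTop (𝓝 (c * 0)) :=
      (tendsto_rpow_neg_atTop (by linarith)).const_mul c
    rw [mul_zero] at h1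
    have h2 := h1.eventually (gt_mem_nhds one_pos)
    obtain ⟨u, h3, h4, h5⟩ := (h.and (h2.and (eventually_gt_atTop 0))).exists
    rw [key u h5] at h3
    have e : -(1 - r) = r - 1 := by ring
    rw [e] at h4
    nlinarith
  · obtain ⟨u, h3, h5⟩ := (h.and (eventually_gt_atTop 0)).exists
    rw [Real.rpow_one] at h3
    refine ⟨c, by nlinarith, Eventually.of_forall fun u => by rw [Real.rpow_one]⟩
  · have h1 : Tendsto (fun u : ℝ => c * u ^ (r - 1)) atTop atTop :=
      (tendsto_rpow_atTop (by linarith)).const_mul_atTop hc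
    refine ⟨2, by norm_num, ?_⟩
    filter_upwards [h1.eventually_ge_atTop 2, eventually_gt_atTop 0] with u h2 h3
    rw [key u h3]
    exact mul_le_mul_of_nonneg_right h2 h3.le

theorem no_conj_nat {Θ : Subgroup ℝˣ} {n : ℕ} (hn : 1 ≤ n) {a : GermGroup} (ha : a ∈ AlgG) :
    a⁻¹ * alpha ^ n * a ∉ MonG Θ := by
  rintro ⟨c, r, hc, hr, -, m, hm, hmr⟩
  obtain ⟨A, rfl, hA, hB⟩ := ha
  -- `c * B(x)^r = B(x+n)`
  have h1 : germ (m * A.symm) = germ (A.symm * (OrderIso.addRight (1 : ℝ)) ^ n) := by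
    have e1 : germ (m * A.symm) = germ m * (germ A)⁻¹ := rfl
    have e2 : germ (A.symm * (OrderIso.addRight (1 : ℝ)) ^ n) = (germ A)⁻¹ * alpha ^ n := rfl
    rw [e1, e2, hm]
    group
  have h2 := germ_eq_iff.1 h1
  have hn0 : (0 : ℝ) < n := by exact_mod_cast hn
  set B := A.symm
  have h3 : ∀ᶠ x in atTop, c * (B x) ^ r = B (x + n) := by
    filter_upwards [h2, (tendsto_oi B).eventually hmr] with x hx hx'
    rw [oi_mul_apply, oi_mul_apply, addRight_pow, hx'] at hx
    exact hx
  have h4 : ∀ᶠ u : ℝ in atTop, u < c * u ^ r := by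
    have := (tendsto_oi B.symm).eventually h3
    filter_upwards [this] with u hu
    rw [OrderIso.apply_symm_apply] at hu
    rw [hu]
    conv_lhs => rw [← B.apply_symm_apply u]
    exact B.strictMono (by linarith)
  obtain ⟨lam, hlam, h5⟩ := power_expands hc h4
  obtain ⟨N, hN⟩ := hB.growth
  obtain ⟨M, hM⟩ := eventually_atTop.1 (h3.and (((tendsto_oi B).eventually h5).and
    (hN.and (((tendsto_oi B).eventually (eventually_gt_atTop 0)).and (eventually_gt_atTop 0)))))
  have hMpos : 0 < M := (hM M le_rfl).2.2.2.2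
  set u₀ := B M
  have hu₀ : 0 < u₀ := (hM M le_rfl).2.2.2.1
  have hlow : ∀ j : ℕ, lam ^ j * u₀ ≤ B (M + j * n) := by
    intro j
    induction j with
    | zero => simp [u₀]
    | succ j ih =>
      have hge : M ≤ M + j * n := by
        have : (0 : ℝ) ≤ j * n := by positivity
        linarith
      obtain ⟨e1, e2, -, -, -⟩ := hM _ hge
      have e3 : B (M + (j + 1 : ℕ) * n) = B (M + j * n + n) := by
        congr 1
        push_cast
        ring
      rw [e3, ← e1, pow_succ]
      refine le_trans ?_ e2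
      calc lam ^ j * lam * u₀ = lam * (lam ^ j * u₀) := by ring
        _ ≤ lam * B (M + j * n) := mul_le_mul_of_nonneg_left ih (by linarith)
  have hup : ∀ j : ℕ, 1 ≤ j → B (M + j * n) ≤ (M + n) ^ N * (j : ℝ) ^ N := by
    intro j hj
    have hj' : (1 : ℝ) ≤ j := by exact_mod_cast hj
    have hge : M ≤ M + j * n := by
      have : (0 : ℝ) ≤ j * n := by positivity
      linarith
    obtain ⟨-, -, e3, -, -⟩ := hM _ hge
    calc B (M + j * n) ≤ |B (M + j * n)| := le_abs_self _
      _ ≤ (M + j * n) ^ N := e3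
      _ ≤ ((M + n) * j) ^ N := by
          apply pow_le_pow_left₀ (by positivity)
          nlinarith
      _ = (M + n) ^ N * (j : ℝ) ^ N := mul_pow _ _ _
  have hlo := isLittleO_pow_const_const_pow_of_one_lt (R := ℝ) N hlam
  have hCN : 0 < (M + n) ^ N := by positivity
  have h6 := hlo.def (c := u₀ / (2 * (M + n) ^ N)) (by positivity)
  obtain ⟨j, h7, h8⟩ := (h6.and (eventually_ge_atTop 1)).exists
  have h9 := hlow j
  have h10 := hup j h8
  rw [Real.norm_of_nonneg (by positivity), Real.norm_of_nonneg (by positivity)] at h7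
  have h11 : (M + n) ^ N * (j : ℝ) ^ N ≤ u₀ / 2 * lam ^ j := by
    calc (M + n) ^ N * (j : ℝ) ^ N ≤ (M + n) ^ N * (u₀ / (2 * (M + n) ^ N) * lam ^ j) :=
          mul_le_mul_of_nonneg_left h7 hCN.le
      _ = u₀ / 2 * lam ^ j := by field_simp
  have h12 : 0 < lam ^ j := by positivity
  nlinarith [mul_pos hu₀ h12]

/-- powers of the translation are not conjugate to power germs inside the algebraic germs. -/
theorem no_conj {Θ : Subgroup ℝˣ} {n : ℤ} (hn : n ≠ 0) {a : GermGroup} (ha : a ∈ AlgG) :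
    a⁻¹ * alpha ^ n * a ∉ MonG Θ := by
  intro h
  rcases lt_or_gt_of_ne hn with h0 | h0
  · apply no_conj_nat (Θ := Θ) (n := n.natAbs) (by omega) ha
    have h1 := (MonG Θ).inv_mem h
    have e : (a⁻¹ * alpha ^ n * a)⁻¹ = a⁻¹ * alpha ^ n.natAbs * a := by
      have : alpha ^ n.natAbs = (alpha ^ n)⁻¹ := by
        rw [← zpow_natCast, ← zpow_neg]
        congr 1
        omega
      rw [this]
      group
    rwa [e] at h1
  · apply no_conj_nat (Θ := Θ) (n := n.natAbs) (by omega) ha
    have : alpha ^ n.natAbs = alpha ^ n := by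
      rw [← zpow_natCast]
      congr 1
      omega
    rwa [this]

end MP52aaf2
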