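import Pool.Agent.Lib.MP_52aaf2_al.NormStep

open Polynomial

namespace MP52aaf2

section

variable {k F : Type} [Field k] [Field F] [Algebra k F]

theorem exists_X_pow_mul {P : k[X]} (hP : P ≠ 0) :
    ∃ (m : ℕ) (Q : k[X]), P = X ^ m * Q ∧ Q.eval 0 ≠ 0 := by
  obtain ⟨Q, hQ, hd⟩ := Polynomial.exists_eq_pow_rootMultiplicity_mul_and_not_dvd P hP 0
  refine ⟨_, Q, by simpa using hQ, fun h => hd ?_⟩
  exact Polynomial.dvd_iff_isRoot.2 h

theorem der_aeval (θ : Derivation k F F) {z : F} (hz : θ z = z) (P : k[X]) :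
    θ (aeval z P) = z * aeval z (derivative P) := by
  rw [Derivation.map_aeval, hz, smul_eq_mul, mul_comm]

theorem logder_aeval [CharZero k] (θ : Derivation k F F) {z : F} (hz : θ z = z) (m : ℕ) (Q : k[X])
    (hQ : aeval z Q ≠ 0) (hz0 : z ≠ 0) :
    θ (aeval z (X ^ m * Q)) / aeval z (X ^ m * Q) =
      m + z * (aeval z (derivative Q) / aeval z Q) := by
  rw [map_mul, map_pow, aeval_X, Derivation.leibniz, Derivation.leibniz_pow, der_aeval θ hz Q, hz]
  have : z ^ m ≠ 0 := pow_ne_zero _ hz0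
  simp only [smul_eq_mul, nsmul_eq_mul]
  rcases m with _ | m
  · simp
    field_simp
  · rw [Nat.add_sub_cancel]
    field_simp
    ring

theorem ord_lemma [CharZero k] (θ : Derivation k F F) {z : F} (hz : θ z = z)
    (htr : Transcendental k z) (κ ρ : k) {r₁ s₁ r₂ s₂ : k[X]} (hr₁ : r₁ ≠ 0) (hs₁ : s₁ ≠ 0)
    (hr₂ : r₂ ≠ 0) (hs₂ : s₂ ≠ 0)
    (h : θ (aeval z r₁ / aeval z s₁) / (aeval z r₁ / aeval z s₁) =
      algebraMap k F κ + algebraMap k F ρ *
        (θ (aeval z r₂ / aeval z s₂) / (aeval z r₂ / aeval z s₂))) :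
    ∃ a b : ℤ, κ = a - ρ * b := by
  have hinj : Function.Injective (aeval z : k[X] →ₐ[k] F) := transcendental_iff_injective.1 htr
  have hne : ∀ P : k[X], P ≠ 0 → aeval z P ≠ 0 := fun P hP =>
    (map_ne_zero_iff _ hinj).2 hP
  have hz0 : z ≠ 0 := by
    have := hne X X_ne_zero
    simpa using this
  have hld : ∀ a b : F, a ≠ 0 → b ≠ 0 → θ (a / b) / (a / b) = θ a / a - θ b / b := by
    intro a b ha hb
    rw [Derivation.leibniz_div]
    simp only [smul_eq_mul]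
    field_simp
  rw [hld _ _ (hne _ hr₁) (hne _ hs₁), hld _ _ (hne _ hr₂) (hne _ hs₂)] at h
  obtain ⟨m₁, R₁, rfl, hR₁⟩ := exists_X_pow_mul hr₁
  obtain ⟨n₁, S₁, rfl, hS₁⟩ := exists_X_pow_mul hs₁
  obtain ⟨m₂, R₂, rfl, hR₂⟩ := exists_X_pow_mul hr₂
  obtain ⟨n₂, S₂, rfl, hS₂⟩ := exists_X_pow_mul hs₂
  have hR₁' : R₁ ≠ 0 := by rintro rfl; simp at hR₁
  have hS₁' : S₁ ≠ 0 := by rintro rfl; simp at hS₁
  have hR₂' : R₂ ≠ 0 := by rintro rfl; simp at hR₂
  have hS₂' : S₂ ≠ 0 := by rintro rfl; simp at hS₂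
  have e1 := hne _ hR₁'
  have e2 := hne _ hS₁'
  have e3 := hne _ hR₂'
  have e4 := hne _ hS₂'
  rw [logder_aeval θ hz _ _ e1 hz0, logder_aeval θ hz _ _ e2 hz0,
    logder_aeval θ hz _ _ e3 hz0, logder_aeval θ hz _ _ e4 hz0] at h
  set c : k := (m₁ - n₁ : k) - κ - ρ * (m₂ - n₂) with hc
  have hpoly : aeval z (C c * (R₁ * S₁ * R₂ * S₂) + X * (derivative R₁ * S₁ * R₂ * S₂ -
      R₁ * derivative S₁ * R₂ * S₂ - C ρ * (R₁ * S₁ * derivative R₂ * S₂ -
      R₁ * S₁ * R₂ * derivative S₂))) = 0 := by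
    simp only [map_add, map_mul, map_sub, aeval_C, aeval_X, hc, map_natCast]
    field_simp at h
    linear_combination h
  have h0 := (map_eq_zero_iff _ hinj).1 hpoly
  have h1 := congrArg (eval 0) h0
  simp only [eval_add, eval_mul, eval_C, eval_X, zero_mul, add_zero, eval_zero] at h1
  have hc0 : c = 0 := by
    rcases mul_eq_zero.1 h1 with h | h
    · exact h
    · exfalso
      exact (mul_ne_zero (mul_ne_zero (mul_ne_zero hR₁ hS₁) hR₂) hS₂) h
  refine ⟨m₁ - n₁, m₂ - n₂, ?_⟩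
  push_cast
  rw [hc] at hc0
  linear_combination -hc0

end

end MP52aaf2
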