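import Pool.Agent.Lib.MP_52aaf2_al.Growth

open Filter Topology Polynomial IntermediateField

namespace MP52aaf2

/-- the function `c * x ^ r` on `[0, ∞)` and `x` on `(-∞, 0)`. -/
noncomputable def powFun (c r : ℝ) : ℝ → ℝ := fun x => if 0 ≤ x then c * x ^ r else x

theorem powFun_strictMono {c r : ℝ} (hc : 0 < c) (hr : 0 < r) : StrictMono (powFun c r) := by
  intro x y hxy
  unfold powFun
  by_cases hx : 0 ≤ x
  · have hy : 0 ≤ y := hx.trans hxy.le
    rw [if_pos hx, if_pos hy]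
    exact mul_lt_mul_of_pos_left (Real.rpow_lt_rpow hx hxy hr) hc
  · rw [if_neg hx]
    push Not at hx
    by_cases hy : 0 ≤ y
    · rw [if_pos hy]
      exact lt_of_lt_of_le hx (mul_nonneg hc.le (Real.rpow_nonneg hy r))
    · rw [if_neg hy]; exact hxy

theorem powFun_surjective {c r : ℝ} (hc : 0 < c) (hr : 0 < r) :
    Function.Surjective (powFun c r) := by
  intro y
  by_cases hy : 0 ≤ y
  · have h1 : 0 ≤ y / c := div_nonneg hy hc.le
    refine ⟨(y / c) ^ (r⁻¹), ?_⟩
    unfold powFun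
    rw [if_pos (Real.rpow_nonneg h1 _), ← Real.rpow_mul h1, inv_mul_cancel₀ hr.ne', Real.rpow_one]
    field_simp
  · refine ⟨y, ?_⟩
    unfold powFun
    rw [if_neg hy]

/-- a homeomorphism of `ℝ` that is `c * x ^ r` on `[0, ∞)`. -/
noncomputable def powIso {c r : ℝ} (hc : 0 < c) (hr : 0 < r) : ℝ ≃o ℝ :=
  (powFun_strictMono hc hr).orderIsoOfSurjective _ (powFun_surjective hc hr)

theorem powIso_apply {c r : ℝ} (hc : 0 < c) (hr : 0 < r) {x : ℝ} (hx : 0 ≤ x) :
    powIso hc hr x = c * x ^ r := by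
  change powFun c r x = _
  unfold powFun
  rw [if_pos hx]

theorem isMonGerm_powIso {c r : ℝ} (hc : 0 < c) (hr : 0 < r) :
    IsMonGerm c r (germ (powIso hc hr)) :=
  ⟨powIso hc hr, rfl, (eventually_ge_atTop 0).mono fun _ hx => powIso_apply hc hr hx⟩

/-- powers of a power germ -/
theorem powIso_pow {c r : ℝ} (hc : 0 < c) (hr : 0 < r) (n : ℕ) {x : ℝ} (hx : 0 ≤ x) :
    ((powIso hc hr) ^ n) x = c ^ (∑ i ∈ Finset.range n, r ^ i) * x ^ (r ^ n) := by
  induction n generalizing x with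
  | zero => simp
  | succ n ih =>
    rw [pow_succ, oi_mul_apply, powIso_apply hc hr hx,
      ih (mul_nonneg hc.le (Real.rpow_nonneg hx r)), Real.mul_rpow hc.le (Real.rpow_nonneg hx r),
      ← mul_assoc, ← Real.rpow_add hc, ← Real.rpow_mul hx, Finset.sum_range_succ, pow_succ,
      mul_comm r (r ^ n)]

theorem lt_pow_of_lt {f g : ℝ ≃o ℝ} (h : ∀ᶠ x in atTop, g x < f x) (n : ℕ) (hn : 1 ≤ n) :
    ∀ᶠ x in atTop, (g ^ n) x < (f ^ n) x := by
  induction n, hn using Nat.le_induction with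
  | base => simpa using h
  | succ n hn ih =>
    filter_upwards [ih, (tendsto_oi (f ^ n)).eventually h] with x h1 h2
    rw [pow_succ', pow_succ', oi_mul_apply, oi_mul_apply]
    exact (g.strictMono h1).trans h2

/-- two homeomorphisms with the same `n`-th power meet arbitrarily far -/
theorem frequently_eq_of_pow_eq {f g : ℝ ≃o ℝ} (n : ℕ) (hn : 1 ≤ n)
    (h : ∀ᶠ x in atTop, (g ^ n) x = (f ^ n) x) : ∃ᶠ x in atTop, f x = g x := by
  have h1 : ∃ᶠ x in atTop, f x ≤ g x := by
    intro hcon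
    have h2 := lt_pow_of_lt (hcon.mono fun x hx => not_le.1 hx) n hn
    obtain ⟨x, h3, h4⟩ := (h.and h2).exists
    exact absurd h3 h4.ne
  have h2 : ∃ᶠ x in atTop, g x ≤ f x := by
    intro hcon
    have h2 := lt_pow_of_lt (hcon.mono fun x hx => not_le.1 hx) n hn
    obtain ⟨x, h3, h4⟩ := (h.and h2).exists
    exact absurd h3 h4.ne'
  rw [frequently_atTop] at h1 h2 ⊢
  intro X
  obtain ⟨x₁, hx₁, h1⟩ := h1 X
  obtain ⟨x₂, hx₂, h2⟩ := h2 X
  have hcont : Continuous fun x => f x - g x := f.continuous.sub g.continuous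
  have := isPreconnected_uIcc (a := x₁) (b := x₂) |>.intermediate_value
    (Set.left_mem_uIcc) (Set.right_mem_uIcc) hcont.continuousOn
  obtain ⟨x, hx, hx0⟩ := this (⟨by linarith, by linarith⟩ :
    (0 : ℝ) ∈ Set.Icc (f x₁ - g x₁) (f x₂ - g x₂))
  refine ⟨x, ?_, by linarith⟩
  have := hx.1
  exact le_trans (le_inf hx₁ hx₂) this

/-- the function `x f'(x) - s f(x)` is again algebraic -/
theorem isAlgFun_der {f : ℝ → ℝ} (hf : IsAlgFun f) (s : ℝ) :
    IsAlgFun (fun x => x * deriv f x - s * f x) := by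
  have han : ∀ᶠ x in atTop, AnalyticAt ℝ (fun x => x * deriv f x - s * f x) x := by
    filter_upwards [hf.1] with x hx
    exact (analyticAt_id.mul hx.deriv).sub (analyticAt_const.mul hx)
  refine isAlgFun_of_local han (Eventually.frequently ?_)
  filter_upwards [hf.1, hf.local, han] with x₀ h1 h2 h3
  refine ⟨h3, ?_⟩
  have hF : mka f h1 ∈ clo0 (XX x₀) := h2 h1
  have hchar : CharZero ℝ⟮XX x₀⟯ := charZero_k
  have hDF : der x₀ (mka f h1) ∈ clo0 (XX x₀) := by
    refine der_alg_stable (K := ℝ⟮XX x₀⟯) (der x₀) (fun c => ?_) hF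
    have h1 := adjoin_stab (k := ℝ) (der x₀) (fun a => ⟨0, by simp⟩)
      (z := XX x₀) (by rw [der_XX]; exact one_mem _) c c.2
    exact ⟨⟨_, h1⟩, rfl⟩
  have hX : XX x₀ ∈ clo0 (XX x₀) := self_mem_clo0
  have hmem : XX x₀ * der x₀ (mka f h1) - algebraMap ℝ (Mer x₀) s * mka f h1 ∈ clo0 (XX x₀) :=
    sub_mem (mul_mem hX hDF) (mul_mem (_root_.algebraMap_mem _ _) hF)
  have e : XX x₀ * der x₀ (mka f h1) - algebraMap ℝ (Mer x₀) s * mka f h1 =
      mka (fun x => x * deriv f x - s * f x) h3 := by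
    rw [der_mka]
    rfl
  rw [e] at hmem
  exact hmem

/-- an algebraic germ some power of which is a power germ is a power germ. -/
theorem root_alg {g : GermGroup} (hg : g ∈ AlgG) {n : ℕ} (hn : 1 ≤ n) (h : g ^ n ∈ MonG ⊤) :
    g ∈ MonG ⊤ := by
  obtain ⟨c, r, hc, hr, -, m, hm, hmr⟩ := h
  obtain ⟨f, rfl, hf, -⟩ := hg
  set s : ℝ := r ^ ((n : ℝ)⁻¹) with hs
  have hs0 : 0 < s := Real.rpow_pos_of_pos hr _
  have hsn : s ^ n = r := Real.rpow_inv_natCast_pow hr.le (by omega)
  set E : ℝ := ∑ i ∈ Finset.range n, s ^ i with hE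
  have hE0 : 0 < E := Finset.sum_pos (fun i _ => pow_pos hs0 i) ⟨0, Finset.mem_range.2 (by omega)⟩
  set c' : ℝ := c ^ (E⁻¹) with hc'
  have hc'0 : 0 < c' := Real.rpow_pos_of_pos hc _
  set μ := powIso hc'0 hs0 with hμ
  have hμn : ∀ᶠ x in atTop, (μ ^ n) x = (f ^ n) x := by
    have h1 : germ m = germ (f ^ n) := hm
    filter_upwards [germ_eq_iff.1 h1, hmr, eventually_ge_atTop (0 : ℝ)] with x h2 h3 h4
    rw [← h2, h3, powIso_pow hc'0 hs0 n h4, hsn, ← hE, hc', ← Real.rpow_mul hc.le,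
      inv_mul_cancel₀ hE0.ne', Real.rpow_one]
  have hfreq := frequently_eq_of_pow_eq n hn hμn
  -- zeros of `x f' - s f`
  have hfan := hf.1
  obtain ⟨M, hM⟩ := eventually_atTop.1 (hfan.and (((tendsto_oi f).eventually
    (eventually_gt_atTop 0)).and (eventually_gt_atTop (0 : ℝ))))
  have hzeros : ∃ᶠ x in atTop, x * deriv f x - s * f x = 0 := by
    rw [frequently_atTop] at hfreq ⊢
    intro X
    obtain ⟨x₁, hx₁, e1⟩ := hfreq (max X M)
    obtain ⟨x₂, hx₂, e2⟩ := hfreq (x₁ + 1)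
    have hx₁M : M ≤ x₁ := le_trans (le_max_right _ _) hx₁
    have hlt : x₁ < x₂ := by linarith
    have hder : ∀ x ∈ Set.Icc x₁ x₂, HasDerivAt (fun t => Real.log (f t) - s * Real.log t)
        (deriv f x / f x - s * x⁻¹) x := by
      intro x hx
      obtain ⟨a1, a2, a3⟩ := hM x (hx₁M.trans hx.1)
      exact (a1.differentiableAt.hasDerivAt.log a2.ne').sub
        ((Real.hasDerivAt_log a3.ne').const_mul s)
    have hval : ∀ x, M ≤ x → f x = μ x → Real.log (f x) - s * Real.log x = Real.log c' := by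
      intro x hx hfx
      obtain ⟨a1, a2, a3⟩ := hM x hx
      rw [hfx, powIso_apply hc'0 hs0 a3.le, Real.log_mul hc'0.ne' (Real.rpow_pos_of_pos a3 s).ne',
        Real.log_rpow a3]
      ring
    obtain ⟨ξ, hξ, hξ0⟩ := exists_hasDerivAt_eq_zero hlt
      (fun x hx => (hder x hx).continuousAt.continuousWithinAt)
      (by rw [hval x₁ hx₁M e1, hval x₂ (hx₁M.trans hlt.le) e2])
      (fun x hx => hder x (Set.Ioo_subset_Icc_self hx))
    obtain ⟨a1, a2, a3⟩ := hM ξ (hx₁M.trans hξ.1.le)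
    refine ⟨ξ, le_trans (le_trans (le_max_left _ _) hx₁) hξ.1.le, ?_⟩
    field_simp at hξ0
    linarith
  have hzero := (isAlgFun_der hf s).eq_zero hzeros
  obtain ⟨M', hM'⟩ := eventually_atTop.1 hzero
  -- `f / x^s` is constant
  set B := max M M' + 1
  have hBM : M < B := lt_of_le_of_lt (le_max_left M M') (by simp [B])
  have hBM' : M' < B := lt_of_le_of_lt (le_max_right M M') (by simp [B])
  have hderiv : ∀ x ∈ Set.Ioi B, HasDerivAt (fun t => Real.log (f t) - s * Real.log t) 0 x := by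
    intro x hx
    have hx' : B < x := hx
    obtain ⟨a1, a2, a3⟩ := hM x (hBM.le.trans hx'.le)
    have h0 := hM' x (hBM'.le.trans hx'.le)
    have h1 : HasDerivAt (fun t => Real.log (f t) - s * Real.log t)
        (deriv f x / f x - s * x⁻¹) x :=
      (a1.differentiableAt.hasDerivAt.log a2.ne').sub ((Real.hasDerivAt_log a3.ne').const_mul s)
    have e : deriv f x / f x - s * x⁻¹ = 0 := by
      field_simp
      linarith
    rwa [e] at h1
  have hconst : ∀ x, B < x → Real.log (f x) - s * Real.log x =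
      Real.log (f (B + 1)) - s * Real.log (B + 1) := by
    intro x hx
    refine isOpen_Ioi.is_const_of_deriv_eq_zero (s := Set.Ioi B) isPreconnected_Ioi
      (f := fun t => Real.log (f t) - s * Real.log t) ?_ ?_ hx
      (by change B < B + 1; linarith)
    · intro y hy
      exact (hderiv y hy).differentiableAt.differentiableWithinAt
    · intro y hy
      exact (hderiv y hy).deriv
  refine ⟨Real.exp (Real.log (f (B + 1)) - s * Real.log (B + 1)), s, Real.exp_pos _, hs0,
    ⟨Units.mk0 s hs0.ne', Subgroup.mem_top _, rfl⟩, f, rfl, ?_⟩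
  filter_upwards [eventually_gt_atTop B] with x hx
  obtain ⟨a1, a2, a3⟩ := hM x (hBM.le.trans hx.le)
  rw [← hconst x hx, Real.exp_sub, Real.exp_log a2, mul_comm s, ← Real.rpow_def_of_pos a3]
  field_simp

end MP52aaf2
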