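import Pool.Agent.Lib.MP_52aaf2_al.AlgFun2

open Filter Topology Polynomial IntermediateField

namespace MP52aaf2

/-- invariant after an algebraic letter -/
def YP (y : ℝ ≃o ℝ) : Prop :=
  (∀ᶠ x in atTop, AnalyticAt ℝ y x) ∧
    ∀ᶠ x₀ in atTop, ∀ h : AnalyticAt ℝ y x₀, ∃ k : IntermediateField ℝ (Mer x₀),
      Good (der x₀) k (mka y h) ∧ XX x₀ ∈ k

/-- invariant after a power letter -/
def ZP (z : ℝ ≃o ℝ) : Prop :=
  (∀ᶠ x in atTop, AnalyticAt ℝ z x) ∧
    ∀ᶠ x₀ in atTop, ∀ h : AnalyticAt ℝ z x₀, ∃ (k : IntermediateField ℝ (Mer x₀))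
      (y : Mer x₀) (ρ : ℝ), Good (der x₀) k y ∧ XX x₀ ∈ k ∧ Irrational ρ ∧
        der x₀ (mka z h) / mka z h = algebraMap ℝ (Mer x₀) ρ * (der x₀ y / y)

theorem mka_ne_zero_of_pos {x₀ : ℝ} {f : ℝ → ℝ} (hf : AnalyticAt ℝ f x₀) (h : f x₀ ≠ 0) :
    mka f hf ≠ 0 := by
  intro h0
  rw [mka_eq_zero] at h0
  have h1 : ∀ᶠ x in 𝓝[≠] x₀, f x ≠ 0 :=
    (hf.continuousAt.eventually_ne h).filter_mono nhdsWithin_le_nhds
  obtain ⟨x, hx1, hx2⟩ := (h0.and h1).exists
  exact hx2 hx1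

theorem YP_one : YP 1 := by
  refine ⟨Eventually.of_forall fun x => analyticAt_id, ?_⟩
  filter_upwards [eventually_gt_atTop (0 : ℝ)] with x₀ hx₀ h
  have e : mka (1 : ℝ ≃o ℝ) h = XX x₀ := rfl
  rw [e]
  refine ⟨clo0 (XX x₀), good_base (der x₀) (der_XX x₀) self_mem_clo0 ?_ ?_, self_mem_clo0⟩
  · exact mka_ne_zero_of_pos analyticAt_id hx₀.ne'
  · rw [der_XX]; exact one_ne_zero

theorem analyticAt_rpow {y : ℝ → ℝ} {x₀ : ℝ} (hy : AnalyticAt ℝ y x₀) (h0 : 0 < y x₀) (c r : ℝ) :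
    AnalyticAt ℝ (fun x => c * y x ^ r) x₀ := by
  have h1 : AnalyticAt ℝ (fun x => c * Real.exp (Real.log (y x) * r)) x₀ :=
    analyticAt_const.mul ((AnalyticAt.log hy h0).mul analyticAt_const).rexp'
  refine h1.congr ?_
  filter_upwards [hy.continuousAt.eventually (lt_mem_nhds h0)] with x hx
  rw [Real.rpow_def_of_pos hx]

theorem step1 {y : ℝ ≃o ℝ} (hy : YP y) {m : ℝ ≃o ℝ} {c r : ℝ} (hc : c ≠ 0)
    (hr : Irrational r) (hm : ∀ᶠ x in atTop, m x = c * x ^ r) : ZP (m * y) := by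
  have h1 : ∀ᶠ x in atTop, m (y x) = c * y x ^ r := (tendsto_oi y).eventually hm
  have h2 : ∀ᶠ x in atTop, 0 < y x := (tendsto_oi y).eventually (eventually_gt_atTop 0)
  have han : ∀ᶠ x in atTop, AnalyticAt ℝ (m * y) x := by
    filter_upwards [eventually_nhds_of_atTop h1, h2, hy.1] with x hx1 hx2 hx3
    refine (analyticAt_rpow hx3 hx2 c r).congr ?_
    filter_upwards [hx1] with t ht
    exact ht.symm
  refine ⟨han, ?_⟩
  filter_upwards [eventually_nhds_of_atTop (eventually_nhds_of_atTop h1),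
    eventually_nhds_of_atTop h2, eventually_nhds_of_atTop hy.1, hy.2] with x₀ e1 e2 e3 e4 h
  have hy0 : AnalyticAt ℝ y x₀ := e3.self_of_nhds
  obtain ⟨k, hk, hX⟩ := e4 hy0
  refine ⟨k, mka y hy0, r, hk, hX, hr, ?_⟩
  have hZ : mka (m * y : ℝ ≃o ℝ) h ≠ 0 := by
    apply mka_ne_zero_of_pos
    change m (y x₀) ≠ 0
    rw [e1.self_of_nhds.self_of_nhds]
    exact mul_ne_zero hc (Real.rpow_pos_of_pos e2.self_of_nhds r).ne'
  have hY : mka y hy0 ≠ 0 := mka_ne_zero_of_pos _ e2.self_of_nhds.ne'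
  have hmain : der x₀ (mka (m * y : ℝ ≃o ℝ) h) * mka y hy0 =
      algebraMap ℝ (Mer x₀) r * (der x₀ (mka y hy0) * mka (m * y : ℝ ≃o ℝ) h) := by
    rw [der_mka, der_mka, mka_const, mka_mul, mka_mul, mka_mul, mka_eq]
    apply Filter.Eventually.filter_mono nhdsWithin_le_nhds
    filter_upwards [e1, e2, e3] with x f1 f2 f3
    have hd : HasDerivAt (fun t => c * y t ^ r) (c * (deriv y x * r * y x ^ (r - 1))) x :=
      (f3.differentiableAt.hasDerivAt.rpow_const (Or.inl f2.ne')).const_mul c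
    have hd' : HasDerivAt (m * y : ℝ ≃o ℝ) (c * (deriv y x * r * y x ^ (r - 1))) x := by
      refine hd.congr_of_eventuallyEq ?_
      filter_upwards [f1] with t ht
      exact ht
    rw [hd'.deriv]
    change _ = r * (deriv y x * m (y x))
    rw [f1.self_of_nhds]
    have e : y x ^ (r - 1) * y x = y x ^ r := by
      rw [← Real.rpow_add_one f2.ne']
      congr 1
      ring
    linear_combination (c * deriv y x * r) * e
  rw [div_eq_iff hZ, mul_assoc, div_mul_eq_mul_div, mul_div_assoc', eq_div_iff hY]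
  exact hmain

/-- after a power letter, the germ is not algebraic. -/
theorem ZP.not_alg {z : ℝ ≃o ℝ} (hz : ZP z) : ¬ IsAlgFun z := by
  intro ha
  obtain ⟨x₀, h1, h2, h3, h4⟩ := (hz.1.and (hz.2.and (ha.local.and
    ((tendsto_oi z).eventually (eventually_gt_atTop 0))))).exists
  obtain ⟨k, y, ρ, hk, hX, hρ, hD⟩ := h2 h1
  have hZ : mka z h1 ≠ 0 := mka_ne_zero_of_pos _ h4.ne'
  apply good_trans hk hρ hZ hD
  have h5 := h3 h1
  refine isAlgebraic_mono (K := ℝ⟮XX x₀⟯) (fun c => ?_) h5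
  obtain ⟨r, s, hc⟩ := (IntermediateField.mem_adjoin_simple_iff ℝ _).1 c.2
  refine ⟨⟨aeval (XX x₀) r / aeval (XX x₀) s, div_mem (mem_algClosure_aeval hX r)
    (mem_algClosure_aeval hX s)⟩, ?_⟩
  change aeval (XX x₀) r / aeval (XX x₀) s = (c : Mer x₀)
  rw [hc]

/-- If a power relation `a(t)^N = c t^M` holds near `+∞`, then `a` is a power function. -/
theorem mon_of_pow {a : ℝ ≃o ℝ} {N : ℕ} (hN : 1 ≤ N) {M : ℤ} {c : ℝ}
    (h : ∀ᶠ t in atTop, a t ^ N = c * t ^ M) :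
    ∃ c' r : ℝ, 0 < c' ∧ 0 < r ∧ ∀ᶠ t in atTop, a t = c' * t ^ r := by
  have hN0 : (N : ℝ) ≠ 0 := by exact_mod_cast Nat.one_le_iff_ne_zero.1 hN
  have hpos : ∀ᶠ t : ℝ in atTop, 0 < t := eventually_gt_atTop 0
  have hapos : ∀ᶠ t in atTop, 0 < a t := (tendsto_oi a).eventually (eventually_gt_atTop 0)
  have hc : 0 < c := by
    obtain ⟨t, h1, h2, h3⟩ := (h.and (hpos.and hapos)).exists
    have h4 : 0 < a t ^ N := pow_pos h3 N
    rw [h1] at h4
    exact pos_of_mul_pos_left h4 (zpow_pos h2 M).le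
  have hform : ∀ᶠ t in atTop, a t = c ^ ((1 : ℝ) / N) * t ^ ((M : ℝ) / N) := by
    filter_upwards [h, hpos, hapos] with t h1 h2 h3
    have e1 : (a t ^ N) ^ ((1 : ℝ) / N) = a t := by
      rw [one_div]
      exact Real.pow_rpow_inv_natCast h3.le (by omega)
    rw [← e1, h1, Real.mul_rpow hc.le (zpow_pos h2 M).le]
    congr 1
    rw [← Real.rpow_intCast, ← Real.rpow_mul h2.le]
    congr 1
    ring
  refine ⟨c ^ ((1 : ℝ) / N), (M : ℝ) / N, Real.rpow_pos_of_pos hc _, ?_, hform⟩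
  by_contra hM
  push Not at hM
  -- `a` would be bounded
  obtain ⟨B, hB⟩ := eventually_atTop.1 (hform.and (eventually_ge_atTop (1 : ℝ)))
  have h1 : ∀ t ≥ B, a t ≤ c ^ ((1 : ℝ) / N) := by
    intro t ht
    obtain ⟨e1, e2⟩ := hB t ht
    rw [e1]
    have := Real.rpow_le_one_of_one_le_of_nonpos e2 hM
    have hp := Real.rpow_pos_of_pos hc ((1 : ℝ) / N)
    nlinarith
  have h2 := (tendsto_oi a).eventually (eventually_gt_atTop (c ^ ((1 : ℝ) / N)))
  obtain ⟨t, ht1, ht2⟩ := (h2.and (eventually_ge_atTop B)).exists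
  exact absurd (h1 t ht2) (not_le.2 ht1)

theorem map_nhdsNE (z : ℝ ≃o ℝ) (x₀ : ℝ) {p : ℝ → Prop} (h : ∀ᶠ x in 𝓝[≠] x₀, p (z x)) :
    ∀ᶠ t in 𝓝[≠] (z x₀), p t := by
  rw [eventually_nhdsWithin_iff] at h ⊢
  have hc : Tendsto z.symm (𝓝 (z x₀)) (𝓝 x₀) := by
    have := z.symm.continuous.tendsto (z x₀)
    rwa [OrderIso.symm_apply_apply] at this
  filter_upwards [hc.eventually h] with t ht ht'
  have := ht (by
    intro hcon
    apply ht'
    have hcon' : z.symm t = x₀ := hcon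
    change t = z x₀
    rw [← hcon', OrderIso.apply_symm_apply])
  rwa [OrderIso.apply_symm_apply] at this

theorem step2 {z : ℝ ≃o ℝ} (hz : ZP z) {a : ℝ ≃o ℝ} (ha : IsAlgFun a)
    (hmon : ¬ ∃ c' r : ℝ, 0 < c' ∧ 0 < r ∧ ∀ᶠ t in atTop, a t = c' * t ^ r) : YP (a * z) := by
  have han : ∀ᶠ x in atTop, AnalyticAt ℝ (a * z) x := analytic_comp ha.1 hz.1
  refine ⟨han, ?_⟩
  obtain ⟨haa, Q, hQ, hQ0⟩ := ha
  obtain ⟨T, hT⟩ := eventually_atTop.1 haa
  filter_upwards [hz.1, hz.2, (tendsto_oi z).eventually (eventually_gt_atTop 0),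
    (tendsto_oi z).eventually (eventually_gt_atTop (max T 0)),
    (tendsto_oi (a * z)).eventually (eventually_gt_atTop 0),
    eventually_nhds_of_atTop ((tendsto_oi z).eventually hQ0)] with x₀ h1 h2 h3 h4 h5 h6 h
  obtain ⟨k, y, ρ, hk, hX, hρ, hD⟩ := h2 h1
  have hZ : mka z h1 ≠ 0 := mka_ne_zero_of_pos _ h3.ne'
  have hY0 : mka (a * z : ℝ ≃o ℝ) h ≠ 0 := mka_ne_zero_of_pos _ h5.ne'
  have hYalg : IsAlgebraic ℝ⟮mka z h1⟯ (mka (a * z : ℝ ≃o ℝ) h) := by
    refine alg_of_dep (trans_oi z h1) hQ ?_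
    rw [eval₂_mka, mka_eq_zero]
    exact h6.filter_mono nhdsWithin_le_nhds
  refine ⟨clo k (mka z h1), good_step (fun a ha => der_const a ha) hk hρ hZ hD hYalg hY0
    (der_oi_ne_zero (a * z) h) ?_, le_clo hX⟩
  intro N hN M c hc heq
  apply hmon
  have hTz : T < z x₀ := lt_of_le_of_lt (le_max_left _ _) h4
  -- local identity in the variable `x`
  have e1 : ∀ᶠ x in 𝓝[≠] x₀, a (z x) ^ N = c * z x ^ M := by
    rcases Int.eq_nat_or_neg M with ⟨m, rfl | rfl⟩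
    · rw [zpow_natCast, mka_pow, mka_pow, mka_const, mka_mul, mka_eq] at heq
      filter_upwards [heq] with x hx
      rw [zpow_natCast]
      exact hx
    · rw [zpow_neg, zpow_natCast, ← div_eq_mul_inv, eq_div_iff (pow_ne_zero _ hZ), mka_pow,
        mka_pow, mka_mul, mka_const, mka_eq] at heq
      have hzpos : ∀ᶠ x in 𝓝[≠] x₀, 0 < z x :=
        (h1.continuousAt.eventually (lt_mem_nhds h3)).filter_mono nhdsWithin_le_nhds
      filter_upwards [heq, hzpos] with x hx hx'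
      rw [zpow_neg, zpow_natCast, ← div_eq_mul_inv, eq_div_iff (pow_ne_zero _ hx'.ne')]
      exact hx
  have e2 : ∀ᶠ t in 𝓝[≠] (z x₀), a t ^ N = c * t ^ M := map_nhdsNE z x₀ (p := fun t =>
    a t ^ N = c * t ^ M) e1
  -- identity theorem
  have e3 := eq_zero_of_local (M := max T 0) (x₀ := z x₀) (h := fun t => a t ^ N - c * t ^ M)
    (fun t ht => by
      have ht1 : T < t := lt_of_le_of_lt (le_max_left _ _) ht
      have ht2 : t ≠ 0 := (lt_of_le_of_lt (le_max_right _ _) ht).ne'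
      exact ((hT t ht1.le).pow N).sub (analyticAt_const.mul (analyticAt_id.zpow ht2)))
    h4 ((e2.mono fun t ht => by simp only [ht, sub_self]).frequently)
  apply mon_of_pow hN (M := M) (c := c)
  filter_upwards [eventually_gt_atTop (max T 0)] with t ht
  have := e3 t ht
  linarith

end MP52aaf2
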